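import Pool.Agent.W831.ECC.Ev

set_option autoImplicit false
set_option linter.unusedSectionVars false
set_option linter.unusedVariables false

/-!
Covers with multiplicity `m` by `3 m / 2 + O(sqrt (m log N))` even subgraphs.
-/

namespace Pool.Agent.W831.ECC

open Finset
open Pool.Agent.Helper879.ECD (F2 IsFlow f2_add_self f2_cases cn)
open Pool.Agent.H126R2.CDC (MGraph T3 IsFl isFl_iff exists_double_cover)
open Pool.Agent.H126R2.NC (InLat InIntCone TC nine_colouring_bridgeless countP_sum)
open Pool.Agent.W831.ECC.Gad (CutC Lv even_round)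

variable {V E : Type} [Fintype V] [DecidableEq V] [Fintype E] [DecidableEq E]

/-- The even subgraph polytope: small weightings with the cut condition. -/
lemma even_hull (G : MGraph V E) (v : E × Bool → V)
    (hv : ∀ e, G.ends e = s(v (e, false), v (e, true))) (x : E → ℝ) (h0 : ∀ e, 0 ≤ x e)
    (h1 : ∀ e, x e ≤ 2 / 3) (hc : CutC v x) :
    ∃ μ : Finset E → ℝ, (∀ D, 0 ≤ μ D) ∧ (∀ D, ¬ G.IsEven D → μ D = 0) ∧ ∑ D, μ D = 1 ∧
      ∀ e, x e = ∑ D : Finset E, μ D * (if e ∈ D then 1 else 0) := by
  classical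
  set P : Set (E → ℝ) := {y | ∃ D : Finset E, G.IsEven D ∧ y = fun e => if e ∈ D then 1 else 0}
    with hP
  have hfin : P.Finite := by
    have : P ⊆ Set.range (fun D : Finset E => fun e => if e ∈ D then (1 : ℝ) else 0) := by
      rintro y ⟨D, _, rfl⟩
      exact ⟨D, rfl⟩
    exact (Set.finite_range _).subset this
  have hsub : convexHull ℝ P ⊆ {y | ∃ μ : Finset E → ℝ, (∀ D, 0 ≤ μ D) ∧
      (∀ D, ¬ G.IsEven D → μ D = 0) ∧ ∑ D, μ D = 1 ∧
      ∀ e, y e = ∑ D : Finset E, μ D * (if e ∈ D then 1 else 0)} := by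
    apply convexHull_min
    · rintro y ⟨D, hD, rfl⟩
      refine ⟨fun C => if C = D then 1 else 0, ?_, ?_, ?_, ?_⟩
      · intro C
        dsimp only
        split_ifs <;> norm_num
      · intro C hC
        dsimp only
        rw [if_neg]
        rintro rfl
        exact hC hD
      · simp
      · intro e
        dsimp only
        rw [Finset.sum_eq_single D (fun C _ hC => by rw [if_neg hC, zero_mul])
          (fun h => absurd (Finset.mem_univ _) h), if_pos rfl, one_mul]
    · rintro a ⟨μ, m0, m1, m2, m3⟩ b ⟨ν, n0, n1, n2, n3⟩ s t hs ht hst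
      refine ⟨fun C => s * μ C + t * ν C, ?_, ?_, ?_, ?_⟩
      · intro C
        exact add_nonneg (mul_nonneg hs (m0 C)) (mul_nonneg ht (n0 C))
      · intro C hC
        dsimp only
        rw [m1 C hC, n1 C hC]; ring
      · rw [Finset.sum_add_distrib, ← Finset.mul_sum, ← Finset.mul_sum, m2, n2]
        linarith
      · intro e
        rw [Pi.add_apply, Pi.smul_apply, Pi.smul_apply, m3 e, n3 e, smul_eq_mul, smul_eq_mul,
          Finset.mul_sum, Finset.mul_sum, ← Finset.sum_add_distrib]
        apply Finset.sum_congr rfl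
        intro C _
        ring
  by_contra hx
  have hx' : x ∉ convexHull ℝ P := fun h => hx (hsub h)
  obtain ⟨f, c, hf1, hf2⟩ := geometric_hahn_banach_point_closed (convex_convexHull ℝ P)
    (hfin.isClosed_convexHull (𝕜 := ℝ)) hx'
  have hrep : ∀ y : E → ℝ, f y = ∑ e, f (fun j => if e = j then 1 else 0) * y e := by
    intro y
    have := LinearMap.pi_apply_eq_sum_univ (f : (E → ℝ) →ₗ[ℝ] ℝ) y
    simp only [smul_eq_mul] at this
    rw [show f y = (f : (E → ℝ) →ₗ[ℝ] ℝ) y from rfl, this]
    apply Finset.sum_congr rfl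
    intro e _
    rw [mul_comm]
    rfl
  obtain ⟨D, hD1, hD2⟩ := even_round v x h0 h1 hc (fun e => f (fun j => if e = j then 1 else 0))
  have hD3 : G.IsEven D := (G.isEven_iff v hv D).2 hD1
  have h2 := hf2 _ (subset_convexHull ℝ P ⟨D, hD3, rfl⟩)
  rw [hrep] at h2 hf1
  have h3 : ∑ e, f (fun j => if e = j then 1 else 0) * (if e ∈ D then (1 : ℝ) else 0) =
      ∑ e ∈ D, f (fun j => if e = j then 1 else 0) := by
    simp only [mul_ite, mul_one, mul_zero]
    rw [Finset.sum_ite_mem, Finset.univ_inter]
  rw [h3] at h2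
  linarith

/-- In a bridgeless graph the constant `2/3` is a convex combination of even edge sets. -/
lemma two_thirds (G : MGraph V E) (hbr : G.Bridgeless) :
    ∃ μ : Finset E → ℝ, (∀ D, 0 ≤ μ D) ∧ (∀ D, ¬ G.IsEven D → μ D = 0) ∧ ∑ D, μ D = 1 ∧
      ∀ e, (2 / 3 : ℝ) = ∑ D : Finset E, μ D * (if e ∈ D then 1 else 0) := by
  obtain ⟨v, hv⟩ := G.exists_halves
  apply even_hull G v hv (fun _ => 2 / 3) (fun _ => by norm_num) (fun _ => le_rfl)
  intro S e he
  obtain ⟨C, hC, heC⟩ := hbr e
  obtain ⟨f, hfC, hfe, hf⟩ := circuit_cut G v hv C hC S e heC he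
  refine le_trans (le_of_eq ?_) (Finset.single_le_sum (f := fun f : E =>
    if f ≠ e ∧ Lv v S f then (2 / 3 : ℝ) else 0) ?_ (Finset.mem_univ f))
  · simp only [hfe, hf, ne_eq, not_false_eq_true, and_self, if_true]
  · intro g _
    split_ifs <;> norm_num

theorem asymp (G : MGraph V E) (hbr : G.Bridgeless) (m : ℕ) (hm : Even m) (k : ℕ)
    (hk : 3 / 2 * (m : ℝ) + 140 * Real.sqrt (m * Real.log (2 * (Fintype.card E + 1))) ≤ k) :
    EvC G (fun _ => m) k := by
  classical
  by_cases hE : IsEmpty E
  · exact (EvC.mono ⟨0, by simp, by simp, fun e => (hE.false e).elim⟩ (Nat.zero_le k))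
  rw [not_isEmpty_iff] at hE
  obtain ⟨e0⟩ := hE
  rcases Nat.eq_zero_or_pos m with hm0 | hm0
  · subst hm0
    exact EvC.mono (evC_zero G _ (fun _ => rfl)) (Nat.zero_le k)
  obtain ⟨v, hv⟩ := G.exists_halves
  have hcard : 1 ≤ Fintype.card E := Fintype.card_pos_iff.2 ⟨e0⟩
  set N : ℝ := (Fintype.card E : ℝ) with hN
  have hc1 : (1 : ℝ) ≤ N := by rw [hN]; exact_mod_cast hcard
  set ℓ := Real.log (2 * (N + 1)) with hℓ
  have hℓ1 : 1.38 ≤ ℓ := by
    have h1 : Real.log (2 * 2) ≤ ℓ := by
      apply Real.log_le_log (by norm_num)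
      linarith
    rw [Real.log_mul (by norm_num) (by norm_num)] at h1
    have := Real.log_two_gt_d9
    linarith
  have hm2 : (2 : ℝ) ≤ m := by
    have : 2 ≤ m := by
      obtain ⟨j, hj⟩ := hm
      omega
    exact_mod_cast this
  set Sg := Real.sqrt (m * ℓ) with hSg
  have hSg0 : 0 ≤ Sg := Real.sqrt_nonneg _
  have hSg2 : Sg ^ 2 = m * ℓ := Real.sq_sqrt (by positivity)
  have hSg1 : 1.66 ≤ Sg := by
    apply Real.le_sqrt_of_sq_le
    nlinarith
  set Δ := 2 * Real.sqrt (3 / 2 * (m : ℝ) * ℓ) with hΔ
  have hΔ0 : 0 ≤ Δ := by positivity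
  have hΔ2 : Δ ^ 2 = 6 * (m * ℓ) := by
    rw [hΔ, mul_pow, Real.sq_sqrt (by positivity)]
    ring
  have hΔS : Δ ≤ 2.45 * Sg := by
    apply le_of_sq_le_sq _ (by positivity)
    rw [hΔ2, mul_pow, hSg2]
    have : 0 ≤ (m : ℝ) * ℓ := by positivity
    nlinarith
  set L := 17 * Δ + 9 with hL
  -- the constant two
  have h0 : EvC G (fun e => 2) 8 := by
    have h1 := evC_minus G v hv ∅ (by
      intro B
      rw [Finset.sdiff_empty]
      exact G.no_one_cut hbr v hv B)
    simpa using h1
  rcases lt_or_ge (m : ℝ) L with hlt | hge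
  · obtain ⟨j, hj⟩ := hm
    have h1 := h0.mul j
    have h2 : EvC G (fun _ => m) (j * 8) := by
      convert h1 using 2
      rename_i e
      omega
    apply h2.mono
    have h3 : ((j * 8 : ℕ) : ℝ) ≤ k := by
      have : (m : ℝ) = j + j := by exact_mod_cast hj
      push_cast
      have h4 : (j : ℝ) * 8 = 3 / 2 * m + 5 / 2 * m := by rw [this]; ring
      rw [h4]
      rw [hL] at hlt
      linarith
    exact_mod_cast h3
  · obtain ⟨μ, m0, m1, m2, m3⟩ := two_thirds G hbr
    have hmL : 0 ≤ (m : ℝ) - L := by linarith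
    have hmℓ : ℓ ≤ 3 / 2 * (m : ℝ) := by
      have h1 : 17 * Δ ≤ m := by linarith
      have h2 : (17 * Δ) ^ 2 ≤ (m : ℝ) ^ 2 := pow_le_pow_left₀ (by positivity) h1 2
      rw [mul_pow, hΔ2] at h2
      have h3 : (m : ℝ) * (1734 * ℓ) ≤ m * m := by nlinarith
      have h4 := le_of_mul_le_mul_left h3 (by linarith)
      linarith
    set y : Finset E → ℝ := fun D => 3 / 2 * ((m : ℝ) - L) * μ D with hy
    have hy0 : ∀ D, 0 ≤ y D := fun D => mul_nonneg (mul_nonneg (by norm_num) hmL) (m0 D)
    set s : Finset (Finset E) := univ.filter fun D => G.IsEven D with hs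
    have hys : ∀ D ∉ s, y D = 0 := by
      intro D hD
      have : ¬ G.IsEven D := fun h => hD (Finset.mem_filter.2 ⟨Finset.mem_univ _, h⟩)
      simp only [hy]
      rw [m1 D this, mul_zero]
    have hytot : ∑ D ∈ s, y D = 3 / 2 * ((m : ℝ) - L) := by
      rw [Finset.sum_subset (Finset.subset_univ s) (fun D _ hD => hys D hD)]
      simp only [hy]
      rw [← Finset.mul_sum, m2, mul_one]
    have hye : ∀ e, ∑ D ∈ s, (if e ∈ D then y D else 0) = (m : ℝ) - L := by
      intro e
      rw [Finset.sum_subset (Finset.subset_univ s) (fun D _ hD => by rw [hys D hD]; simp)]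
      have h1 : ∀ D ∈ (univ : Finset (Finset E)), (if e ∈ D then y D else 0) =
          3 / 2 * ((m : ℝ) - L) * (μ D * (if e ∈ D then 1 else 0)) := by
        intro D _
        simp only [hy]
        split_ifs <;> ring
      rw [Finset.sum_congr rfl h1, ← Finset.mul_sum, ← m3 e]
      ring
    set θ : Finset E → ℝ := fun D => Int.fract (y D) with hθ
    have hθle : ∀ D, θ D ≤ y D := by
      intro D
      have h2 : (0 : ℤ) ≤ ⌊y D⌋ := Int.floor_nonneg.2 (hy0 D)
      have h3 : (0 : ℝ) ≤ (⌊y D⌋ : ℝ) := by exact_mod_cast h2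
      have h4 := Int.floor_add_fract (y D)
      simp only [hθ]
      linarith
    have hcardO : (Fintype.card (Option E) : ℝ) = N + 1 := by
      rw [Fintype.card_option, hN]; push_cast; ring
    obtain ⟨ε, hε1, hε2⟩ := exists_rounding (κ := Option E)
      (fun o D => ∀ e, o = some e → e ∈ D) θ
      (fun D => Int.fract_nonneg _) (fun D => (Int.fract_lt_one _).le) s (3 / 2 * (m : ℝ))
      (by
        intro o
        calc ∑ D ∈ s, (if ∀ e, o = some e → e ∈ D then θ D else 0) ≤ ∑ D ∈ s, y D := by
              apply Finset.sum_le_sum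
              intro D _
              split_ifs
              · exact hθle D
              · exact hy0 D
          _ = 3 / 2 * ((m : ℝ) - L) := hytot
          _ ≤ 3 / 2 * (m : ℝ) := by
              have : 0 ≤ L := by positivity
              linarith)
      (by rw [Fintype.card_option]; omega)
      (by rw [hcardO]; exact hmℓ)
    rw [hcardO, ← hℓ, ← hΔ] at hε2
    set n : Finset E → ℕ := fun D => ⌊y D⌋₊ + ε D with hn
    have hnreal : ∀ D, (n D : ℝ) = y D + ((ε D : ℝ) - θ D) := by
      intro D
      simp only [hn, hθ]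
      push_cast
      have h3 : ((⌊y D⌋₊ : ℕ) : ℝ) = (⌊y D⌋ : ℝ) := natCast_floor_eq_intCast_floor (hy0 D)
      rw [h3]
      have h4 := Int.floor_add_fract (y D)
      linarith
    have hcomb := evC_comb G s (fun D hD => (Finset.mem_filter.1 hD).2) n
    set S : E → ℕ := fun e => ∑ D ∈ s, n D * (if e ∈ D then 1 else 0) with hSdef
    have hSb : ∀ e, |(S e : ℝ) - ((m : ℝ) - L)| ≤ Δ := by
      intro e
      have h1 := hε2 (some e)
      have h2 : (S e : ℝ) - ((m : ℝ) - L) =
          dev (fun (o : Option E) D => ∀ e, o = some e → e ∈ D) θ ε s (some e) := by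
        rw [← hye e]
        simp only [hSdef, dev]
        push_cast
        rw [← Finset.sum_sub_distrib]
        apply Finset.sum_congr rfl
        intro D _
        by_cases he : e ∈ D
        · have h3 : ∀ e', some e = some e' → e' ∈ D := by
            intro e' h; rw [Option.some.injEq] at h; rw [← h]; exact he
          rw [if_pos he, if_pos he, if_pos h3, hnreal D]
          ring
        · have h3 : ¬ ∀ e', some e = some e' → e' ∈ D := fun h => he (h e rfl)
          rw [if_neg he, if_neg he, if_neg h3]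
          ring
      rw [h2]
      exact h1
    have hntot : ((∑ D ∈ s, n D : ℕ) : ℝ) ≤ 3 / 2 * ((m : ℝ) - L) + Δ := by
      have h1 := (le_abs_self _).trans (hε2 none)
      have h2 : ((∑ D ∈ s, n D : ℕ) : ℝ) = 3 / 2 * ((m : ℝ) - L) +
          dev (fun (o : Option E) D => ∀ e, o = some e → e ∈ D) θ ε s none := by
        rw [← hytot]
        simp only [dev]
        push_cast
        rw [← Finset.sum_add_distrib]
        apply Finset.sum_congr rfl
        intro D _
        rw [if_pos (by intro e h; exact absurd h (by simp)), hnreal D]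
      rw [h2]
      linarith
    set W : Finset E := univ.filter fun e => Odd (S e) with hW
    have hWeven : G.IsEven W := hcomb.parity
    have hSle : ∀ e, S e + (if e ∈ W then 1 else 0) ≤ m := by
      intro e
      have h1 := abs_le.1 (hSb e)
      have h2 : ((S e + (if e ∈ W then 1 else 0) : ℕ) : ℝ) ≤ m := by
        push_cast
        have h5 : ((if e ∈ W then (1 : ℝ) else 0)) ≤ 1 := by split_ifs <;> norm_num
        rw [hL] at h1
        linarith [h1.2]
      exact_mod_cast h2
    have hq : ∀ e, ∃ q, m - (S e + (if e ∈ W then 1 else 0)) = 2 * q := by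
      intro e
      have h1 : Even (S e + (if e ∈ W then 1 else 0)) := by
        by_cases h : e ∈ W
        · rw [if_pos h]
          have h2 : Odd (S e) := (Finset.mem_filter.1 h).2
          exact Odd.add_odd h2 odd_one
        · rw [if_neg h]
          have h2 : ¬ Odd (S e) := fun h' => h (Finset.mem_filter.2 ⟨Finset.mem_univ _, h'⟩)
          rw [Nat.not_odd_iff_even] at h2
          simpa using h2
      obtain ⟨q, hq⟩ := (Nat.even_sub (hSle e)).2 ⟨fun _ => h1, fun _ => hm⟩
      exact ⟨q, by omega⟩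
    choose q hq using hq
    have hqreal : ∀ e, 2 * (q e : ℝ) = m - (S e : ℝ) - (if e ∈ W then 1 else 0) := by
      intro e
      have h1 : 2 * q e + (S e + (if e ∈ W then 1 else 0)) = m := by
        have := hSle e
        have := hq e
        omega
      have h2 : (2 * (q e : ℝ)) + ((S e : ℝ) + (if e ∈ W then 1 else 0)) = m := by
        exact_mod_cast h1
      linarith
    have hqhi : ∀ e, 2 * (q e : ℝ) ≤ L + Δ := by
      intro e
      rw [hqreal e]
      have h1 := abs_le.1 (hSb e)
      have h5 : 0 ≤ ((if e ∈ W then (1 : ℝ) else 0)) := by split_ifs <;> norm_num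
      linarith [h1.1]
    have hqlo : ∀ e, L - Δ - 1 ≤ 2 * (q e : ℝ) := by
      intro e
      rw [hqreal e]
      have h1 := abs_le.1 (hSb e)
      have h5 : ((if e ∈ W then (1 : ℝ) else 0)) ≤ 1 := by split_ifs <;> norm_num
      linarith [h1.2]
    have hMle : ((⌊(L + Δ) / 2⌋₊ : ℕ) : ℝ) ≤ (L + Δ) / 2 :=
      Nat.floor_le (by positivity)
    have hnear : EvC G (fun e => 2 * q e) (8 * ⌊(L + Δ) / 2⌋₊) := by
      apply evC_near G q _ _ _ hbr v hv _
      · intro e
        apply Nat.le_floor
        have := hqhi e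
        linarith
      · intro e
        have h1 := hqlo e
        have h2 : (8 : ℝ) * (⌊(L + Δ) / 2⌋₊ : ℕ) ≤ 9 * q e := by
          rw [hL] at h1 hMle
          linarith
        exact_mod_cast h2
      · intro e f hef
        have h1 : S e = S f := hcomb.tc v hv hef
        have h2 := hq e
        have h3 := hq f
        have h4 : (e ∈ W) = (f ∈ W) := by
          simp only [hW, Finset.mem_filter, Finset.mem_univ, true_and, h1]
        simp only [h1, h4] at h2
        rw [h2] at h3
        omega
    have htot := (hcomb.add (evC_one W hWeven)).add hnear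
    have hfun : (fun e => ∑ D ∈ s, n D * (if e ∈ D then 1 else 0) + (if e ∈ W then 1 else 0) +
        2 * q e) = fun _ : E => m := by
      ext e
      have h1 := hSle e
      have h2 := hq e
      simp only [hSdef] at h1 h2
      omega
    rw [hfun] at htot
    apply htot.mono
    have hfin : ((∑ D ∈ s, n D + 1 + 8 * ⌊(L + Δ) / 2⌋₊ : ℕ) : ℝ) ≤ k := by
      push_cast
      push_cast at hntot
      rw [hL] at hntot hMle
      rw [hL]
      linarith
    exact_mod_cast hfin

end Pool.Agent.W831.ECC
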