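import Pool.Agent.W831.ECC.Step

set_option autoImplicit false
set_option linter.unusedSectionVars false
set_option linter.unusedVariables false

/-!
Iterated halving: the surplus over a constant is consumed in batches; the rounding errors of the
heavy edges are corrected in the next batch, those of the light edges are controlled by one
exponential potential.
-/

namespace Pool.Agent.W831.ECC

open Finset
open Pool.Agent.H126R2.CDC (MGraph IsFl isFl_iff)
open Pool.Agent.H126R2.NC (InLat InIntCone InCone TC circuit_tc)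

variable {V E : Type} [Fintype V] [DecidableEq V] [Fintype E] [DecidableEq E]

/-- the potential of an edge with surplus `q` and deviation `z` -/
noncomputable def Fp (t κ A T q z : ℝ) : ℝ :=
  if q ≤ A then (Real.exp (t * z) + Real.exp (-(t * z))) * Real.exp (2 * t ^ 2 * q)
  else (2 * T * Real.exp (-(κ * A)) + 2 * Real.exp (5 * t ^ 2 * A)) - 2 * T * Real.exp (-(κ * q))

lemma Fp_nonneg (t κ A T q z : ℝ) (hκ : 0 ≤ κ) (hT : 0 ≤ T) : 0 ≤ Fp t κ A T q z := by
  unfold Fp
  split_ifs with h
  · positivity
  · push Not at h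
    have h1 : Real.exp (-(κ * q)) ≤ Real.exp (-(κ * A)) := by
      apply Real.exp_le_exp.2
      have := mul_le_mul_of_nonneg_left h.le hκ
      linarith
    have h2 : 2 * T * Real.exp (-(κ * q)) ≤ 2 * T * Real.exp (-(κ * A)) :=
      mul_le_mul_of_nonneg_left h1 (by linarith)
    have h3 : 0 < Real.exp (5 * t ^ 2 * A) := Real.exp_pos _
    linarith

/-- coefficient of `exp (t d)` -/
noncomputable def ca (t δ A T q z : ℝ) : ℝ :=
  if q ≤ A then Real.exp (-(t * z)) * Real.exp (t ^ 2 * q)
  else if q ≤ 2 * A then Real.exp (t ^ 2 * q) else T * Real.exp (-(t * δ * q / 2))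

/-- coefficient of `exp (-t d)` -/
noncomputable def cb (t δ A T q z : ℝ) : ℝ :=
  if q ≤ A then Real.exp (t * z) * Real.exp (t ^ 2 * q)
  else if q ≤ 2 * A then Real.exp (t ^ 2 * q) else T * Real.exp (-(t * δ * q / 2))

/-- the consumption -/
noncomputable def hh (A q z : ℝ) : ℝ := if q ≤ A then q / 2 else q / 2 + z

/-- the remaining potential of the heavy edges -/
noncomputable def kk (t κ A T q : ℝ) : ℝ :=
  if q ≤ 2 * A then 0 else Fp t κ A T (q / 2) 0

lemma Fp_heavy (t κ A T q z z' : ℝ) (hq : A < q) : Fp t κ A T q z = Fp t κ A T q z' := by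
  unfold Fp
  rw [if_neg (not_le.2 hq), if_neg (not_le.2 hq)]

lemma pot_step (t δ κ A T q z : ℝ) (hδ0 : 0 < δ) (hδ : δ ≤ 1 / 4) (ht : t = δ / 8)
    (hκ : κ = δ ^ 2 / 32) (hA : 0 < A) (hT : 0 ≤ T) (h2 : 2 ≤ Real.exp (κ * A)) (hq : 0 ≤ q)
    (hz : A < q → |z| ≤ δ * q) :
    (ca t δ A T q z + cb t δ A T q z) * Real.exp (2 * t ^ 2 * hh A q z) + kk t κ A T q ≤
      Fp t κ A T q z := by
  have hκ0 : 0 < κ := by rw [hκ]; positivity
  by_cases h1 : q ≤ A
  · have h1' : q ≤ 2 * A := by linarith
    unfold ca cb hh kk Fp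
    rw [if_pos h1, if_pos h1, if_pos h1, if_pos h1', if_pos h1, add_zero]
    apply le_of_eq
    rw [← add_mul, mul_assoc, ← Real.exp_add]
    rw [show t ^ 2 * q + 2 * t ^ 2 * (q / 2) = 2 * t ^ 2 * q by ring]
    ring
  · push Not at h1
    have hz' := hz h1
    have hz1 : z ≤ δ * q := (le_abs_self z).trans hz'
    have hhq : 2 * t ^ 2 * (q / 2 + z) ≤ (1 + 2 * δ) * t ^ 2 * q := by
      have : 2 * t ^ 2 * z ≤ 2 * t ^ 2 * (δ * q) := mul_le_mul_of_nonneg_left hz1 (by positivity)
      nlinarith
    by_cases h3 : q ≤ 2 * A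
    · unfold ca cb hh kk Fp
      rw [if_neg (not_le.2 h1), if_neg (not_le.2 h1), if_neg (not_le.2 h1), if_pos h3, if_pos h3,
        if_neg (not_le.2 h1), add_zero]
      have e1 : (Real.exp (t ^ 2 * q) + Real.exp (t ^ 2 * q)) * Real.exp (2 * t ^ 2 * (q / 2 + z)) ≤
          2 * Real.exp (5 * t ^ 2 * A) := by
        rw [← two_mul, mul_assoc, ← Real.exp_add]
        apply mul_le_mul_of_nonneg_left _ (by norm_num)
        apply Real.exp_le_exp.2
        have ht2 : 0 ≤ t ^ 2 := sq_nonneg t
        have : (1 + 2 * δ) * t ^ 2 * q ≤ (3 / 2) * t ^ 2 * q := by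
          have h5 : 0 ≤ t ^ 2 * q := mul_nonneg ht2 hq
          nlinarith
        have h6 : t ^ 2 * q ≤ t ^ 2 * (2 * A) := mul_le_mul_of_nonneg_left h3 ht2
        nlinarith
      have e2 : Real.exp (-(κ * q)) ≤ Real.exp (-(κ * A)) := by
        apply Real.exp_le_exp.2
        have := mul_le_mul_of_nonneg_left h1.le hκ0.le
        linarith
      have e3 : 2 * T * Real.exp (-(κ * q)) ≤ 2 * T * Real.exp (-(κ * A)) :=
        mul_le_mul_of_nonneg_left e2 (by linarith)
      linarith
    · push Not at h3
      have h4 : A < q / 2 := by linarith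
      unfold ca cb hh kk Fp
      rw [if_neg (not_le.2 h1), if_neg (not_le.2 h1), if_neg (not_le.2 h1), if_neg (not_le.2 h3),
        if_neg (not_le.2 h3), if_neg (not_le.2 h1), if_neg (not_le.2 h4)]
      have e1 : (T * Real.exp (-(t * δ * q / 2)) + T * Real.exp (-(t * δ * q / 2))) *
          Real.exp (2 * t ^ 2 * (q / 2 + z)) ≤ 2 * T * Real.exp (-(κ * q)) := by
        rw [← two_mul, mul_assoc, mul_assoc, ← Real.exp_add, ← mul_assoc]
        apply mul_le_mul_of_nonneg_left _ (by linarith)
        apply Real.exp_le_exp.2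
        have h5 : -(t * δ * q / 2) + (1 + 2 * δ) * t ^ 2 * q ≤ -(κ * q) := by
          rw [ht, hκ]
          have h6 : 0 ≤ δ ^ 2 * q := mul_nonneg (sq_nonneg _) hq
          have h7 : δ * (δ ^ 2 * q) ≤ 1 / 4 * (δ ^ 2 * q) := mul_le_mul_of_nonneg_right hδ h6
          nlinarith
        linarith
      have e2 : 2 * Real.exp (-(κ * q)) ≤ Real.exp (-(κ * (q / 2))) := by
        have e3 : Real.exp (-(κ * (q / 2))) = Real.exp (κ * (q / 2)) * Real.exp (-(κ * q)) := by
          rw [← Real.exp_add]; ring_nf
        rw [e3]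
        apply mul_le_mul_of_nonneg_right _ (Real.exp_nonneg _)
        refine h2.trans (Real.exp_le_exp.2 ?_)
        exact mul_le_mul_of_nonneg_left h4.le hκ0.le
      have e4 := mul_le_mul_of_nonneg_left e2 hT
      nlinarith

/-- the value of the new potential in terms of the coefficients -/
lemma pot_new (t δ κ A T q z d : ℝ) (hT : 0 ≤ T) (hκ : 0 ≤ κ) :
    Fp t κ A T (q / 2) (q + z - hh A q z - d - q / 2) ≤
      ca t δ A T q z * Real.exp (t * d) + cb t δ A T q z * Real.exp (-t * d) + kk t κ A T q := by
  by_cases h3 : q ≤ 2 * A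
  · have h4 : q / 2 ≤ A := by linarith
    by_cases h1 : q ≤ A
    · unfold ca cb hh kk Fp
      rw [if_pos h1, if_pos h1, if_pos h1, if_pos h3, if_pos h4, add_zero]
      apply le_of_eq
      rw [show t * (q + z - q / 2 - d - q / 2) = t * z + -t * d by ring,
        show -(t * z + -t * d) = -(t * z) + t * d by ring,
        show 2 * t ^ 2 * (q / 2) = t ^ 2 * q by ring, Real.exp_add, Real.exp_add]
      ring
    · unfold ca cb hh kk Fp
      rw [if_neg h1, if_neg h1, if_neg h1, if_pos h3, if_pos h3, if_pos h4, add_zero]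
      apply le_of_eq
      rw [show t * (q + z - (q / 2 + z) - d - q / 2) = -t * d by ring,
        show -(-t * d) = t * d by ring,
        show 2 * t ^ 2 * (q / 2) = t ^ 2 * q by ring]
      ring
  · have h4 : A < q / 2 := by push Not at h3; linarith
    have h5 : kk t κ A T q = Fp t κ A T (q / 2) (q + z - hh A q z - d - q / 2) := by
      unfold kk
      rw [if_neg h3]
      exact Fp_heavy t κ A T (q / 2) _ _ h4
    rw [h5]
    have h6 : 0 ≤ ca t δ A T q z := by
      unfold ca; split_ifs <;> positivity
    have h7 : 0 ≤ cb t δ A T q z := by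
      unfold cb; split_ifs <;> positivity
    have h8 := mul_nonneg h6 (Real.exp_nonneg (t * d))
    have h9 := mul_nonneg h7 (Real.exp_nonneg (-t * d))
    linarith

lemma abs_le_of_exp (t x T : ℝ) (ht : 0 < t) (hT : 0 < T)
    (h : Real.exp (t * x) + Real.exp (-(t * x)) ≤ T) : |x| ≤ Real.log T / t := by
  rw [le_div_iff₀ ht, Real.le_log_iff_exp_le hT]
  have h1 := Real.exp_nonneg (t * x)
  have h2 := Real.exp_nonneg (-(t * x))
  rcases abs_cases x with ⟨h3, _⟩ | ⟨h3, _⟩
  · rw [h3, mul_comm]; linarith
  · rw [h3, show -x * t = -(t * x) by ring]; linarith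

/-- the value of the light potential controls the deviation -/
lemma abs_of_Fp (t κ A T q z : ℝ) (ht : 0 < t) (hT : 0 < T) (hq : 0 ≤ q) (hqA : q ≤ A)
    (h : Fp t κ A T q z ≤ T) : |z| ≤ Real.log T / t := by
  unfold Fp at h
  rw [if_pos hqA] at h
  apply abs_le_of_exp t z T ht hT
  refine le_trans ?_ h
  have h1 : 1 ≤ Real.exp (2 * t ^ 2 * q) := by
    rw [← Real.exp_zero]
    apply Real.exp_le_exp.2
    positivity
  have h2 : 0 ≤ Real.exp (t * z) + Real.exp (-(t * z)) := by positivity
  nlinarith

/-- constancy on the classes of two-edge cuts -/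
def TCc {α : Type} (v : E × Bool → V) (x : E → α) : Prop :=
  ∀ e f, TC (fun e => v (e, false)) (fun e => v (e, true)) e f → x e = x f

/-- every small relative perturbation of `q` lies in the cone -/
def Slk (G : MGraph V E) (v : E × Bool → V) (δ : ℝ) (q : E → ℝ) : Prop :=
  ∀ h : E → ℝ, TCc v h → (∀ e, (1 - 2 * δ) * q e ≤ h e ∧ h e ≤ (1 + 2 * δ) * q e) → RCone G h

lemma Slk.half {G : MGraph V E} {v : E × Bool → V} {δ : ℝ} {q : E → ℝ} (h : Slk G v δ q) :
    Slk G v δ (fun e => q e / 2) := by
  intro g hg hb
  have h1 : RCone G (fun e => 2 * g e) := by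
    apply h
    · intro e f hef
      show 2 * g e = 2 * g f
      rw [hg e f hef]
    · intro e
      have := hb e
      constructor <;> linarith [this.1, this.2]
  have h2 := RCone.smul h1 (t := 1 / 2) (by norm_num)
  convert h2 using 1
  ext e
  simp

theorem batch (G : MGraph V E) (hbr : G.Bridgeless) (v : E × Bool → V)
    (hv : ∀ e, G.ends e = s(v (e, false), v (e, true)))
    (t δ κ A T c : ℝ) (hδ0 : 0 < δ) (hδ : δ ≤ 1 / 4) (ht : t = δ / 8)
    (hκ : κ = δ ^ 2 / 32) (hA : 1 ≤ A) (hT : 1 ≤ T) (h2 : 2 ≤ Real.exp (κ * A))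
    (hc : 17 * (Real.log T / t) + 8 ≤ c) :
    ∀ (n : ℕ) (r : E → ℕ) (q : E → ℝ), (∀ e, 0 ≤ q e) → (∀ e, q e ≤ 2 ^ n) → TCc v q →
      Slk G v δ q → (∀ e, Even (r e)) → TCc v r →
      (∀ e, A < q e → |(r e : ℝ) - c - q e| ≤ δ * q e) →
      ∑ e, Fp t κ A T (q e) ((r e : ℝ) - c - q e) ≤ T → InIntCone G r := by
  have ht0 : 0 < t := by rw [ht]; positivity
  have hκ0 : 0 < κ := by rw [hκ]; positivity
  have hT0 : 0 < T := by linarith
  have hlog : 0 ≤ Real.log T / t := div_nonneg (Real.log_nonneg hT) ht0.le
  intro n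
  induction n with
  | zero =>
    intro r q hq0 hq1 hqtc hslk hev hrtc hheavy hpot
    refine cover_tc G r hev ?_ hbr v hv (fun e f hef => hrtc e f hef)
    have hb : ∀ e, |(r e : ℝ) - c - q e| ≤ Real.log T / t := by
      intro e
      have h1 : q e ≤ A := by have := hq1 e; rw [pow_zero] at this; linarith
      apply abs_of_Fp t κ A T (q e) _ ht0 hT0 (hq0 e) h1
      exact (Finset.single_le_sum (f := fun e => Fp t κ A T (q e) ((r e : ℝ) - c - q e))
        (fun e _ => Fp_nonneg t κ A T _ _ hκ0.le hT0.le) (Finset.mem_univ e)).trans hpot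
    intro e f
    have h1 := abs_le.1 (hb e)
    have h3 := abs_le.1 (hb f)
    have h4 := hq1 e
    have h5 := hq0 f
    rw [pow_zero] at h4
    have h6 : (8 : ℝ) * r e ≤ 9 * r f := by linarith [h1.1, h1.2, h3.1, h3.2]
    exact_mod_cast h6
  | succ n ih =>
    intro r q hq0 hq1 hqtc hslk hev hrtc hheavy hpot
    set z : E → ℝ := fun e => (r e : ℝ) - c - q e with hz
    have hztc : TCc v z := by
      intro e f hef
      simp only [hz]
      rw [hrtc e f hef, hqtc e f hef]
    set h : E → ℝ := fun e => hh A (q e) (z e) with hh'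
    have hR : RCone G h := by
      have h1 : RCone G (fun e => 2 * h e) := by
        apply hslk
        · intro e f hef
          simp only [hh']
          rw [hqtc e f hef, hztc e f hef]
        · intro e
          have hq := hq0 e
          simp only [hh', hh]
          split_ifs with h3
          · constructor <;> nlinarith
          · push Not at h3
            have h4 := abs_le.1 (hheavy e h3)
            change -(δ * q e) ≤ z e ∧ z e ≤ δ * q e at h4
            constructor <;> linarith [h4.1, h4.2]
      have h3 := RCone.smul h1 (t := 1 / 2) (by norm_num)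
      convert h3 using 1
      ext e
      simp
    obtain ⟨S, d, hS1, hS2, hS3, hS4, hS5⟩ := step G v hv h hR t
      (by rw [ht, abs_of_pos (by positivity)]; linarith)
      (fun e => ca t δ A T (q e) (z e)) (fun e => cb t δ A T (q e) (z e))
      (fun e => by unfold ca; split_ifs <;> positivity)
      (fun e => by unfold cb; split_ifs <;> positivity)
    -- total potential
    have htot : ∑ e, (ca t δ A T (q e) (z e) * Real.exp (t * d e) +
        cb t δ A T (q e) (z e) * Real.exp (-t * d e) + kk t κ A T (q e)) ≤ T := by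
      rw [Finset.sum_add_distrib]
      refine le_trans (add_le_add_left hS5 _) ?_
      rw [← Finset.sum_add_distrib]
      refine le_trans (Finset.sum_le_sum fun e _ => ?_) hpot
      exact pot_step t δ κ A T (q e) (z e) hδ0 hδ ht hκ (by linarith) hT0.le h2 (hq0 e)
        (hheavy e)
    have hkk : ∀ e, 0 ≤ kk t κ A T (q e) := by
      intro e
      unfold kk
      split_ifs
      · exact le_rfl
      · exact Fp_nonneg t κ A T _ _ hκ0.le hT0.le
    have hca : ∀ e, 0 ≤ ca t δ A T (q e) (z e) * Real.exp (t * d e) := by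
      intro e
      unfold ca; split_ifs <;> positivity
    have hcb : ∀ e, 0 ≤ cb t δ A T (q e) (z e) * Real.exp (-t * d e) := by
      intro e
      unfold cb; split_ifs <;> positivity
    have hterm : ∀ e, ca t δ A T (q e) (z e) * Real.exp (t * d e) +
        cb t δ A T (q e) (z e) * Real.exp (-t * d e) + kk t κ A T (q e) ≤ T := by
      intro e
      refine le_trans (Finset.single_le_sum (f := fun e => ca t δ A T (q e) (z e) *
        Real.exp (t * d e) + cb t δ A T (q e) (z e) * Real.exp (-t * d e) + kk t κ A T (q e))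
        (fun e _ => ?_) (Finset.mem_univ e)) htot
      exact add_nonneg (add_nonneg (hca e) (hcb e)) (hkk e)
    -- the new deviation
    have hz' : ∀ e, (r e : ℝ) - S e - c - q e / 2 = q e + z e - h e - d e - q e / 2 := by
      intro e
      rw [hS4 e]
      simp only [hz]
      ring
    have hnewpot : ∀ e, Fp t κ A T (q e / 2) ((r e : ℝ) - S e - c - q e / 2) ≤
        ca t δ A T (q e) (z e) * Real.exp (t * d e) +
        cb t δ A T (q e) (z e) * Real.exp (-t * d e) + kk t κ A T (q e) := by
      intro e
      rw [hz' e]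
      exact pot_new t δ κ A T (q e) (z e) (d e) hT0.le hκ0.le
    have hlight : ∀ e, q e ≤ 2 * A → |(r e : ℝ) - S e - c - q e / 2| ≤ Real.log T / t := by
      intro e he
      apply abs_of_Fp t κ A T (q e / 2) _ ht0 hT0 (by linarith [hq0 e]) (by linarith)
      exact (hnewpot e).trans (hterm e)
    have hheavy' : ∀ e, A < q e / 2 → |(r e : ℝ) - S e - c - q e / 2| ≤ δ * (q e / 2) := by
      intro e he
      have h3 : ¬ q e ≤ A := by push Not; linarith
      have h4 : ¬ q e ≤ 2 * A := by push Not; linarith
      have h5 := hterm e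
      have h6 := hkk e
      have e1 : (r e : ℝ) - S e - c - q e / 2 = -d e := by
        rw [hz' e]
        simp only [hh', hh, if_neg h3]
        ring
      rw [e1, abs_neg]
      unfold ca cb at h5
      simp only [if_neg h3, if_neg h4] at h5
      have h7 : T * (Real.exp (-(t * δ * q e / 2)) * (Real.exp (t * d e) + Real.exp (-t * d e))) ≤
          T * 1 := by
        have k0 : T * (Real.exp (-(t * δ * q e / 2)) *
            (Real.exp (t * d e) + Real.exp (-t * d e))) =
            T * Real.exp (-(t * δ * q e / 2)) * Real.exp (t * d e) +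
            T * Real.exp (-(t * δ * q e / 2)) * Real.exp (-t * d e) := by ring
        linarith
      have h8 := le_of_mul_le_mul_left h7 hT0
      have h9 : Real.exp (t * |d e|) ≤ Real.exp (t * δ * q e / 2) := by
        have h10 : Real.exp (t * |d e|) ≤ Real.exp (t * d e) + Real.exp (-t * d e) := by
          have k1 := Real.exp_nonneg (t * d e)
          have k2 := Real.exp_nonneg (-t * d e)
          rcases abs_cases (d e) with ⟨h, _⟩ | ⟨h, _⟩
          · rw [h]; linarith
          · rw [h, show t * -d e = -t * d e by ring]; linarith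
        have h11 : Real.exp (-(t * δ * q e / 2)) * Real.exp (t * |d e|) ≤ 1 :=
          (mul_le_mul_of_nonneg_left h10 (Real.exp_nonneg _)).trans h8
        calc Real.exp (t * |d e|) = Real.exp (t * δ * q e / 2) *
              (Real.exp (-(t * δ * q e / 2)) * Real.exp (t * |d e|)) := by
              rw [← mul_assoc, ← Real.exp_add, add_neg_cancel, Real.exp_zero, one_mul]
          _ ≤ Real.exp (t * δ * q e / 2) * 1 :=
              mul_le_mul_of_nonneg_left h11 (Real.exp_nonneg _)
          _ = _ := mul_one _
      have h12 := Real.exp_le_exp.1 h9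
      have h13 : t * |d e| ≤ t * (δ * (q e / 2)) := by linarith
      exact le_of_mul_le_mul_left h13 ht0
    have hSle : ∀ e, S e ≤ r e := by
      intro e
      have h3 : (S e : ℝ) ≤ r e := by
        rcases le_or_gt (q e) (2 * A) with h4 | h4
        · have h5 := (abs_le.1 (hlight e h4)).1
          have := hq0 e
          linarith
        · have h5 := (abs_le.1 (hheavy' e (by linarith))).1
          have h6 := hq0 e
          have h7 : δ * (q e / 2) ≤ 1 / 4 * (q e / 2) :=
            mul_le_mul_of_nonneg_right hδ (by linarith)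
          linarith
      exact_mod_cast h3
    have hres : InIntCone G (fun e => r e - S e) := by
      apply ih (fun e => r e - S e) (fun e => q e / 2)
      · intro e
        have := hq0 e
        show 0 ≤ q e / 2
        linarith
      · intro e
        have := hq1 e
        rw [pow_succ] at this
        show q e / 2 ≤ 2 ^ n
        linarith
      · intro e f hef
        show q e / 2 = q f / 2
        rw [hqtc e f hef]
      · exact hslk.half
      · intro e
        show Even (r e - S e)
        exact (Nat.even_sub (hSle e)).2 ⟨fun _ => hS2 e, fun _ => hev e⟩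
      · intro e f hef
        show r e - S e = r f - S f
        rw [hrtc e f hef, hS3 e f hef]
      · intro e he
        show |((r e - S e : ℕ) : ℝ) - c - q e / 2| ≤ δ * (q e / 2)
        rw [Nat.cast_sub (hSle e)]
        exact hheavy' e he
      · refine le_trans (Finset.sum_le_sum fun e _ => ?_) htot
        show Fp t κ A T (q e / 2) (((r e - S e : ℕ) : ℝ) - c - q e / 2) ≤ _
        rw [Nat.cast_sub (hSle e)]
        exact hnewpot e
    have hfin := intCone_add hres hS1
    convert hfin using 1
    ext e
    have := hSle e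
    omega

end Pool.Agent.W831.ECC
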