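import Mathlib

set_option autoImplicit false
set_option linter.unusedSectionVars false

/-!
Derandomised rounding of a nonnegative real combination of sets.
-/

namespace Pool.Agent.W831.ECC

open Finset

lemma mgf_bound (θ t : ℝ) (h0 : 0 ≤ θ) (ht : |t| ≤ 1) :
    θ * Real.exp (t * (1 - θ)) + (1 - θ) * Real.exp (t * (0 - θ)) ≤ Real.exp (t ^ 2 * θ) := by
  have h2 : Real.exp (t * (1 - θ)) = Real.exp (-(t * θ)) * Real.exp t := by
    rw [← Real.exp_add]; ring_nf
  have h3 : Real.exp (t * (0 - θ)) = Real.exp (-(t * θ)) := by ring_nf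
  rw [h2, h3]
  have h4 := Real.abs_exp_sub_one_sub_id_le ht
  have h5 : Real.exp t ≤ 1 + t + t ^ 2 := by
    have := le_abs_self (Real.exp t - 1 - t)
    linarith
  have h6 : θ * Real.exp t + (1 - θ) ≤ Real.exp (θ * (t + t ^ 2)) := by
    have h7 := Real.add_one_le_exp (θ * (t + t ^ 2))
    have h8 : θ * Real.exp t ≤ θ * (1 + t + t ^ 2) := mul_le_mul_of_nonneg_left h5 h0
    nlinarith
  calc θ * (Real.exp (-(t * θ)) * Real.exp t) + (1 - θ) * Real.exp (-(t * θ))
      = Real.exp (-(t * θ)) * (θ * Real.exp t + (1 - θ)) := by ring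
    _ ≤ Real.exp (-(t * θ)) * Real.exp (θ * (t + t ^ 2)) :=
        mul_le_mul_of_nonneg_left h6 (Real.exp_nonneg _)
    _ = Real.exp (t ^ 2 * θ) := by rw [← Real.exp_add]; ring_nf

variable {κ ι : Type} [Fintype κ] [DecidableEq ι]

/-- deviation at `e` of the rounding `ε` of `θ` -/
def dev (inc : κ → ι → Prop) [∀ e i, Decidable (inc e i)] (θ : ι → ℝ) (ε : ι → ℕ)
    (s : Finset ι) (e : κ) : ℝ :=
  ∑ i ∈ s, if inc e i then ((ε i : ℝ) - θ i) else 0

lemma dev_insert (inc : κ → ι → Prop) [∀ e i, Decidable (inc e i)] (θ : ι → ℝ) (ε : ι → ℕ)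
    (s : Finset ι) (i : ι) (hi : i ∉ s) (x : ℕ) (e : κ) :
    dev inc θ (Function.update ε i x) (insert i s) e =
      (if inc e i then ((x : ℝ) - θ i) else 0) + dev inc θ ε s e := by
  unfold dev
  rw [Finset.sum_insert hi]
  congr 1
  · simp
  · apply Finset.sum_congr rfl
    intro j hj
    have hji : j ≠ i := fun h => hi (h ▸ hj)
    rw [Function.update_of_ne hji]

lemma derand (inc : κ → ι → Prop) [∀ e i, Decidable (inc e i)] (θ : ι → ℝ) (h0 : ∀ i, 0 ≤ θ i)
    (h1 : ∀ i, θ i ≤ 1) (t : ℝ) (ht : |t| ≤ 1) (s : Finset ι) :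
    ∀ (a b : κ → ℝ), (∀ e, 0 ≤ a e) → (∀ e, 0 ≤ b e) →
    ∃ ε : ι → ℕ, (∀ i, ε i ≤ 1) ∧
      ∑ e, (a e * Real.exp (t * dev inc θ ε s e) + b e * Real.exp (-t * dev inc θ ε s e)) ≤
        ∑ e, (a e + b e) * Real.exp (t ^ 2 * ∑ i ∈ s, if inc e i then θ i else 0) := by
  induction s using Finset.induction_on with
  | empty =>
    intro a b _ _
    refine ⟨fun _ => 0, fun _ => Nat.zero_le _, ?_⟩
    simp [dev]
  | insert i s hi ih =>
    intro a b ha hb
    set A : ℕ → κ → ℝ := fun x e => a e * Real.exp (t * (if inc e i then ((x : ℝ) - θ i) else 0))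
      with hA
    set B : ℕ → κ → ℝ := fun x e => b e * Real.exp (-t * (if inc e i then ((x : ℝ) - θ i) else 0))
      with hB
    have hA0 : ∀ x e, 0 ≤ A x e := fun x e => mul_nonneg (ha e) (Real.exp_nonneg _)
    have hB0 : ∀ x e, 0 ≤ B x e := fun x e => mul_nonneg (hb e) (Real.exp_nonneg _)
    choose ε hε1 hε2 using fun x => ih (A x) (B x) (hA0 x) (hB0 x)
    set R : ℕ → ℝ := fun x => ∑ e, (A x e + B x e) *
      Real.exp (t ^ 2 * ∑ j ∈ s, if inc e j then θ j else 0) with hR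
    set T : ℝ := ∑ e, (a e + b e) *
      Real.exp (t ^ 2 * ∑ j ∈ insert i s, if inc e j then θ j else 0) with hT
    have key : θ i * R 1 + (1 - θ i) * R 0 ≤ T := by
      rw [hR, hT]
      simp only
      rw [Finset.mul_sum, Finset.mul_sum, ← Finset.sum_add_distrib]
      apply Finset.sum_le_sum
      intro e _
      rw [Finset.sum_insert hi, mul_add, Real.exp_add]
      have hE : 0 ≤ Real.exp (t ^ 2 * ∑ j ∈ s, if inc e j then θ j else 0) := Real.exp_nonneg _
      have h2 : θ i * (A 1 e + B 1 e) + (1 - θ i) * (A 0 e + B 0 e) ≤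
          (a e + b e) * Real.exp (t ^ 2 * if inc e i then θ i else 0) := by
        by_cases hc : inc e i
        · simp only [hA, hB, hc, if_true, Nat.cast_one, Nat.cast_zero]
          have h3 := mul_le_mul_of_nonneg_left (mgf_bound (θ i) t (h0 i) ht) (ha e)
          have h4 := mul_le_mul_of_nonneg_left (mgf_bound (θ i) (-t) (h0 i)
            (by rwa [abs_neg])) (hb e)
          rw [neg_sq] at h4
          linarith
        · simp only [hA, hB, hc, if_false, mul_zero, Real.exp_zero, mul_one]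
          linarith
      calc _ = (θ i * (A 1 e + B 1 e) + (1 - θ i) * (A 0 e + B 0 e)) *
            Real.exp (t ^ 2 * ∑ j ∈ s, if inc e j then θ j else 0) := by ring
        _ ≤ ((a e + b e) * Real.exp (t ^ 2 * if inc e i then θ i else 0)) *
            Real.exp (t ^ 2 * ∑ j ∈ s, if inc e j then θ j else 0) :=
            mul_le_mul_of_nonneg_right h2 hE
        _ = _ := by ring
    have hx : ∃ x : ℕ, x ≤ 1 ∧ R x ≤ T := by
      by_contra hcon
      push Not at hcon
      have e0 := hcon 0 (by norm_num)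
      have e1 := hcon 1 le_rfl
      have h3 := h0 i
      have h4 := h1 i
      have h5 : θ i * T + (1 - θ i) * T = T := by ring
      rcases eq_or_lt_of_le h3 with h6 | h6
      · rw [← h6] at key
        linarith
      · have h7 : θ i * T < θ i * R 1 := mul_lt_mul_of_pos_left e1 h6
        have h8 : (1 - θ i) * T ≤ (1 - θ i) * R 0 :=
          mul_le_mul_of_nonneg_left e0.le (by linarith)
        linarith
    obtain ⟨x, hx1, hx2⟩ := hx
    refine ⟨Function.update (ε x) i x, ?_, ?_⟩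
    · intro j
      by_cases hj : j = i
      · subst hj; simpa using hx1
      · rw [Function.update_of_ne hj]; exact hε1 x j
    · refine le_trans (le_of_eq ?_) ((hε2 x).trans hx2)
      apply Finset.sum_congr rfl
      intro e _
      rw [dev_insert inc θ (ε x) s i hi x e, mul_add, mul_add, Real.exp_add, Real.exp_add]
      simp only [hA, hB]
      ring

/-- Rounding with error `2 sqrt(Q log(2N))`. -/
theorem exists_rounding (inc : κ → ι → Prop) [∀ e i, Decidable (inc e i)] (θ : ι → ℝ)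
    (h0 : ∀ i, 0 ≤ θ i) (h1 : ∀ i, θ i ≤ 1) (s : Finset ι) (Q : ℝ)
    (hQ : ∀ e, ∑ i ∈ s, (if inc e i then θ i else 0) ≤ Q) (hκ : 1 ≤ Fintype.card κ)
    (hN : Real.log (2 * Fintype.card κ) ≤ Q) :
    ∃ ε : ι → ℕ, (∀ i, ε i ≤ 1) ∧
      ∀ e, |dev inc θ ε s e| ≤ 2 * Real.sqrt (Q * Real.log (2 * Fintype.card κ)) := by
  set ℓ := Real.log (2 * Fintype.card κ) with hℓ
  have hκ' : (1 : ℝ) ≤ Fintype.card κ := by exact_mod_cast hκ
  have hℓ0 : 0 < ℓ := Real.log_pos (by linarith)
  have hQ0 : 0 < Q := lt_of_lt_of_le hℓ0 hN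
  set t := Real.sqrt (ℓ / Q) with ht
  have ht0 : 0 < t := Real.sqrt_pos.2 (div_pos hℓ0 hQ0)
  have ht1 : t ≤ 1 := by
    rw [ht]
    exact Real.sqrt_le_one.2 ((div_le_one hQ0).2 hN)
  have ht2 : t ^ 2 = ℓ / Q := Real.sq_sqrt (div_pos hℓ0 hQ0).le
  obtain ⟨ε, hε1, hε2⟩ := derand inc θ h0 h1 t (by rw [abs_of_pos ht0]; exact ht1) s
    (fun _ => 1) (fun _ => 1) (fun _ => zero_le_one) (fun _ => zero_le_one)
  refine ⟨ε, hε1, fun e => ?_⟩
  have h3 : ∑ e, ((1 : ℝ) + 1) * Real.exp (t ^ 2 * ∑ i ∈ s, if inc e i then θ i else 0) ≤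
      Real.exp (2 * ℓ) := by
    calc ∑ e, ((1 : ℝ) + 1) * Real.exp (t ^ 2 * ∑ i ∈ s, if inc e i then θ i else 0)
        ≤ ∑ e : κ, ((1 : ℝ) + 1) * Real.exp ℓ := by
          apply Finset.sum_le_sum
          intro e _
          apply mul_le_mul_of_nonneg_left _ (by norm_num)
          apply Real.exp_le_exp.2
          calc t ^ 2 * ∑ i ∈ s, (if inc e i then θ i else 0) ≤ t ^ 2 * Q :=
                mul_le_mul_of_nonneg_left (hQ e) (sq_nonneg t)
            _ = ℓ := by rw [ht2]; field_simp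
      _ = (2 * Fintype.card κ) * Real.exp ℓ := by
          rw [Finset.sum_const, Finset.card_univ, nsmul_eq_mul]; ring
      _ = Real.exp (2 * ℓ) := by
          rw [two_mul ℓ, Real.exp_add]
          congr 1
          rw [hℓ, Real.exp_log (by linarith)]
  have h4 : Real.exp (t * |dev inc θ ε s e|) ≤ Real.exp (2 * ℓ) := by
    refine le_trans ?_ (hε2.trans h3)
    have h5 : Real.exp (t * |dev inc θ ε s e|) ≤
        1 * Real.exp (t * dev inc θ ε s e) + 1 * Real.exp (-t * dev inc θ ε s e) := by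
      rcases abs_cases (dev inc θ ε s e) with ⟨h, _⟩ | ⟨h, _⟩
      · rw [h]
        have := Real.exp_nonneg (-t * dev inc θ ε s e)
        linarith
      · rw [h]
        have := Real.exp_nonneg (t * dev inc θ ε s e)
        have h6 : t * -dev inc θ ε s e = -t * dev inc θ ε s e := by ring
        rw [h6]
        linarith
    refine h5.trans ?_
    exact Finset.single_le_sum (f := fun e => 1 * Real.exp (t * dev inc θ ε s e) +
      1 * Real.exp (-t * dev inc θ ε s e)) (fun e _ => by positivity) (Finset.mem_univ e)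
  have h7 : t * |dev inc θ ε s e| ≤ 2 * ℓ := Real.exp_le_exp.1 h4
  have h8 : Real.sqrt (Q * ℓ) * t = ℓ := by
    rw [ht, ← Real.sqrt_mul (mul_pos hQ0 hℓ0).le]
    have : Q * ℓ * (ℓ / Q) = ℓ ^ 2 := by field_simp
    rw [this, Real.sqrt_sq hℓ0.le]
  have h9 : t * |dev inc θ ε s e| ≤ t * (2 * Real.sqrt (Q * ℓ)) := by
    have h10 : t * (2 * Real.sqrt (Q * ℓ)) = 2 * (Real.sqrt (Q * ℓ) * t) := by ring
    rw [h10, h8]
    exact h7
  exact le_of_mul_le_mul_left h9 ht0

end Pool.Agent.W831.ECC
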