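import Pool.Agent.H126R2.NC.L4
import Pool.Agent.W831.ECC.Rnd

set_option autoImplicit false
set_option linter.unusedSectionVars false

/-!
Circuit covers of weightings deep inside the cone of the circuits.
-/

namespace Pool.Agent.W831.ECC

open Finset
open Pool.Agent.Helper879.ECD (F2 IsFlow f2_add_self f2_cases cn)
open Pool.Agent.H126R2.CDC (MGraph T3 IsFl isFl_iff)
open Pool.Agent.H126R2.NC (InLat InIntCone TC cover_minus circuit_tc countP_sum
  nine_colouring_bridgeless)

variable {V E : Type} [Fintype V] [DecidableEq V] [Fintype E] [DecidableEq E]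

/-- Near-constant even weights which are constant on the classes of two-edge cuts have a circuit
cover. -/
theorem cover_tc (G : MGraph V E) (p : E → ℕ) (hev : ∀ e, Even (p e))
    (hr : ∀ e f, 8 * p e ≤ 9 * p f) (hbr : G.Bridgeless)
    (v : E × Bool → V) (hv : ∀ e, G.ends e = s(v (e, false), v (e, true)))
    (htc : ∀ e f, TC (fun e => v (e, false)) (fun e => v (e, true)) e f → p e = p f) :
    InIntCone G p := by
  classical
  by_cases hE : IsEmpty E
  · exact ⟨0, by simp, fun e => (hE.false e).elim⟩
  rw [not_isEmpty_iff] at hE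
  obtain ⟨col, hcol1, hcol2⟩ := nine_colouring_bridgeless (fun e => v (e, false))
    (fun e => v (e, true)) (G.no_one_cut hbr v hv)
  obtain ⟨e0, -, he0⟩ := Finset.exists_max_image (univ : Finset E) p
    (Finset.univ_nonempty)
  obtain ⟨e1, -, he1⟩ := Finset.exists_min_image (univ : Finset E) p
    (Finset.univ_nonempty)
  choose q hq using hev
  have hqp : ∀ e, p e = 2 * q e := fun e => by rw [hq e]; ring
  set M := q e0 with hM
  set T := q e0 - q e1 with hT
  have hle0 : ∀ e, q e ≤ M := fun e => by
    have := he0 e (Finset.mem_univ _)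
    rw [hqp, hqp] at this; omega
  have hle1 : ∀ e, q e1 ≤ q e := fun e => by
    have := he1 e (Finset.mem_univ _)
    rw [hqp, hqp] at this; omega
  have h9 : 9 * T ≤ M := by
    have := hr e0 e1
    rw [hqp, hqp] at this
    omega
  have hcov : ∀ (t : ℕ) (γ : Fin 3 × Fin 3), ∃ F : Multiset (Finset E),
      (∀ C ∈ F, G.IsCircuit C) ∧ ∀ e, F.countP (fun C => e ∈ C) =
        if e ∈ univ.filter (fun e => t < M - q e ∧ col e = γ) then 0 else 2 := by
    intro t γ
    apply cover_minus G v hv
    apply hcol2 _ γ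
    · intro e he
      exact (Finset.mem_filter.1 he).2.2
    · intro e he f hef
      rw [Finset.mem_filter] at he ⊢
      have h1 := htc e f hef
      rw [hqp, hqp] at h1
      refine ⟨Finset.mem_univ _, ?_, ?_⟩
      · have := he.2.1; omega
      · rw [← hcol1 e f hef]; exact he.2.2
  choose F hF1 hF2 using hcov
  obtain ⟨F0, hF01, hF02⟩ := G.exists_cdc hbr
  refine ⟨∑ x ∈ (Finset.range T) ×ˢ (univ : Finset (Fin 3 × Fin 3)), F x.1 x.2 +
    (M - 9 * T) • F0, ?_, ?_⟩
  · intro C hC
    rw [Multiset.mem_add] at hC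
    rcases hC with hC | hC
    · rw [Multiset.mem_sum] at hC
      obtain ⟨c, _, hc⟩ := hC
      exact hF1 _ _ C hc
    · exact hF01 C (Multiset.mem_of_mem_nsmul hC)
  · intro e
    rw [Multiset.countP_add, countP_sum, Multiset.countP_nsmul, hF02 e]
    have h1 : ∑ x ∈ (Finset.range T) ×ˢ (univ : Finset (Fin 3 × Fin 3)),
        (F x.1 x.2).countP (fun C => e ∈ C) + 2 * (M - q e) = 18 * T := by
      rw [Finset.sum_product]
      dsimp only
      have h2 : ∀ t ∈ Finset.range T, ∑ γ : Fin 3 × Fin 3, (F t γ).countP (fun C => e ∈ C) +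
          (if t < M - q e then 2 else 0) = 18 := by
        intro t _
        have h3 : ∀ γ ∈ (univ : Finset (Fin 3 × Fin 3)), (F t γ).countP (fun C => e ∈ C) +
            (if γ = col e then (if t < M - q e then 2 else 0) else 0) = 2 := by
          intro γ _
          rw [hF2 t γ e]
          by_cases h4 : t < M - q e
          · by_cases h5 : γ = col e
            · subst h5; simp [h4]
            · simp [h4, h5, Ne.symm h5]
          · simp [h4]
        have h4 := Finset.sum_congr rfl h3
        rw [Finset.sum_add_distrib, Finset.sum_ite_eq'] at h4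
        simpa using h4
      have h5 := Finset.sum_congr rfl h2
      rw [Finset.sum_add_distrib, ← Finset.sum_filter, Finset.sum_const, Finset.sum_const,
        Finset.card_range] at h5
      have h6 : ((Finset.range T).filter (fun t => t < M - q e)).card = M - q e := by
        have h7 : (Finset.range T).filter (fun t => t < M - q e) = Finset.range (M - q e) := by
          ext t
          rw [Finset.mem_filter, Finset.mem_range, Finset.mem_range]
          have := hle1 e
          omega
        rw [h7, Finset.card_range]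
      rw [h6] at h5
      simp only [smul_eq_mul] at h5
      omega
    have h2 := hle0 e
    have h3 := hqp e
    have h4 : (M - 9 * T) * 2 + 18 * T = 2 * M := by omega
    omega

/-- `x` is a nonnegative real combination of circuits -/
def RCone (G : MGraph V E) (x : E → ℝ) : Prop :=
  ∃ w : Finset E → ℝ, (∀ C, 0 ≤ w C) ∧ (∀ C, ¬ G.IsCircuit C → w C = 0) ∧
    ∀ e, x e = ∑ C : Finset E, w C * (if e ∈ C then 1 else 0)

lemma RCone.nonneg {G : MGraph V E} {x : E → ℝ} (h : RCone G x) (e : E) : 0 ≤ x e := by
  obtain ⟨w, h0, _, h2⟩ := h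
  rw [h2 e]
  apply Finset.sum_nonneg
  intro C _
  exact mul_nonneg (h0 C) (by split_ifs <;> norm_num)

lemma RCone.tc {G : MGraph V E} {x : E → ℝ} (h : RCone G x) (v : E × Bool → V)
    (hv : ∀ e, G.ends e = s(v (e, false), v (e, true))) {e f : E}
    (hef : TC (fun e => v (e, false)) (fun e => v (e, true)) e f) : x e = x f := by
  obtain ⟨w, h0, h1, h2⟩ := h
  rw [h2 e, h2 f]
  apply Finset.sum_congr rfl
  intro C _
  by_cases hC : G.IsCircuit C
  · have := circuit_tc G v hv hC hef
    by_cases he : e ∈ C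
    · rw [if_pos he, if_pos (this.1 he)]
    · rw [if_neg he, if_neg (fun h => he (this.2 h))]
  · rw [h1 C hC, zero_mul, zero_mul]

lemma intCone_add {G : MGraph V E} {p q : E → ℕ} (hp : InIntCone G p) (hq : InIntCone G q) :
    InIntCone G (fun e => p e + q e) := by
  obtain ⟨F, hF, hF2⟩ := hp
  obtain ⟨F', hF', hF2'⟩ := hq
  refine ⟨F + F', ?_, ?_⟩
  · intro C hC
    rcases Multiset.mem_add.1 hC with h | h
    · exact hF C h
    · exact hF' C h
  · intro e
    rw [Multiset.countP_add, hF2, hF2']

lemma intCone_zero (G : MGraph V E) (p : E → ℕ) (hp : ∀ e, p e = 0) : InIntCone G p :=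
  ⟨0, by simp, fun e => by simp [hp e]⟩

lemma intCone_even (G : MGraph V E) (D : Finset E) (hD : G.IsEven D) :
    InIntCone G (fun e => if e ∈ D then 1 else 0) := G.decompose _ D rfl hD

/-- the integer combination of circuits with nonnegative coefficients -/
lemma intCone_comb (G : MGraph V E) (s : Finset (Finset E)) (hs : ∀ C ∈ s, G.IsCircuit C)
    (n : Finset E → ℕ) : InIntCone G (fun e => ∑ C ∈ s, n C * (if e ∈ C then 1 else 0)) := by
  refine ⟨∑ C ∈ s, n C • {C}, ?_, ?_⟩
  · intro C hC
    rw [Multiset.mem_sum] at hC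
    obtain ⟨D, hD, hCD⟩ := hC
    have h1 := Multiset.mem_of_mem_nsmul hCD
    rw [Multiset.mem_singleton] at h1
    rw [h1]
    exact hs D hD
  · intro e
    rw [countP_sum]
    apply Finset.sum_congr rfl
    intro C _
    rw [Multiset.countP_nsmul]
    congr 1
    rw [← Multiset.cons_zero, Multiset.countP_cons, Multiset.countP_zero, zero_add]

/-- **Core theorem.** -/
theorem core (G : MGraph V E) (p : E → ℕ) (hbr : G.Bridgeless)
    (hpar : G.IsEven (univ.filter fun e => Odd (p e))) (L : ℝ) (M : ℕ) (hM : ∀ e, p e ≤ M)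
    (hL : 60 * Real.sqrt (M * Real.log (2 * Fintype.card E)) ≤ L)
    (hc : RCone G (fun e => (p e : ℝ) - L)) : InIntCone G p := by
  classical
  by_cases hE : IsEmpty E
  · exact ⟨0, by simp, fun e => (hE.false e).elim⟩
  rw [not_isEmpty_iff] at hE
  obtain ⟨e0⟩ := hE
  rcases Nat.eq_zero_or_pos M with hM0 | hM0
  · exact intCone_zero G p (fun e => by have := hM e; omega)
  obtain ⟨v, hv⟩ := G.exists_halves
  have hcard : 1 ≤ Fintype.card E := Fintype.card_pos_iff.2 ⟨e0⟩
  set ℓ := Real.log (2 * Fintype.card E) with hℓ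
  have hℓ1 : 0.69 ≤ ℓ := by
    have h1 : Real.log 2 ≤ ℓ := by
      apply Real.log_le_log (by norm_num)
      have : (1 : ℝ) ≤ Fintype.card E := by exact_mod_cast hcard
      linarith
    have := Real.log_two_gt_d9
    linarith
  have hM1 : (1 : ℝ) ≤ M := by exact_mod_cast hM0
  set Sg := Real.sqrt (M * ℓ) with hS
  have hS2 : Sg ^ 2 = M * ℓ := Real.sq_sqrt (by positivity)
  have hS0 : 0 ≤ Sg := Real.sqrt_nonneg _
  have hS1 : 0.83 ≤ Sg := by
    apply Real.le_sqrt_of_sq_le
    nlinarith
  have hL0 : 0 < L := by linarith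
  have hLM : L ≤ M := by
    have h1 := hc.nonneg e0
    have h2 : (p e0 : ℝ) ≤ M := by exact_mod_cast hM e0
    linarith
  have hMℓ : 3600 * ℓ ≤ M := by
    have h1 : 60 * Sg ≤ M := hL.trans hLM
    have h2 : (60 * Sg) ^ 2 ≤ (M : ℝ) ^ 2 := by
      apply pow_le_pow_left₀ (by positivity) h1
    rw [mul_pow, hS2] at h2
    have h3 : (M : ℝ) * (3600 * ℓ) ≤ M * M := by nlinarith
    exact le_of_mul_le_mul_left h3 (by linarith)
  have hc' := hc
  obtain ⟨w, hw0, hw1, hw2⟩ := hc'
  set θ : Finset E → ℝ := fun C => Int.fract (w C / 2) with hθ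
  set s : Finset (Finset E) := univ.filter fun C => G.IsCircuit C with hs
  have hsum : ∀ e, ∑ C ∈ s, (if e ∈ C then w C / 2 else 0) = ((p e : ℝ) - L) / 2 := by
    intro e
    have hw3 : (p e : ℝ) - L = ∑ C : Finset E, w C * (if e ∈ C then 1 else 0) := hw2 e
    rw [hw3, Finset.sum_div]
    rw [← Finset.sum_subset (Finset.subset_univ s)]
    · apply Finset.sum_congr rfl
      intro C _
      split_ifs <;> ring
    · intro C _ hC
      have : ¬ G.IsCircuit C := fun h => hC (Finset.mem_filter.2 ⟨Finset.mem_univ _, h⟩)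
      rw [hw1 C this]
      ring
  have hθle : ∀ C, θ C ≤ w C / 2 := by
    intro C
    simp only [hθ]
    have h1 : 0 ≤ w C / 2 := div_nonneg (hw0 C) (by norm_num)
    have h2 : (0 : ℤ) ≤ ⌊w C / 2⌋ := Int.floor_nonneg.2 h1
    have h3 : (0 : ℝ) ≤ (⌊w C / 2⌋ : ℝ) := by exact_mod_cast h2
    have h4 := Int.floor_add_fract (w C / 2)
    linarith
  obtain ⟨ε, hε1, hε2⟩ := exists_rounding (κ := E) (fun e C => e ∈ C) θ
    (fun C => Int.fract_nonneg _) (fun C => (Int.fract_lt_one _).le) s ((M : ℝ) / 2)
    (by
      intro e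
      calc ∑ C ∈ s, (if e ∈ C then θ C else 0) ≤ ∑ C ∈ s, (if e ∈ C then w C / 2 else 0) := by
            apply Finset.sum_le_sum
            intro C _
            split_ifs
            · exact hθle C
            · exact le_rfl
        _ = ((p e : ℝ) - L) / 2 := hsum e
        _ ≤ (M : ℝ) / 2 := by
            have : (p e : ℝ) ≤ M := by exact_mod_cast hM e
            linarith)
    hcard (by linarith)
  rw [← hℓ] at hε2
  set D := Real.sqrt ((M : ℝ) / 2 * ℓ) with hD
  have hD2 : D ^ 2 = (M : ℝ) / 2 * ℓ := Real.sq_sqrt (by positivity)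
  have hD0 : 0 ≤ D := Real.sqrt_nonneg _
  have hDS : D ≤ 0.7072 * Sg := by
    apply le_of_sq_le_sq _ (by positivity)
    rw [mul_pow, hS2, hD2]
    have : 0 ≤ (M : ℝ) * ℓ := by positivity
    nlinarith
  -- the integral part
  set n : Finset E → ℕ := fun C => ⌊w C / 2⌋₊ + ε C with hn
  set S : E → ℕ := fun e => ∑ C ∈ s, (2 * n C) * (if e ∈ C then 1 else 0) with hSdef
  have hSreal : ∀ e, (S e : ℝ) = (p e : ℝ) - L + 2 * dev (fun e C => e ∈ C) θ ε s e := by
    intro e
    have h1 := hsum e
    have h2 : (p e : ℝ) - L = 2 * ∑ C ∈ s, (if e ∈ C then w C / 2 else 0) := by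
      rw [h1]; ring
    rw [h2]
    simp only [hSdef, dev, Nat.cast_sum, Finset.mul_sum, ← Finset.sum_add_distrib]
    apply Finset.sum_congr rfl
    intro C _
    by_cases he : e ∈ C
    · simp only [he, if_true, hn, hθ]
      push_cast
      have h3 : ((⌊w C / 2⌋₊ : ℕ) : ℝ) = (⌊w C / 2⌋ : ℝ) :=
        natCast_floor_eq_intCast_floor (div_nonneg (hw0 C) (by norm_num))
      rw [h3]
      have h4 := Int.floor_add_fract (w C / 2)
      linarith
    · simp [he]
  set W : Finset E := univ.filter fun e => Odd (p e) with hW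
  have hle : ∀ e, S e + (if e ∈ W then 1 else 0) ≤ p e := by
    intro e
    have h1 := hSreal e
    have h2 := hε2 e
    have h3 := le_abs_self (dev (fun e C => e ∈ C) θ ε s e)
    have h4 : ((S e + (if e ∈ W then 1 else 0) : ℕ) : ℝ) ≤ p e := by
      push_cast
      rw [h1]
      have h5 : ((if e ∈ W then (1 : ℕ) else 0 : ℕ) : ℝ) ≤ 1 := by split_ifs <;> simp
      push_cast at h5
      linarith
    exact_mod_cast h4
  set r : E → ℕ := fun e => p e - (S e + (if e ∈ W then 1 else 0)) with hr
  have hrreal : ∀ e, (r e : ℝ) = L - 2 * dev (fun e C => e ∈ C) θ ε s e -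
      (if e ∈ W then 1 else 0) := by
    intro e
    simp only [hr]
    rw [Nat.cast_sub (hle e)]
    push_cast
    rw [hSreal e]
    ring
  have hrlo : ∀ e, L - 4 * D - 1 ≤ r e := by
    intro e
    rw [hrreal e]
    have h2 := hε2 e
    have h3 := le_abs_self (dev (fun e C => e ∈ C) θ ε s e)
    have h5 : (if e ∈ W then (1 : ℝ) else 0) ≤ 1 := by split_ifs <;> norm_num
    linarith
  have hrhi : ∀ e, (r e : ℝ) ≤ L + 4 * D := by
    intro e
    rw [hrreal e]
    have h2 := hε2 e
    have h3 := neg_abs_le (dev (fun e C => e ∈ C) θ ε s e)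
    have h5 : (0 : ℝ) ≤ (if e ∈ W then (1 : ℝ) else 0) := by split_ifs <;> norm_num
    linarith
  have hres : InIntCone G r := by
    refine cover_tc G r ?_ ?_ hbr v hv ?_
    · intro e
      have h1 : p e = r e + (S e + (if e ∈ W then 1 else 0)) := by
        simp only [hr]; have := hle e; omega
      have h2 : Even (S e) := by
        simp only [hSdef]
        rw [show (∑ C ∈ s, (2 * n C) * (if e ∈ C then 1 else 0)) =
          2 * ∑ C ∈ s, n C * (if e ∈ C then 1 else 0) by
            rw [Finset.mul_sum]; apply Finset.sum_congr rfl; intro C _; ring]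
        exact even_two_mul _
      by_cases h3 : e ∈ W
      · have h4 : Odd (p e) := (Finset.mem_filter.1 h3).2
        rw [if_pos h3] at h1
        rw [Nat.odd_iff] at h4
        rw [Nat.even_iff] at h2 ⊢
        omega
      · have h4 : ¬ Odd (p e) := fun h => h3 (Finset.mem_filter.2 ⟨Finset.mem_univ _, h⟩)
        rw [Nat.not_odd_iff_even] at h4
        rw [if_neg h3] at h1
        rw [Nat.even_iff] at h2 h4 ⊢
        omega
    · intro e f
      have h1 := hrhi e
      have h2 := hrlo f
      have h3 : (8 : ℝ) * r e ≤ 9 * r f := by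
        nlinarith
      exact_mod_cast h3
    · intro e f hef
      have h1 : p e = p f := by
        have := hc.tc v hv hef
        have h2 : (p e : ℝ) = p f := by linarith
        exact_mod_cast h2
      have h2 : S e = S f := by
        simp only [hSdef]
        apply Finset.sum_congr rfl
        intro C hC
        have hCc : G.IsCircuit C := (Finset.mem_filter.1 hC).2
        have h3 := circuit_tc G v hv hCc hef
        by_cases he : e ∈ C
        · rw [if_pos he, if_pos (h3.1 he)]
        · rw [if_neg he, if_neg (fun h => he (h3.2 h))]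
      have h3 : (e ∈ W) = (f ∈ W) := by
        simp only [hW, Finset.mem_filter, Finset.mem_univ, true_and, h1]
      simp only [hr, h1, h2, h3]
  have h1 := intCone_add (intCone_add hres (intCone_comb G s
    (fun C hC => (Finset.mem_filter.1 hC).2) (fun C => 2 * n C))) (intCone_even G W hpar)
  convert h1 using 1
  ext e
  have := hle e
  simp only [hr, hSdef] at this ⊢
  omega

end Pool.Agent.W831.ECC
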