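import Pool.Agent.W831.ECC.Soc

set_option autoImplicit false
set_option linter.unusedSectionVars false
set_option linter.unusedVariables false

/-!
Covers by few even subgraphs.
-/

namespace Pool.Agent.W831.ECC

open Finset
open Pool.Agent.Helper879.ECD (F2 IsFlow f2_add_self f2_cases cn)
open Pool.Agent.H126R2.CDC (MGraph T3 IsFl isFl_iff exists_double_cover)
open Pool.Agent.H126R2.NC (InLat InIntCone TC nine_colouring_bridgeless countP_sum)
open Pool.Agent.W831.ECC.Gad (CutC Lv even_round)

variable {V E : Type} [Fintype V] [DecidableEq V] [Fintype E] [DecidableEq E]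

/-- `k` even edge sets covering every edge `e` exactly `p e` times -/
def EvC (G : MGraph V E) (p : E → ℕ) (k : ℕ) : Prop :=
  ∃ F : Multiset (Finset E), F.card = k ∧ (∀ D ∈ F, G.IsEven D) ∧
    ∀ e, F.countP (fun D => e ∈ D) = p e

lemma isEven_empty (G : MGraph V E) : G.IsEven ∅ := by
  intro w
  simp [MGraph.deg]

lemma EvC.add {G : MGraph V E} {p q : E → ℕ} {k l : ℕ} (hp : EvC G p k) (hq : EvC G q l) :
    EvC G (fun e => p e + q e) (k + l) := by
  obtain ⟨F, hF0, hF, hF2⟩ := hp
  obtain ⟨F', hF0', hF', hF2'⟩ := hq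
  refine ⟨F + F', ?_, ?_, ?_⟩
  · rw [Multiset.card_add, hF0, hF0']
  · intro C hC
    rcases Multiset.mem_add.1 hC with h | h
    · exact hF C h
    · exact hF' C h
  · intro e
    rw [Multiset.countP_add, hF2, hF2']

lemma EvC.mono {G : MGraph V E} {p : E → ℕ} {k l : ℕ} (hp : EvC G p k) (h : k ≤ l) :
    EvC G p l := by
  obtain ⟨F, hF0, hF, hF2⟩ := hp
  refine ⟨F + (l - k) • {∅}, ?_, ?_, ?_⟩
  · rw [Multiset.card_add, Multiset.card_nsmul, Multiset.card_singleton, hF0]
    simp; omega
  · intro C hC
    rcases Multiset.mem_add.1 hC with h | h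
    · exact hF C h
    · have h1 := Multiset.mem_of_mem_nsmul h
      rw [Multiset.mem_singleton] at h1
      rw [h1]
      exact isEven_empty G
  · intro e
    rw [Multiset.countP_add, hF2, Multiset.countP_nsmul]
    have : Multiset.countP (fun D : Finset E => e ∈ D) {∅} = 0 := by
      rw [← Multiset.cons_zero, Multiset.countP_cons, Multiset.countP_zero]
      simp
    rw [this]
    simp

lemma evC_one {G : MGraph V E} (D : Finset E) (hD : G.IsEven D) :
    EvC G (fun e => if e ∈ D then 1 else 0) 1 := by
  refine ⟨{D}, by simp, ?_, ?_⟩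
  · intro C hC
    rw [Multiset.mem_singleton] at hC
    rw [hC]; exact hD
  · intro e
    rw [← Multiset.cons_zero, Multiset.countP_cons, Multiset.countP_zero, zero_add]

lemma evC_zero (G : MGraph V E) (p : E → ℕ) (hp : ∀ e, p e = 0) : EvC G p 0 :=
  ⟨0, by simp, by simp, fun e => by simp [hp e]⟩

lemma evC_comb (G : MGraph V E) (s : Finset (Finset E)) (hs : ∀ D ∈ s, G.IsEven D)
    (n : Finset E → ℕ) :
    EvC G (fun e => ∑ D ∈ s, n D * (if e ∈ D then 1 else 0)) (∑ D ∈ s, n D) := by
  refine ⟨∑ D ∈ s, n D • {D}, ?_, ?_, ?_⟩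
  · rw [Multiset.card_sum]
    apply Finset.sum_congr rfl
    intro D _
    rw [Multiset.card_nsmul, Multiset.card_singleton, mul_one]
  · intro C hC
    rw [Multiset.mem_sum] at hC
    obtain ⟨D, hD, hCD⟩ := hC
    have h1 := Multiset.mem_of_mem_nsmul hCD
    rw [Multiset.mem_singleton] at h1
    rw [h1]
    exact hs D hD
  · intro e
    rw [countP_sum]
    apply Finset.sum_congr rfl
    intro D _
    rw [Multiset.countP_nsmul]
    congr 1
    rw [← Multiset.cons_zero, Multiset.countP_cons, Multiset.countP_zero, zero_add]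

lemma EvC.sum {G : MGraph V E} {ι : Type} [DecidableEq ι] (s : Finset ι) (p : ι → E → ℕ) (k : ι → ℕ)
    (h : ∀ i ∈ s, EvC G (p i) (k i)) : EvC G (fun e => ∑ i ∈ s, p i e) (∑ i ∈ s, k i) := by
  induction s using Finset.induction_on with
  | empty => simpa using evC_zero G (fun _ => 0) (fun _ => rfl)
  | insert i s hi ih =>
    have h1 := (h i (Finset.mem_insert_self i s)).add
      (ih (fun j hj => h j (Finset.mem_insert_of_mem hj)))
    simp only [Finset.sum_insert hi]
    exact h1

lemma EvC.mul {G : MGraph V E} {p : E → ℕ} {k : ℕ} (h : EvC G p k) (n : ℕ) :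
    EvC G (fun e => n * p e) (n * k) := by
  have h1 := EvC.sum (Finset.range n) (fun _ => p) (fun _ => k) (fun _ _ => h)
  simpa using h1

/-- parity of a cover -/
lemma EvC.parity {G : MGraph V E} {p : E → ℕ} {k : ℕ} (h : EvC G p k) :
    G.IsEven (univ.filter fun e => Odd (p e)) := by
  obtain ⟨v, hv⟩ := G.exists_halves
  rw [G.isEven_iff v hv]
  obtain ⟨F, hF0, hF, hF2⟩ := h
  have h1 : IsFl v (fun e => ((F.countP (fun D => e ∈ D) : ℕ) : F2)) := by
    clear hF2 hF0
    induction F using Multiset.induction_on with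
    | empty =>
      intro w
      simp
    | cons D F ih =>
      have h2 := ih (fun D' hD' => hF D' (Multiset.mem_cons_of_mem hD'))
      have h3 := (G.isEven_iff v hv D).1 (hF D (Multiset.mem_cons_self _ _))
      have h4 := IsFl.add' h2 h3
      have h5 : (fun e => (((D ::ₘ F).countP (fun D => e ∈ D) : ℕ) : F2)) =
          fun e => ((F.countP (fun D => e ∈ D) : ℕ) : F2) + (if e ∈ D then 1 else 0) := by
        ext e
        rw [Multiset.countP_cons]
        push_cast
        rfl
      rw [h5]
      exact h4
  have h2 : (fun e => ((F.countP (fun D => e ∈ D) : ℕ) : F2)) =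
      fun e => if e ∈ univ.filter (fun e => Odd (p e)) then (1 : F2) else 0 := by
    ext e
    rw [hF2 e]
    have := f2_cast_ite (p e)
    rw [Int.cast_natCast] at this
    rw [this]
    simp
  rw [← h2]
  exact h1

lemma EvC.tc {G : MGraph V E} {p : E → ℕ} {k : ℕ} (h : EvC G p k) (v : E × Bool → V)
    (hv : ∀ e, G.ends e = s(v (e, false), v (e, true))) {e f : E}
    (hef : TC (fun e => v (e, false)) (fun e => v (e, true)) e f) : p e = p f := by
  obtain ⟨F, _, hF, hF2⟩ := h
  rw [← hF2 e, ← hF2 f]
  apply Multiset.countP_congr rfl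
  intro D hD
  have hD' := hF D hD
  obtain ⟨z, hz⟩ := hef
  have h1 := (isFl_iff v _).1 ((G.isEven_iff v hv D).1 hD') z
  have h2 : ∀ h ∈ (univ : Finset E), (if h ∈ D then (1 : F2) else 0) *
      (z (v (h, false)) + z (v (h, true))) =
      (if h = e then (if e ∈ D then 1 else 0) else 0) +
      (if h = f then (if f ∈ D then 1 else 0) else 0) := by
    intro h _
    rw [hz h, mul_add]
    congr 1
    · by_cases h3 : h = e
      · rw [h3]; simp
      · simp [h3]
    · by_cases h3 : h = f
      · rw [h3]; simp
      · simp [h3]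
  rw [Finset.sum_congr rfl h2, Finset.sum_add_distrib, Finset.sum_ite_eq', Finset.sum_ite_eq'] at h1
  simp only [Finset.mem_univ, if_true] at h1
  by_cases he : e ∈ D <;> by_cases hf : f ∈ D
  · simp [he, hf]
  · rw [if_pos he, if_neg hf, add_zero] at h1; exact absurd h1 one_ne_zero
  · rw [if_neg he, if_pos hf, zero_add] at h1; exact absurd h1 one_ne_zero
  · simp [he, hf]

/-- eight even sets covering the edges outside `X` twice -/
lemma evC_minus (G : MGraph V E) (v : E × Bool → V)
    (hv : ∀ e, G.ends e = s(v (e, false), v (e, true))) (X : Finset E)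
    (hX : ∀ B : Finset V, cn (fun e => v (e, false)) (fun e => v (e, true)) (univ \ X) B ≠ 1) :
    EvC G (fun e => if e ∈ X then 0 else 2) 8 := by
  classical
  let v' : E × Bool → V := fun h => if h.1 ∈ X then v (h.1, false) else v h
  obtain ⟨S, hS1, hS2⟩ := exists_double_cover v' (by
    intro B
    have h1 : cn (fun e => v' (e, false)) (fun e => v' (e, true)) univ B =
        cn (fun e => v (e, false)) (fun e => v (e, true)) (univ \ X) B := by
      unfold cn
      congr 1
      ext e
      simp only [Finset.mem_filter, Finset.mem_univ, true_and, Finset.mem_sdiff, v']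
      by_cases h : e ∈ X
      · simp [h]
      · simp [h]
    rw [h1]
    exact hX B)
  have hev : ∀ c : T3, G.IsEven (univ.filter (fun e => c ∈ S e ∧ e ∉ X)) := by
    intro c
    rw [G.isEven_iff v hv, isFl_iff]
    have h1 := (isFl_iff v' _).1 (hS2 c)
    intro f
    refine Eq.trans ?_ (h1 f)
    apply Finset.sum_congr rfl
    intro e _
    by_cases h : e ∈ X
    · simp only [v', h, if_true]
      rw [f2_add_self, mul_zero, if_neg (by simp [h]), zero_mul]
    · simp only [v', h, if_false]
      congr 1
      simp [h]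
  have h2 := EvC.sum (univ : Finset T3)
    (fun c e => if e ∈ univ.filter (fun e => c ∈ S e ∧ e ∉ X) then 1 else 0) (fun _ => 1)
    (fun c _ => evC_one _ (hev c))
  have h3 : ∑ c : T3, 1 = 8 := by simp [T3]
  rw [h3] at h2
  convert h2 using 2
  rename_i e
  by_cases h : e ∈ X
  · simp [h]
  · simp only [h, if_false]
    have h4 : ∀ c ∈ (univ : Finset T3), (if e ∈ univ.filter (fun e => c ∈ S e ∧ e ∉ X) then 1 else 0) =
        if c ∈ S e then 1 else 0 := by
      intro c _
      simp [h]
    rw [Finset.sum_congr rfl h4]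
    simp [hS1 e]

/-- Near-constant even weights with values at most `2 M`: a cover by `8 M` even sets. -/
theorem evC_near (G : MGraph V E) (q : E → ℕ) (M : ℕ) (hM : ∀ e, q e ≤ M)
    (hr : ∀ e, 8 * M ≤ 9 * q e) (hbr : G.Bridgeless)
    (v : E × Bool → V) (hv : ∀ e, G.ends e = s(v (e, false), v (e, true)))
    (htc : ∀ e f, TC (fun e => v (e, false)) (fun e => v (e, true)) e f → q e = q f) :
    EvC G (fun e => 2 * q e) (8 * M) := by
  classical
  obtain ⟨col, hcol1, hcol2⟩ := nine_colouring_bridgeless (fun e => v (e, false))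
    (fun e => v (e, true)) (G.no_one_cut hbr v hv)
  set T := M / 9 with hT
  have h9 : 9 * T ≤ M := by omega
  have hT2 : ∀ e, M - q e ≤ T := by
    intro e
    have := hr e
    have := hM e
    omega
  have hcov : ∀ (t : ℕ) (γ : Fin 3 × Fin 3), EvC G
      (fun e => if e ∈ univ.filter (fun e => t < M - q e ∧ col e = γ) then 0 else 2) 8 := by
    intro t γ
    apply evC_minus G v hv
    apply hcol2 _ γ
    · intro e he
      exact (Finset.mem_filter.1 he).2.2
    · intro e he f hef
      rw [Finset.mem_filter] at he ⊢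
      have h1 := htc e f hef
      refine ⟨Finset.mem_univ _, ?_, ?_⟩
      · have := he.2.1; omega
      · rw [← hcol1 e f hef]; exact he.2.2
  have h0 : EvC G (fun e => 2) 8 := by
    have h1 := evC_minus G v hv ∅ (by
      intro B
      rw [Finset.sdiff_empty]
      exact G.no_one_cut hbr v hv B)
    simpa using h1
  have h1 := EvC.sum ((Finset.range T) ×ˢ (univ : Finset (Fin 3 × Fin 3)))
    (fun x e => if e ∈ univ.filter (fun e => x.1 < M - q e ∧ col e = x.2) then 0 else 2)
    (fun _ => 8) (fun x _ => hcov x.1 x.2)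
  have h2 := h1.add (h0.mul (M - 9 * T))
  have hk : ∑ i ∈ (Finset.range T) ×ˢ (univ : Finset (Fin 3 × Fin 3)), 8 + (M - 9 * T) * 8 =
      8 * M := by
    rw [Finset.sum_const, Finset.card_product, Finset.card_range]
    simp
    omega
  rw [hk] at h2
  convert h2 using 2
  rename_i e
  have hA : ∑ x ∈ (Finset.range T) ×ˢ (univ : Finset (Fin 3 × Fin 3)),
      (if e ∈ univ.filter (fun e => x.1 < M - q e ∧ col e = x.2) then 0 else 2) +
        2 * (M - q e) = 18 * T := by
    rw [Finset.sum_product]
    dsimp only
    have h2 : ∀ t ∈ Finset.range T, ∑ γ : Fin 3 × Fin 3,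
        (if e ∈ univ.filter (fun e => t < M - q e ∧ col e = γ) then 0 else 2) +
        (if t < M - q e then 2 else 0) = 18 := by
      intro t _
      have h3 : ∀ γ ∈ (univ : Finset (Fin 3 × Fin 3)),
          (if e ∈ univ.filter (fun e => t < M - q e ∧ col e = γ) then 0 else 2) +
          (if γ = col e then (if t < M - q e then 2 else 0) else 0) = 2 := by
        intro γ _
        by_cases h4 : t < M - q e
        · by_cases h5 : γ = col e
          · subst h5; simp [h4]
          · simp [h4, h5, Ne.symm h5]
        · simp [h4]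
      have h4 := Finset.sum_congr rfl h3
      rw [Finset.sum_add_distrib, Finset.sum_ite_eq'] at h4
      simpa using h4
    have h5 := Finset.sum_congr rfl h2
    rw [Finset.sum_add_distrib, ← Finset.sum_filter, Finset.sum_const, Finset.sum_const,
      Finset.card_range] at h5
    have h6 : ((Finset.range T).filter (fun t => t < M - q e)).card = M - q e := by
      have h7 : (Finset.range T).filter (fun t => t < M - q e) = Finset.range (M - q e) := by
        ext t
        rw [Finset.mem_filter, Finset.mem_range, Finset.mem_range]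
        have := hT2 e
        omega
      rw [h7, Finset.card_range]
    rw [h6] at h5
    simp only [smul_eq_mul] at h5
    omega
  have h3 := hM e
  omega

end Pool.Agent.W831.ECC
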