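import Pool.Agent.H249R2.PM.Round

set_option autoImplicit false
set_option linter.unusedSectionVars false
set_option linter.unusedVariables false

/-!
A gadget which turns even edge sets into perfect matchings: the cut condition makes a small
weighting a fractional perfect matching with odd cut inequalities.
-/

namespace Pool.Agent.W831.ECC.Gad

open Finset
open Pool.Agent.H249R2.PM (Cr cut Fr IsPM round cut_eq_ite)

variable {V E : Type} [Fintype V] [DecidableEq V] [Fintype E] [DecidableEq E]

/-- nodes of the gadget: half-edges and three further nodes for every half-edge -/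
abbrev Nd (E : Type) := (E × Bool) ⊕ ((E × Bool) × Fin 3)

/-- edges of the gadget -/
abbrev Ed (E : Type) :=
  E ⊕ (((E × Bool) × ((E × Bool) × Fin 3)) ⊕ (((E × Bool) × Fin 3) × ((E × Bool) × Fin 3)))

instance instDecEd : DecidableEq (Ed E) :=
  have h1 : DecidableEq (E × Bool) := inferInstance
  have h2 : DecidableEq ((E × Bool) × Fin 3) := inferInstance
  have h3 : DecidableEq ((E × Bool) × ((E × Bool) × Fin 3)) := inferInstance
  have h4 : DecidableEq (((E × Bool) × Fin 3) × ((E × Bool) × Fin 3)) := inferInstance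
  have h5 : DecidableEq (((E × Bool) × ((E × Bool) × Fin 3)) ⊕
    (((E × Bool) × Fin 3) × ((E × Bool) × Fin 3))) := inferInstance
  inferInstance

/-- first end -/
def ga : Ed E → Nd E
  | Sum.inl e => Sum.inl (e, false)
  | Sum.inr (Sum.inl (h, _)) => Sum.inl h
  | Sum.inr (Sum.inr (d, _)) => Sum.inr d

/-- second end -/
def gb : Ed E → Nd E
  | Sum.inl e => Sum.inl (e, true)
  | Sum.inr (Sum.inl (_, d)) => Sum.inr d
  | Sum.inr (Sum.inr (_, d')) => Sum.inr d'

/-- number of additional nodes at `w` -/
def mm (u : E × Bool → V) (w : V) : ℝ :=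
  ∑ d : (E × Bool) × Fin 3, if u d.1 = w then 1 else 0

/-- total internal weight of the half-edges at `w` -/
def sw (u : E × Bool → V) (x : E → ℝ) (w : V) : ℝ :=
  ∑ h : E × Bool, if u h = w then 1 - x h.1 else 0

/-- weight of a pair of additional nodes -/
noncomputable def be (u : E × Bool → V) (x : E → ℝ) (w : V) : ℝ :=
  (1 - sw u x w / mm u w) / (mm u w - 1)

/-- the fractional perfect matching -/
noncomputable def gy (u : E × Bool → V) (x : E → ℝ) : Ed E → ℝ
  | Sum.inl e => x e
  | Sum.inr (Sum.inl (h, d)) => if u d.1 = u h then (1 - x h.1) / mm u (u h) else 0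
  | Sum.inr (Sum.inr (d, d')) => if u d'.1 = u d.1 then be u x (u d.1) / 2 else 0

lemma mm_eq (u : E × Bool → V) (w : V) :
    mm u w = 3 * ∑ h : E × Bool, (if u h = w then (1 : ℝ) else 0) := by
  unfold mm
  rw [Fintype.sum_prod_type, Finset.mul_sum]
  apply Finset.sum_congr rfl
  intro h _
  by_cases hh : u h = w <;> simp [hh]

lemma mm_ge (u : E × Bool → V) (h : E × Bool) : 3 ≤ mm u (u h) := by
  rw [mm_eq]
  have h1 : (1 : ℝ) ≤ ∑ k : E × Bool, (if u k = u h then (1 : ℝ) else 0) := by
    have h2 := Finset.single_le_sum (f := fun k : E × Bool => if u k = u h then (1 : ℝ) else 0)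
      (s := univ) (fun k _ => by split_ifs <;> norm_num) (Finset.mem_univ h)
    simpa using h2
  linarith

lemma sw_le (u : E × Bool → V) (x : E → ℝ) (h0 : ∀ e, 0 ≤ x e) (w : V) :
    3 * sw u x w ≤ mm u w := by
  rw [mm_eq]
  apply mul_le_mul_of_nonneg_left _ (by norm_num)
  apply Finset.sum_le_sum
  intro h _
  have := h0 h.1
  split_ifs
  · linarith
  · exact le_rfl

lemma sw_nonneg (u : E × Bool → V) (x : E → ℝ) (h1 : ∀ e, x e ≤ 1 / 2) (w : V) :
    0 ≤ sw u x w := by
  apply Finset.sum_nonneg
  intro h _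
  have := h1 h.1
  split_ifs
  · linarith
  · exact le_rfl

lemma be_nonneg (u : E × Bool → V) (x : E → ℝ) (h0 : ∀ e, 0 ≤ x e) (h : E × Bool) :
    0 ≤ be u x (u h) := by
  have h1 := mm_ge u h
  have h2 := sw_le u x h0 (u h)
  unfold be
  apply div_nonneg _ (by linarith)
  rw [sub_nonneg, div_le_one (by linarith)]
  linarith

lemma gcut (u : E × Bool → V) (x : E → ℝ) (U : Finset (Nd E)) :
    cut ga gb (gy u x) U =
      ∑ e : E, (if ¬ (Sum.inl (e, false) ∈ U ↔ Sum.inl (e, true) ∈ U) then x e else 0) +
      (∑ h : E × Bool, ∑ d : (E × Bool) × Fin 3, (if ¬ (Sum.inl h ∈ U ↔ Sum.inr d ∈ U) then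
        (if u d.1 = u h then (1 - x h.1) / mm u (u h) else 0) else 0) +
      ∑ d : (E × Bool) × Fin 3, ∑ d' : (E × Bool) × Fin 3,
        (if ¬ (Sum.inr d ∈ U ↔ Sum.inr d' ∈ U) then
          (if u d'.1 = u d.1 then be u x (u d.1) / 2 else 0) else 0)) := by
  rw [cut_eq_ite, Fintype.sum_sum_type, Fintype.sum_sum_type,
    Fintype.sum_prod_type (γ := ℝ) (α₁ := E × Bool) (α₂ := (E × Bool) × Fin 3),
    Fintype.sum_prod_type (γ := ℝ) (α₁ := (E × Bool) × Fin 3) (α₂ := (E × Bool) × Fin 3)]
  rfl

lemma deg_half (u : E × Bool → V) (x : E → ℝ) (h : E × Bool) :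
    cut ga gb (gy u x) {Sum.inl h} = 1 := by
  rw [gcut]
  have h1 : ∑ e : E, (if ¬ (Sum.inl (e, false) ∈ ({Sum.inl h} : Finset (Nd E)) ↔
      Sum.inl (e, true) ∈ ({Sum.inl h} : Finset (Nd E))) then x e else 0) = x h.1 := by
    rw [Finset.sum_eq_single h.1]
    · rw [if_pos]
      obtain ⟨e, b⟩ := h
      cases b <;> simp
    · intro e _ he
      rw [if_neg]
      rw [not_not, Finset.mem_singleton, Finset.mem_singleton, Sum.inl.injEq, Sum.inl.injEq]
      constructor
      · intro h2; exact absurd (congrArg Prod.fst h2) he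
      · intro h2; exact absurd (congrArg Prod.fst h2) he
    · intro h2; exact absurd (Finset.mem_univ _) h2
  have h2 : ∑ k : E × Bool, ∑ d : (E × Bool) × Fin 3,
      (if ¬ (Sum.inl k ∈ ({Sum.inl h} : Finset (Nd E)) ↔
        Sum.inr d ∈ ({Sum.inl h} : Finset (Nd E))) then
        (if u d.1 = u k then (1 - x k.1) / mm u (u k) else 0) else 0) = 1 - x h.1 := by
    rw [Finset.sum_eq_single h]
    · have h3 : ∀ d ∈ (univ : Finset ((E × Bool) × Fin 3)),
          (if ¬ (Sum.inl h ∈ ({Sum.inl h} : Finset (Nd E)) ↔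
          Sum.inr d ∈ ({Sum.inl h} : Finset (Nd E))) then
          (if u d.1 = u h then (1 - x h.1) / mm u (u h) else 0) else 0) =
          (1 - x h.1) / mm u (u h) * (if u d.1 = u h then 1 else 0) := by
        intro d _
        simp
      rw [Finset.sum_congr rfl h3, ← Finset.mul_sum]
      have h4 := mm_ge u h
      unfold mm at h4 ⊢
      field_simp
    · intro k _ hk
      apply Finset.sum_eq_zero
      intro d _
      rw [if_neg]
      simp [hk]
    · intro h2; exact absurd (Finset.mem_univ _) h2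
  have h3 : ∑ d : (E × Bool) × Fin 3, ∑ d' : (E × Bool) × Fin 3,
      (if ¬ (Sum.inr d ∈ ({Sum.inl h} : Finset (Nd E)) ↔
        Sum.inr d' ∈ ({Sum.inl h} : Finset (Nd E))) then
        (if u d'.1 = u d.1 then be u x (u d.1) / 2 else 0) else 0) = 0 := by
    apply Finset.sum_eq_zero
    intro d _
    apply Finset.sum_eq_zero
    intro d' _
    simp
  rw [h1, h2, h3]
  ring

lemma deg_add (u : E × Bool → V) (x : E → ℝ) (d : (E × Bool) × Fin 3) :
    cut ga gb (gy u x) {Sum.inr d} = 1 := by
  rw [gcut]
  have h1 : ∑ e : E, (if ¬ (Sum.inl (e, false) ∈ ({Sum.inr d} : Finset (Nd E)) ↔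
      Sum.inl (e, true) ∈ ({Sum.inr d} : Finset (Nd E))) then x e else 0) = 0 := by
    apply Finset.sum_eq_zero
    intro e _
    simp
  have h2 : ∑ k : E × Bool, ∑ d' : (E × Bool) × Fin 3,
      (if ¬ (Sum.inl k ∈ ({Sum.inr d} : Finset (Nd E)) ↔
        Sum.inr d' ∈ ({Sum.inr d} : Finset (Nd E))) then
        (if u d'.1 = u k then (1 - x k.1) / mm u (u k) else 0) else 0) =
      sw u x (u d.1) / mm u (u d.1) := by
    unfold sw
    rw [Finset.sum_div]
    apply Finset.sum_congr rfl
    intro k _
    rw [Finset.sum_eq_single d]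
    · simp only [Finset.mem_singleton, reduceCtorEq, true_iff, not_true,
        not_false_eq_true, if_true, false_iff]
      by_cases h : u d.1 = u k
      · rw [if_pos h, if_pos h.symm, h]
      · rw [if_neg h, if_neg (fun h' => h h'.symm), zero_div]
    · intro d' _ hd'
      rw [if_neg]
      simp [hd']
    · intro h; exact absurd (Finset.mem_univ _) h
  have h3 : ∑ a : (E × Bool) × Fin 3, ∑ b : (E × Bool) × Fin 3,
      (if ¬ (Sum.inr a ∈ ({Sum.inr d} : Finset (Nd E)) ↔
        Sum.inr b ∈ ({Sum.inr d} : Finset (Nd E))) then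
        (if u b.1 = u a.1 then be u x (u a.1) / 2 else 0) else 0) =
      (mm u (u d.1) - 1) * be u x (u d.1) := by
    have h4 : ∀ a ∈ (univ : Finset ((E × Bool) × Fin 3)), ∀ b ∈ (univ : Finset ((E × Bool) × Fin 3)),
        (if ¬ (Sum.inr a ∈ ({Sum.inr d} : Finset (Nd E)) ↔
        Sum.inr b ∈ ({Sum.inr d} : Finset (Nd E))) then
        (if u b.1 = u a.1 then be u x (u a.1) / 2 else 0) else 0) =
        be u x (u d.1) / 2 * ((if a = d then (if u b.1 = u d.1 then 1 else 0) else 0) +
          (if b = d then (if u a.1 = u d.1 then 1 else 0) else 0) -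
          2 * (if a = d then (if b = d then 1 else 0) else 0)) := by
      intro a _ b _
      simp only [Finset.mem_singleton, Sum.inr.injEq]
      by_cases ha : a = d
      · subst ha
        by_cases hb : b = a
        · subst hb; simp; norm_num
        · simp [hb]
      · by_cases hb : b = d
        · subst hb
          simp only [ha, if_false, if_true, false_iff, not_true, not_false_eq_true, not_not,
            iff_true]
          by_cases hab : u b.1 = u a.1
          · simp [hab]
          · simp [hab, Ne.symm hab]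
        · simp [ha, hb]
    rw [Finset.sum_congr rfl (fun a ha => Finset.sum_congr rfl (h4 a ha))]
    simp only [← Finset.mul_sum, Finset.sum_add_distrib, Finset.sum_sub_distrib]
    have e1 : ∑ a : (E × Bool) × Fin 3, ∑ b : (E × Bool) × Fin 3,
        (if a = d then (if u b.1 = u d.1 then (1 : ℝ) else 0) else 0) = mm u (u d.1) := by
      rw [Finset.sum_comm]
      unfold mm
      apply Finset.sum_congr rfl
      intro b _
      rw [Finset.sum_ite_eq']
      simp
    have e2 : ∑ a : (E × Bool) × Fin 3, ∑ b : (E × Bool) × Fin 3,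
        (if b = d then (if u a.1 = u d.1 then (1 : ℝ) else 0) else 0) = mm u (u d.1) := by
      unfold mm
      apply Finset.sum_congr rfl
      intro a _
      rw [Finset.sum_ite_eq']
      simp
    have e3 : ∑ a : (E × Bool) × Fin 3, ∑ b : (E × Bool) × Fin 3,
        (if a = d then (if b = d then (1 : ℝ) else 0) else 0) = 1 := by
      rw [Finset.sum_comm]
      rw [Finset.sum_congr rfl (g := fun b => if b = d then (1 : ℝ) else 0)]
      · simp
      · intro b _
        rw [Finset.sum_ite_eq']
        simp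
    rw [e1, e2, e3]
    ring
  rw [h1, h2, h3]
  have h4 := mm_ge u d.1
  unfold be
  have h5 : mm u (u d.1) - 1 ≠ 0 := by linarith
  rw [mul_div_cancel₀ _ h5]
  ring

end Pool.Agent.W831.ECC.Gad
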