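import Pool.Agent.W831.ECC.Gad

set_option autoImplicit false
set_option linter.unusedSectionVars false
set_option linter.unusedVariables false

/-!
The odd cut inequalities in the gadget.
-/

namespace Pool.Agent.W831.ECC.Gad

open Finset
open Pool.Agent.H249R2.PM (Cr cut Fr IsPM round cut_eq_ite)

variable {V E : Type} [Fintype V] [DecidableEq V] [Fintype E] [DecidableEq E]

/-- the edge `e` leaves the vertex set `S` -/
def Lv (u : E × Bool → V) (S : Finset V) (e : E) : Prop := ¬ (u (e, false) ∈ S ↔ u (e, true) ∈ S)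

instance (u : E × Bool → V) (S : Finset V) : DecidablePred (Lv u S) := fun e => by
  unfold Lv; infer_instance

/-- the cut condition -/
def CutC (u : E × Bool → V) (x : E → ℝ) : Prop :=
  ∀ (S : Finset V) (e : E), Lv u S e → x e ≤ ∑ f : E, if f ≠ e ∧ Lv u S f then x f else 0

lemma gy_nonneg (u : E × Bool → V) (x : E → ℝ) (h0 : ∀ e, 0 ≤ x e) (h1 : ∀ e, x e ≤ 2 / 3)
    (e : Ed E) : 0 ≤ gy u x e := by
  rcases e with e | ⟨h, d⟩ | ⟨d, d'⟩
  · exact h0 e
  · simp only [gy]
    split_ifs
    · apply div_nonneg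
      · have := h1 h.1; linarith
      · have := mm_ge u h; linarith
    · exact le_rfl
  · simp only [gy]
    split_ifs
    · have := be_nonneg u x h0 d.1
      linarith
    · exact le_rfl

lemma odd_split (u : E × Bool → V) (x : E → ℝ) (h0 : ∀ e, 0 ≤ x e) (h1 : ∀ e, x e ≤ 2 / 3)
    (U : Finset (Nd E)) (d d' : (E × Bool) × Fin 3) (hdd : u d'.1 = u d.1)
    (hd : Sum.inr d ∈ U) (hd' : Sum.inr d' ∉ U) : 1 ≤ cut ga gb (gy u x) U := by
  rw [gcut]
  set w := u d.1 with hw
  set A : Finset ((E × Bool) × Fin 3) := univ.filter fun a => u a.1 = w ∧ Sum.inr a ∈ U with hA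
  set B : Finset ((E × Bool) × Fin 3) := univ.filter fun a => u a.1 = w ∧ Sum.inr a ∉ U with hB
  have hA1 : (1 : ℝ) ≤ A.card := by
    have : 0 < A.card := Finset.card_pos.2 ⟨d, Finset.mem_filter.2 ⟨Finset.mem_univ _, rfl, hd⟩⟩
    exact_mod_cast this
  have hB1 : (1 : ℝ) ≤ B.card := by
    have : 0 < B.card :=
      Finset.card_pos.2 ⟨d', Finset.mem_filter.2 ⟨Finset.mem_univ _, hdd, hd'⟩⟩
    exact_mod_cast this
  have hAB : mm u w = A.card + B.card := by
    unfold mm
    rw [Finset.card_filter, Finset.card_filter]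
    push_cast
    rw [← Finset.sum_add_distrib]
    apply Finset.sum_congr rfl
    intro a _
    by_cases ha : u a.1 = w
    · by_cases hb : Sum.inr a ∈ U <;> simp [ha, hb]
    · simp [ha]
  have hm := mm_ge u d.1
  rw [← hw] at hm
  have hbe := be_nonneg u x h0 d.1
  rw [← hw] at hbe
  have s1 : 0 ≤ ∑ e : E, (if ¬ (Sum.inl (e, false) ∈ U ↔ Sum.inl (e, true) ∈ U) then x e else 0) := by
    apply Finset.sum_nonneg
    intro e _
    have := h0 e
    split_ifs <;> linarith
  have s2 : sw u x w / mm u w ≤ ∑ h : E × Bool, ∑ d : (E × Bool) × Fin 3,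
      (if ¬ (Sum.inl h ∈ U ↔ Sum.inr d ∈ U) then
        (if u d.1 = u h then (1 - x h.1) / mm u (u h) else 0) else 0) := by
    unfold sw
    rw [Finset.sum_div]
    apply Finset.sum_le_sum
    intro k _
    have hterm : ∀ a : (E × Bool) × Fin 3, 0 ≤ (if ¬ (Sum.inl k ∈ U ↔ Sum.inr a ∈ U) then
        (if u a.1 = u k then (1 - x k.1) / mm u (u k) else 0) else 0) := by
      intro a
      have h2 : 0 ≤ (1 - x k.1) / mm u (u k) := by
        apply div_nonneg
        · have := h1 k.1; linarith
        · have := mm_ge u k; linarith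
      split_ifs <;> first | exact h2 | exact le_rfl
    by_cases hk : u k = w
    · rw [if_pos hk]
      by_cases hkU : Sum.inl k ∈ U
      · refine le_trans (le_of_eq ?_) (Finset.single_le_sum (fun a _ => hterm a)
          (Finset.mem_univ d'))
        rw [if_pos, if_pos, hk]
        · rw [hdd, hk]
        · exact fun h => hd' (h.1 hkU)
      · refine le_trans (le_of_eq ?_) (Finset.single_le_sum (fun a _ => hterm a)
          (Finset.mem_univ d))
        rw [if_pos, if_pos, hk]
        · rw [hk]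
        · exact fun h => hkU (h.2 hd)
    · rw [if_neg hk, zero_div]
      exact Finset.sum_nonneg (fun a _ => hterm a)
  have s3 : (A.card : ℝ) * B.card * be u x w ≤
      ∑ d : (E × Bool) × Fin 3, ∑ d' : (E × Bool) × Fin 3,
        (if ¬ (Sum.inr d ∈ U ↔ Sum.inr d' ∈ U) then
          (if u d'.1 = u d.1 then be u x (u d.1) / 2 else 0) else 0) := by
    have e1 : (A.card : ℝ) * B.card * be u x w = ∑ a : (E × Bool) × Fin 3,
        ∑ b : (E × Bool) × Fin 3, (((if a ∈ A then (1 : ℝ) else 0) * (if b ∈ B then 1 else 0) +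
          (if a ∈ B then (1 : ℝ) else 0) * (if b ∈ A then 1 else 0)) * (be u x w / 2)) := by
      simp only [← Finset.sum_mul, Finset.sum_add_distrib, ← Finset.mul_sum]
      simp only [Finset.sum_ite_mem, Finset.univ_inter, Finset.sum_const, nsmul_eq_mul, mul_one]
      ring
    rw [e1]
    apply Finset.sum_le_sum
    intro a _
    apply Finset.sum_le_sum
    intro b _
    by_cases haw : u a.1 = w
    · by_cases hbw : u b.1 = w
      · by_cases haU : Sum.inr a ∈ U <;> by_cases hbU : Sum.inr b ∈ U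
        · simp [hA, hB, haw, hbw, haU, hbU]
        · simp [hA, hB, haw, hbw, haU, hbU]
        · simp [hA, hB, haw, hbw, haU, hbU]
        · simp [hA, hB, haw, hbw, haU, hbU]
      · simp [hA, hB, haw, hbw]
    · have h2 : a ∉ A := fun h => haw (Finset.mem_filter.1 h).2.1
      have h3 : a ∉ B := fun h => haw (Finset.mem_filter.1 h).2.1
      rw [if_neg h2, if_neg h3]
      have h4 := be_nonneg u x h0 a.1
      simp only [zero_mul, add_zero]
      split_ifs <;> linarith
  have hprod : (mm u w - 1) * be u x w = 1 - sw u x w / mm u w := by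
    unfold be
    have h5 : mm u w - 1 ≠ 0 := by linarith
    rw [mul_div_cancel₀ _ h5]
  have h6 : (mm u w - 1) * be u x w ≤ (A.card : ℝ) * B.card * be u x w := by
    apply mul_le_mul_of_nonneg_right _ hbe
    rw [hAB]
    nlinarith
  linarith

lemma odd_nosplit (u : E × Bool → V) (x : E → ℝ) (h0 : ∀ e, 0 ≤ x e) (h1 : ∀ e, x e ≤ 2 / 3)
    (hc : CutC u x) (U : Finset (Nd E)) (hU : Odd U.card)
    (hns : ∀ d d' : (E × Bool) × Fin 3, u d'.1 = u d.1 → Sum.inr d ∈ U → Sum.inr d' ∈ U) :
    1 ≤ cut ga gb (gy u x) U := by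
  classical
  set S : Finset V := univ.filter fun w => ∃ d : (E × Bool) × Fin 3, u d.1 = w ∧ Sum.inr d ∈ U
    with hS
  have hSd : ∀ d : (E × Bool) × Fin 3, Sum.inr d ∈ U ↔ u d.1 ∈ S := by
    intro d
    constructor
    · intro h
      exact Finset.mem_filter.2 ⟨Finset.mem_univ _, d, rfl, h⟩
    · intro h
      obtain ⟨d', hd', hd'U⟩ := (Finset.mem_filter.1 h).2
      exact hns d' d hd'.symm hd'U
  have hcutge : ∑ e : E, ((if ¬ (Sum.inl (e, false) ∈ U ↔ Sum.inl (e, true) ∈ U) then x e else 0) +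
      ((if ¬ (Sum.inl (e, false) ∈ U ↔ u (e, false) ∈ S) then 1 - x e else 0) +
       (if ¬ (Sum.inl (e, true) ∈ U ↔ u (e, true) ∈ S) then 1 - x e else 0))) ≤
      cut ga gb (gy u x) U := by
    rw [gcut, Finset.sum_add_distrib]
    have s3 : 0 ≤ ∑ d : (E × Bool) × Fin 3, ∑ d' : (E × Bool) × Fin 3,
        (if ¬ (Sum.inr d ∈ U ↔ Sum.inr d' ∈ U) then
          (if u d'.1 = u d.1 then be u x (u d.1) / 2 else 0) else 0) := by
      apply Finset.sum_nonneg
      intro a _
      apply Finset.sum_nonneg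
      intro b _
      have h4 := be_nonneg u x h0 a.1
      split_ifs <;> linarith
    have s2 : ∑ h : E × Bool, ∑ d : (E × Bool) × Fin 3, (if ¬ (Sum.inl h ∈ U ↔ Sum.inr d ∈ U) then
        (if u d.1 = u h then (1 - x h.1) / mm u (u h) else 0) else 0) =
        ∑ e : E, ((if ¬ (Sum.inl (e, false) ∈ U ↔ u (e, false) ∈ S) then 1 - x e else 0) +
       (if ¬ (Sum.inl (e, true) ∈ U ↔ u (e, true) ∈ S) then 1 - x e else 0)) := by
      have e1 : ∀ k : E × Bool, ∑ d : (E × Bool) × Fin 3,
          (if ¬ (Sum.inl k ∈ U ↔ Sum.inr d ∈ U) then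
          (if u d.1 = u k then (1 - x k.1) / mm u (u k) else 0) else 0) =
          if ¬ (Sum.inl k ∈ U ↔ u k ∈ S) then 1 - x k.1 else 0 := by
        intro k
        have e2 : ∀ d ∈ (univ : Finset ((E × Bool) × Fin 3)),
            (if ¬ (Sum.inl k ∈ U ↔ Sum.inr d ∈ U) then
            (if u d.1 = u k then (1 - x k.1) / mm u (u k) else 0) else 0) =
            (if ¬ (Sum.inl k ∈ U ↔ u k ∈ S) then (1 - x k.1) / mm u (u k) else 0) *
              (if u d.1 = u k then 1 else 0) := by
          intro d _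
          by_cases h2 : u d.1 = u k
          · have h3 := hSd d
            rw [h2] at h3
            simp only [h3, h2, if_true, mul_one]
          · simp [h2]
        rw [Finset.sum_congr rfl e2, ← Finset.mul_sum]
        have h4 := mm_ge u k
        change (if ¬ (Sum.inl k ∈ U ↔ u k ∈ S) then (1 - x k.1) / mm u (u k) else 0) *
          mm u (u k) = _
        split_ifs
        · rw [zero_mul]
        · field_simp
      rw [Finset.sum_congr rfl (fun k _ => e1 k), Fintype.sum_prod_type]
      apply Finset.sum_congr rfl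
      intro e _
      rw [Fintype.sum_bool, add_comm]
    linarith
  refine le_trans ?_ hcutge
  set T : Finset E := univ.filter fun e =>
    ¬ (¬ (Sum.inl (e, false) ∈ U ↔ u (e, false) ∈ S) ↔ ¬ (Sum.inl (e, true) ∈ U ↔ u (e, true) ∈ S))
    with hT
  have hTodd : Odd T.card := by
    rw [← ZMod.natCast_eq_one_iff_odd] at hU ⊢
    rw [← hU]
    have e1 : U.card = ∑ n : Nd E, if n ∈ U then 1 else 0 := by simp
    rw [e1, Fintype.sum_sum_type, Fintype.sum_prod_type (f := fun a => if Sum.inr a ∈ U then 1 else 0),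
      Fintype.sum_prod_type, Fintype.sum_prod_type, hT, Finset.card_filter]
    push_cast
    rw [← Finset.sum_add_distrib]
    apply Finset.sum_congr rfl
    intro e _
    rw [Fintype.sum_bool, Fintype.sum_bool]
    have e2 : ∀ b : Bool, ∑ i : Fin 3, (if Sum.inr ((e, b), i) ∈ U then (1 : ZMod 2) else 0) =
        if u (e, b) ∈ S then 1 else 0 := by
      intro b
      have e3 : ∀ i ∈ (univ : Finset (Fin 3)),
          (if Sum.inr ((e, b), i) ∈ U then (1 : ZMod 2) else 0) = if u (e, b) ∈ S then 1 else 0 := by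
        intro i _
        simp only [hSd]
      rw [Finset.sum_congr rfl e3, Finset.sum_const, Finset.card_univ, Fintype.card_fin]
      split_ifs
      · rfl
      · simp
    rw [e2, e2]
    by_cases a1 : Sum.inl (e, false) ∈ U <;> by_cases a2 : Sum.inl (e, true) ∈ U <;>
      by_cases a3 : u (e, false) ∈ S <;> by_cases a4 : u (e, true) ∈ S <;>
      simp [a1, a2, a3, a4] <;> decide
  -- termwise bounds
  set c : E → ℝ := fun e =>
    (if ¬ (Sum.inl (e, false) ∈ U ↔ Sum.inl (e, true) ∈ U) then x e else 0) +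
      ((if ¬ (Sum.inl (e, false) ∈ U ↔ u (e, false) ∈ S) then 1 - x e else 0) +
       (if ¬ (Sum.inl (e, true) ∈ U ↔ u (e, true) ∈ S) then 1 - x e else 0)) with hcdef
  have c0 : ∀ e, 0 ≤ c e := by
    intro e
    have := h0 e
    have := h1 e
    simp only [hcdef]
    split_ifs <;> linarith
  have c1 : ∀ e ∉ T, (if Lv u S e then x e else 0) ≤ c e := by
    intro e he
    have k0 := h0 e
    have k1 := h1 e
    have he' : (¬ (Sum.inl (e, false) ∈ U ↔ u (e, false) ∈ S) ↔
        ¬ (Sum.inl (e, true) ∈ U ↔ u (e, true) ∈ S)) := by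
      by_contra h
      exact he (Finset.mem_filter.2 ⟨Finset.mem_univ _, h⟩)
    simp only [hcdef, Lv]
    by_cases a1 : Sum.inl (e, false) ∈ U <;> by_cases a2 : Sum.inl (e, true) ∈ U <;>
      by_cases a3 : u (e, false) ∈ S <;> by_cases a4 : u (e, true) ∈ S <;>
      simp [a1, a2, a3, a4] at he' ⊢ <;> linarith
  have c2 : ∀ e ∈ T, 1 - x e ≤ c e := by
    intro e he
    have k0 := h0 e
    have k1 := h1 e
    have he' := (Finset.mem_filter.1 he).2
    simp only [hcdef]
    by_cases a1 : Sum.inl (e, false) ∈ U <;> by_cases a2 : Sum.inl (e, true) ∈ U <;>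
      by_cases a3 : u (e, false) ∈ S <;> by_cases a4 : u (e, true) ∈ S <;>
      simp [a1, a2, a3, a4] at he' ⊢ <;> linarith
  have c3 : ∀ e ∈ T, ¬ Lv u S e → 1 ≤ c e := by
    intro e he hl
    have k0 := h0 e
    have k1 := h1 e
    have he' := (Finset.mem_filter.1 he).2
    simp only [hcdef, Lv] at hl ⊢
    by_cases a1 : Sum.inl (e, false) ∈ U <;> by_cases a2 : Sum.inl (e, true) ∈ U <;>
      by_cases a3 : u (e, false) ∈ S <;> by_cases a4 : u (e, true) ∈ S <;>
      simp [a1, a2, a3, a4] at he' hl ⊢ <;> linarith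
  by_cases hT1 : T.card = 1
  · obtain ⟨e, he⟩ := Finset.card_eq_one.1 hT1
    have heT : e ∈ T := by rw [he]; simp
    by_cases hl : Lv u S e
    · have h2 := hc S e hl
      have h3 : ∑ f : E, (if f ≠ e ∧ Lv u S f then x f else 0) ≤ ∑ f ∈ univ.erase e, c f := by
        rw [← Finset.add_sum_erase _ _ (Finset.mem_univ e), if_neg (by simp), zero_add]
        apply Finset.sum_le_sum
        intro f hf
        have hfe : f ≠ e := (Finset.mem_erase.1 hf).1
        have hfT : f ∉ T := by rw [he]; simpa using hfe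
        have := c1 f hfT
        simpa [hfe] using this
      have h4 := c2 e heT
      rw [← Finset.add_sum_erase _ _ (Finset.mem_univ e)]
      linarith
    · exact (c3 e heT hl).trans (Finset.single_le_sum (fun f _ => c0 f) (Finset.mem_univ e))
  · have hT2 : 3 ≤ T.card := by
      obtain ⟨k, hk⟩ := hTodd
      omega
    have h2 : (T.card : ℝ) * (1 / 3) ≤ ∑ e ∈ T, c e := by
      rw [← nsmul_eq_mul, ← Finset.sum_const]
      apply Finset.sum_le_sum
      intro e he
      have := c2 e he
      have := h1 e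
      linarith
    have h3 : ∑ e ∈ T, c e ≤ ∑ e, c e :=
      Finset.sum_le_sum_of_subset_of_nonneg (Finset.subset_univ T) (fun e _ _ => c0 e)
    have h4 : (3 : ℝ) ≤ T.card := by exact_mod_cast hT2
    linarith

theorem fr (u : E × Bool → V) (x : E → ℝ) (h0 : ∀ e, 0 ≤ x e) (h1 : ∀ e, x e ≤ 2 / 3)
    (hc : CutC u x) : Fr ga gb (gy u x) := by
  refine ⟨gy_nonneg u x h0 h1, ?_, ?_⟩
  · rintro (h | d)
    · exact deg_half u x h
    · exact deg_add u x d
  · intro U hU
    by_cases hs : ∀ d d' : (E × Bool) × Fin 3, u d'.1 = u d.1 → Sum.inr d ∈ U → Sum.inr d' ∈ U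
    · exact odd_nosplit u x h0 h1 hc U hU hs
    · push Not at hs
      obtain ⟨d, d', h2, h3, h4⟩ := hs
      exact odd_split u x h0 h1 U d d' h2 h3 h4

end Pool.Agent.W831.ECC.Gad
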