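import Pool.Agent.W831.ECC.Core

set_option autoImplicit false
set_option linter.unusedSectionVars false

/-!
The lattice of circuits: parity and bridges. The cone-and-lattice form of the core theorem.
-/

namespace Pool.Agent.W831.ECC

open Finset
open Pool.Agent.Helper879.ECD (F2 IsFlow f2_add_self f2_cases cn)
open Pool.Agent.H126R2.CDC (MGraph T3 IsFl isFl_iff)
open Pool.Agent.H126R2.NC (InLat InIntCone)

variable {V E : Type} [Fintype V] [DecidableEq V] [Fintype E] [DecidableEq E]

lemma IsFl.add' {v : E × Bool → V} {g h : E → F2} (hg : IsFl v g) (hh : IsFl v h) :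
    IsFl v (fun e => g e + h e) := by
  intro w
  have h1 := hg w
  have h2 := hh w
  have h3 : ∑ k : E × Bool, (if v k = w then g k.1 + h k.1 else 0) =
      ∑ k : E × Bool, (if v k = w then g k.1 else 0) +
      ∑ k : E × Bool, (if v k = w then h k.1 else 0) := by
    rw [← Finset.sum_add_distrib]
    apply Finset.sum_congr rfl
    intro k _
    split_ifs <;> simp
  rw [h3, h1, h2, add_zero]

lemma f2_cast_ite (n : ℕ) : ((n : ℤ) : F2) = if Odd n then 1 else 0 := by
  by_cases h : Odd n
  · rw [if_pos h]
    obtain ⟨k, hk⟩ := h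
    rw [hk]
    push_cast
    have : (2 : F2) = 0 := rfl
    rw [this, zero_mul, zero_add]
  · rw [if_neg h]
    rw [Nat.not_odd_iff_even] at h
    obtain ⟨k, hk⟩ := h
    rw [hk]
    push_cast
    exact f2_add_self _

lemma flow_of_lat (G : MGraph V E) (v : E × Bool → V)
    (hv : ∀ e, G.ends e = s(v (e, false), v (e, true))) (x : E → ℤ)
    (hx : x ∈ AddSubgroup.closure
      {x : E → ℤ | ∃ C, G.IsCircuit C ∧ x = fun e => if e ∈ C then 1 else 0}) :
    IsFl v (fun e => (x e : F2)) := by
  induction hx using AddSubgroup.closure_induction with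
  | mem x hx =>
    obtain ⟨C, hC, rfl⟩ := hx
    have h1 := (G.isEven_iff v hv C).1 hC.isEven
    have h2 : (fun e => ((if e ∈ C then (1 : ℤ) else 0 : ℤ) : F2)) =
        fun e => if e ∈ C then (1 : F2) else 0 := by
      ext e
      split_ifs <;> simp
    rw [h2]
    exact h1
  | zero =>
    intro w
    simp
  | add x y _ _ hx hy =>
    have h1 := IsFl.add' hx hy
    have h2 : (fun e => (((x + y) e : ℤ) : F2)) = fun e => ((x e : ℤ) : F2) + ((y e : ℤ) : F2) := by
      ext e
      rw [Pi.add_apply]
      push_cast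
      rfl
    rw [h2]
    exact h1
  | neg x _ hx =>
    have h2 : (fun e => (((-x) e : ℤ) : F2)) = fun e => ((x e : ℤ) : F2) := by
      ext e
      rw [Pi.neg_apply]
      push_cast
      rcases f2_cases ((x e : ℤ) : F2) with h | h <;> rw [h] <;> decide
    rw [h2]
    exact hx

lemma parity_of_lat (G : MGraph V E) (p : E → ℕ) (h : InLat G p) :
    G.IsEven (univ.filter fun e => Odd (p e)) := by
  obtain ⟨v, hv⟩ := G.exists_halves
  rw [G.isEven_iff v hv]
  have h1 := flow_of_lat G v hv _ h
  have h2 : (fun e => (((p e : ℕ) : ℤ) : F2)) =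
      fun e => if e ∈ univ.filter (fun e => Odd (p e)) then (1 : F2) else 0 := by
    ext e
    rw [f2_cast_ite]
    simp
  rw [← h2]
  exact h1

lemma zero_of_lat (G : MGraph V E) (e : E) (he : ∀ C, G.IsCircuit C → e ∉ C) (x : E → ℤ)
    (hx : x ∈ AddSubgroup.closure
      {x : E → ℤ | ∃ C, G.IsCircuit C ∧ x = fun e => if e ∈ C then 1 else 0}) : x e = 0 := by
  induction hx using AddSubgroup.closure_induction with
  | mem x hx =>
    obtain ⟨C, hC, rfl⟩ := hx
    simp [he C hC]
  | zero => rfl
  | add x y _ _ hx hy => rw [Pi.add_apply, hx, hy, add_zero]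
  | neg x _ hx => rw [Pi.neg_apply, hx, neg_zero]

lemma bridgeless_of_lat (G : MGraph V E) (p : E → ℕ) (h : InLat G p) (hpos : ∀ e, 0 < p e) :
    G.Bridgeless := by
  intro e
  by_contra hcon
  push Not at hcon
  have h1 := zero_of_lat G e hcon _ h
  have h2 := hpos e
  have h3 : (p e : ℤ) = 0 := h1
  omega

/-- Every weighting in the lattice of the circuits which stays in the cone of the circuits after
subtracting `60 sqrt(max p * log(2|E|))` from all its values has a circuit cover. -/
theorem deep (G : MGraph V E) (p : E → ℕ) (hlat : InLat G p) (L : ℝ) (M : ℕ)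
    (hM : ∀ e, p e ≤ M)
    (hL : 60 * Real.sqrt (M * Real.log (2 * Fintype.card E)) ≤ L)
    (hc : RCone G (fun e => (p e : ℝ) - L)) : InIntCone G p := by
  by_cases hE : IsEmpty E
  · exact ⟨0, by simp, fun e => (hE.false e).elim⟩
  rw [not_isEmpty_iff] at hE
  obtain ⟨e0⟩ := hE
  rcases Nat.eq_zero_or_pos M with hM0 | hM0
  · exact intCone_zero G p (fun e => by have := hM e; omega)
  have hcard : 1 ≤ Fintype.card E := Fintype.card_pos_iff.2 ⟨e0⟩
  have hc1 : (1 : ℝ) ≤ Fintype.card E := by exact_mod_cast hcard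
  have hM1 : (1 : ℝ) ≤ M := by exact_mod_cast hM0
  have hL0 : 0 < L := by
    refine lt_of_lt_of_le ?_ hL
    have h1 : 0 < Real.log (2 * Fintype.card E) := Real.log_pos (by linarith)
    have h2 : 0 < Real.sqrt (M * Real.log (2 * Fintype.card E)) :=
      Real.sqrt_pos.2 (mul_pos (by linarith) h1)
    linarith
  have hpos : ∀ e, 0 < p e := by
    intro e
    have h1 := hc.nonneg e
    have h2 : (0 : ℝ) < p e := by linarith
    exact_mod_cast h2
  exact core G p (bridgeless_of_lat G p hlat hpos) (parity_of_lat G p hlat) L M hM hL hc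

end Pool.Agent.W831.ECC
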