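import Pool.Agent.W831.ECC.Gad2
import Pool.Agent.W831.ECC.Lat

set_option autoImplicit false
set_option linter.unusedSectionVars false
set_option linter.unusedVariables false

/-!
Even rounding and the sums of circuits theorem.
-/

namespace Pool.Agent.W831.ECC.Gad

open Finset
open Pool.Agent.H249R2.PM (Cr cut Fr IsPM round cut_eq_ite Cr_singleton)
open Pool.Agent.Helper879.ECD (F2 f2_add_self)
open Pool.Agent.H126R2.CDC (IsFl)

variable {V E : Type} [Fintype V] [DecidableEq V] [Fintype E] [DecidableEq E]

/-- vertex of a node -/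
def nv (u : E × Bool → V) : Nd E → V
  | Sum.inl h => u h
  | Sum.inr d => u d.1

lemma two_ends (u : E × Bool → V) (w : V) (n1 n2 : Nd E) :
    ∑ n : Nd E, (if nv u n = w then (if ¬ (n1 = n ↔ n2 = n) then (1 : F2) else 0) else 0) =
      (if nv u n1 = w then 1 else 0) + (if nv u n2 = w then 1 else 0) := by
  have h1 : ∀ n ∈ (univ : Finset (Nd E)),
      (if nv u n = w then (if ¬ (n1 = n ↔ n2 = n) then (1 : F2) else 0) else 0) =
      (if n = n1 then (if nv u n1 = w then 1 else 0) else 0) +
      (if n = n2 then (if nv u n2 = w then 1 else 0) else 0) := by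
    intro n _
    by_cases a1 : n = n1
    · subst a1
      by_cases a2 : n = n2
      · subst a2
        simp only [if_true, iff_self, not_true, if_false, ite_self]
        rw [f2_add_self]
      · have a3 : ¬ (n2 = n) := fun h => a2 h.symm
        simp [a2, a3]
    · have a0 : ¬ (n1 = n) := fun h => a1 h.symm
      by_cases a2 : n = n2
      · subst a2
        simp [a0, a1]
      · have a3 : ¬ (n2 = n) := fun h => a2 h.symm
        simp [a0, a1, a2, a3]
  rw [Finset.sum_congr rfl h1, Finset.sum_add_distrib, Finset.sum_ite_eq', Finset.sum_ite_eq']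
  simp

theorem even_round (u : E × Bool → V) (x : E → ℝ) (h0 : ∀ e, 0 ≤ x e) (h1 : ∀ e, x e ≤ 2 / 3)
    (hc : CutC u x) (l : E → ℝ) :
    ∃ D : Finset E, IsFl u (fun e => if e ∈ D then 1 else 0) ∧
      ∑ e ∈ D, l e ≤ ∑ e, l e * x e := by
  classical
  obtain ⟨M, hM, hpos, hle⟩ := round (E := Ed E) (Fintype.card (Nd E)) (Nd E) rfl
    (by
      rw [Fintype.card_sum, Fintype.card_prod, Fintype.card_prod, Fintype.card_bool,
        Fintype.card_fin, Fintype.card_prod, Fintype.card_bool]
      exact ⟨4 * Fintype.card E, by ring⟩)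
    ga gb (gy u x) (Sum.elim l (fun _ => 0)) (fr u x h0 h1 hc)
  refine ⟨univ.filter (fun e => Sum.inl e ∈ M), ?_, ?_⟩
  · intro w
    have e1 : ∀ n ∈ (univ : Finset (Nd E)),
        (if nv u n = w then (((M.filter (Cr ga gb {n})).card : ℕ) : F2) else 0) =
        (if nv u n = w then (1 : F2) else 0) := by
      intro n _
      rw [hM.deg n, Nat.cast_one]
    have e2 := Finset.sum_congr rfl e1
    have e3 : ∑ n : Nd E, (if nv u n = w then (1 : F2) else 0) = 0 := by
      rw [Fintype.sum_sum_type, Fintype.sum_prod_type (f := fun a : (E × Bool) × Fin 3 =>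
        if nv u (Sum.inr a) = w then (1 : F2) else 0), ← Finset.sum_add_distrib]
      apply Finset.sum_eq_zero
      intro h _
      simp only [nv, Finset.sum_const, Finset.card_univ, Fintype.card_fin]
      by_cases hh : u h = w
      · simp only [hh, if_true]; decide
      · simp [hh]
    rw [e3] at e2
    have e4 : ∀ n ∈ (univ : Finset (Nd E)),
        (if nv u n = w then (((M.filter (Cr ga gb {n})).card : ℕ) : F2) else 0) =
        ∑ e ∈ M, (if nv u n = w then (if ¬ (ga e = n ↔ gb e = n) then (1 : F2) else 0) else 0) := by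
      intro n _
      by_cases hn : nv u n = w
      · simp only [hn, if_true]
        rw [Finset.card_filter]
        push_cast
        apply Finset.sum_congr rfl
        intro e _
        simp only [Cr_singleton]
      · simp [hn]
    rw [Finset.sum_congr rfl e4, Finset.sum_comm] at e2
    rw [Finset.sum_congr rfl (fun e _ => two_ends u w (ga e) (gb e))] at e2
    have e5 : ∑ e ∈ M, ((if nv u (ga e) = w then (1 : F2) else 0) +
        (if nv u (gb e) = w then 1 else 0)) =
        ∑ e : Ed E, (if e ∈ M then ((if nv u (ga e) = w then (1 : F2) else 0) +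
        (if nv u (gb e) = w then 1 else 0)) else 0) := by
      rw [Finset.sum_ite_mem, Finset.univ_inter]
    rw [e5, Fintype.sum_sum_type] at e2
    have e6 : ∑ a : ((E × Bool) × ((E × Bool) × Fin 3)) ⊕ (((E × Bool) × Fin 3) × ((E × Bool) × Fin 3)),
        (if (Sum.inr a : Ed E) ∈ M then ((if nv u (ga (Sum.inr a)) = w then (1 : F2) else 0) +
        (if nv u (gb (Sum.inr a)) = w then 1 else 0)) else 0) = 0 := by
      apply Finset.sum_eq_zero
      intro a _
      by_cases ha : (Sum.inr a : Ed E) ∈ M
      · rw [if_pos ha]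
        have hp := hpos _ ha
        have hnv : nv u (ga (Sum.inr a)) = nv u (gb (Sum.inr a)) := by
          rcases a with ⟨h, d⟩ | ⟨d, d'⟩
          · simp only [gy] at hp
            split_ifs at hp with hh
            · simp only [ga, gb, nv]
              exact hh.symm
            · exact absurd hp (lt_irrefl _)
          · simp only [gy] at hp
            split_ifs at hp with hh
            · simp only [ga, gb, nv]
              exact hh.symm
            · exact absurd hp (lt_irrefl _)
        rw [hnv, f2_add_self]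
      · rw [if_neg ha]
    rw [e6, add_zero] at e2
    rw [Fintype.sum_prod_type]
    refine Eq.trans ?_ e2
    apply Finset.sum_congr rfl
    intro e _
    rw [Fintype.sum_bool]
    simp only [ga, gb, nv, Finset.mem_filter, Finset.mem_univ, true_and]
    by_cases he : Sum.inl e ∈ M
    · simp only [he, if_true]
      rw [add_comm]
      congr 1
    · simp [he]
  · have e1 : ∑ e ∈ M, (Sum.elim l (fun _ => (0 : ℝ)) : Ed E → ℝ) e =
        ∑ e ∈ univ.filter (fun e => (Sum.inl e : Ed E) ∈ M), l e := by
      have e2 : ∑ e ∈ M, (Sum.elim l (fun _ => (0 : ℝ)) : Ed E → ℝ) e =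
          ∑ e : Ed E, if e ∈ M then (Sum.elim l (fun _ => (0 : ℝ)) : Ed E → ℝ) e else 0 := by
        rw [Finset.sum_ite_mem, Finset.univ_inter]
      rw [e2, Fintype.sum_sum_type, Finset.sum_filter]
      simp
    rw [← e1]
    refine hle.trans (le_of_eq ?_)
    rw [Finset.sum_filter, Fintype.sum_sum_type]
    have e3 : ∑ a : ((E × Bool) × ((E × Bool) × Fin 3)) ⊕ (((E × Bool) × Fin 3) × ((E × Bool) × Fin 3)),
        (if ga (Sum.inr a) ≠ gb (Sum.inr a) then
          (Sum.elim l (fun _ => (0 : ℝ)) : Ed E → ℝ) (Sum.inr a) * gy u x (Sum.inr a) else 0) = 0 := by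
      apply Finset.sum_eq_zero
      intro a _
      simp
    rw [e3, add_zero]
    apply Finset.sum_congr rfl
    intro e _
    rw [if_pos]
    · rfl
    · simp [ga, gb]

end Pool.Agent.W831.ECC.Gad
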