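import Pool.Agent.W831.ECC.Slack

set_option autoImplicit false
set_option linter.unusedSectionVars false
set_option linter.unusedVariables false

/-!
Eulerian admissible weights: from conditions on the cuts to the conditions used in the core.
-/

namespace Pool.Agent.W831.ECC

open Finset
open Pool.Agent.Helper879.ECD (F2 f2_add_self f2_cases IsFlow)
open Pool.Agent.H126R2.CDC (MGraph IsFl isFl_iff)
open Pool.Agent.H126R2.NC (InLat InIntCone InCone TC circuit_tc)
open Pool.Agent.W831.ECC.Gad (CutC Lv even_round)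

variable {V E : Type} [Fintype V] [DecidableEq V] [Fintype E] [DecidableEq E]

lemma lv_iff_z (v : E × Bool → V) (z : V → F2) (e : E) :
    Lv v (univ.filter (fun w => z w = 1)) e ↔ z (v (e, false)) + z (v (e, true)) = 1 := by
  unfold Lv
  simp only [Finset.mem_filter, Finset.mem_univ, true_and]
  rcases f2_cases (z (v (e, false))) with h1 | h1 <;>
    rcases f2_cases (z (v (e, true))) with h2 | h2 <;> rw [h1, h2] <;> decide

/-- parity of an eulerian weight -/
lemma parity_of_eul (G : MGraph V E) (v : E × Bool → V)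
    (hv : ∀ e, G.ends e = s(v (e, false), v (e, true))) (w : E → ℕ)
    (heul : ∀ S : Finset V, Even (∑ e ∈ univ.filter (fun e => Lv v S e), w e)) :
    G.IsEven (univ.filter fun e => Odd (w e)) := by
  rw [G.isEven_iff v hv, isFl_iff]
  intro c
  have h1 := heul (univ.filter (fun x => c x = 1))
  have h2 : ((∑ e ∈ univ.filter (fun e => Lv v (univ.filter (fun x => c x = 1)) e), w e : ℕ) : F2) = 0 :=
    (ZMod.natCast_eq_zero_iff_even).2 h1
  rw [Finset.sum_filter] at h2
  push_cast at h2
  refine Eq.trans ?_ h2
  apply Finset.sum_congr rfl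
  intro e _
  have h3 : ((w e : ℕ) : F2) = if Odd (w e) then 1 else 0 := by
    have := f2_cast_ite (w e)
    rwa [Int.cast_natCast] at this
  have h4 := lv_iff_z v c e
  rw [show (if Lv v (univ.filter (fun x => c x = 1)) e then ((w e : ℕ) : F2) else 0) =
    (if c (v (e, false)) + c (v (e, true)) = 1 then ((w e : ℕ) : F2) else 0) by
      by_cases h : Lv v (univ.filter (fun x => c x = 1)) e
      · rw [if_pos h, if_pos (h4.1 h)]
      · rw [if_neg h, if_neg (fun h' => h (h4.2 h'))]]
  rw [h3]
  rcases f2_cases (c (v (e, false)) + c (v (e, true))) with h6 | h6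
  · rw [h6]; simp
  · rw [h6]; simp

/-- admissible weights are constant on two-edge cuts -/
lemma tc_of_adm (v : E × Bool → V) (w : E → ℕ)
    (hadm : ∀ (S : Finset V) (e : E), Lv v S e →
      2 * w e ≤ ∑ f ∈ univ.filter (fun f => Lv v S f), w f) : TCc v w := by
  intro e f hef
  by_cases h0 : e = f
  · rw [h0]
  obtain ⟨z, hz⟩ := hef
  have h1 : univ.filter (fun g => Lv v (univ.filter (fun x => z x = 1)) g) = {e, f} := by
    ext g
    simp only [Finset.mem_filter, Finset.mem_univ, true_and, Finset.mem_insert,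
      Finset.mem_singleton]
    have h2 := lv_iff_z v z g
    rw [h2]
    have h3 := hz g
    dsimp only at h3
    rw [h3]
    by_cases h4 : g = e
    · rw [if_pos h4, if_neg (fun h => h0 (h4.symm.trans h))]
      simp [h4]
    · by_cases h5 : g = f
      · rw [if_neg h4, if_pos h5]
        simp [h5]
      · rw [if_neg h4, if_neg h5]
        simp [h4, h5]
  have he : Lv v (univ.filter (fun x => z x = 1)) e := by
    have : e ∈ univ.filter (fun g => Lv v (univ.filter (fun x => z x = 1)) g) := by rw [h1]; simp
    exact (Finset.mem_filter.1 this).2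
  have hf : Lv v (univ.filter (fun x => z x = 1)) f := by
    have : f ∈ univ.filter (fun g => Lv v (univ.filter (fun x => z x = 1)) g) := by rw [h1]; simp
    exact (Finset.mem_filter.1 this).2
  have h2 := hadm _ e he
  have h3 := hadm _ f hf
  rw [h1, Finset.sum_pair h0] at h2 h3
  omega

/-- positive admissible weights exist only on bridgeless graphs -/
lemma bridgeless_of_adm (G : MGraph V E) (v : E × Bool → V)
    (hv : ∀ e, G.ends e = s(v (e, false), v (e, true))) (w : E → ℕ) (hpos : ∀ e, 0 < w e)
    (hadm : ∀ (S : Finset V) (e : E), Lv v S e →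
      2 * w e ≤ ∑ f ∈ univ.filter (fun f => Lv v S f), w f) : G.Bridgeless := by
  have h4 : RCone G (fun _ => (1 : ℝ)) := by
    apply rcone_of_cut G v hv _ (fun _ => zero_le_one)
    intro S e he
    have h5 : 1 ≤ (univ.filter (fun f => f ≠ e ∧ Lv v S f)).card := by
      by_contra hcon
      have h6 : univ.filter (fun f => f ≠ e ∧ Lv v S f) = ∅ := by
        rw [← Finset.card_eq_zero]; omega
      have h7 : univ.filter (fun f => Lv v S f) = {e} := by
        ext f
        simp only [Finset.mem_filter, Finset.mem_univ, true_and, Finset.mem_singleton]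
        constructor
        · intro hf
          by_contra hfe
          have : f ∈ univ.filter (fun f => f ≠ e ∧ Lv v S f) :=
            Finset.mem_filter.2 ⟨Finset.mem_univ _, hfe, hf⟩
          rw [h6] at this
          exact absurd this (Finset.notMem_empty _)
        · rintro rfl
          exact he
      have h8 := hadm S e he
      rw [h7, Finset.sum_singleton] at h8
      have := hpos e
      omega
    rw [← Finset.sum_filter, Finset.sum_const, nsmul_eq_mul, mul_one]
    show (1 : ℝ) ≤ _
    exact_mod_cast h5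
  obtain ⟨w', h0, h1, h2⟩ := h4
  intro e
  by_contra hcon
  push Not at hcon
  have h5 : (1 : ℝ) = 0 := by
    refine (h2 e).trans ?_
    apply Finset.sum_eq_zero
    intro C _
    by_cases hC : G.IsCircuit C
    · rw [if_neg (hcon C hC), mul_zero]
    · rw [h1 C hC, zero_mul]
  exact one_ne_zero h5

/-- Goddyn's conjecture for large weights with relative slack in the cuts. -/
theorem goddyn_slack (ε : ℝ) (hε : 0 < ε) (hε1 : ε ≤ 1) (G : MGraph V E) (w : E → ℕ)
    (heul : ∀ (S : Finset V) (B : Finset E), (∀ f, f ∈ B ↔ f ∈ cutEdges G S) →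
      Even (∑ e ∈ B, w e))
    (hadm : ∀ (S : Finset V) (B : Finset E), (∀ f, f ∈ B ↔ f ∈ cutEdges G S) →
      ∀ e ∈ B, 2 * w e ≤ ∑ f ∈ B, w f)
    (hlo : ∀ e, 40000 / ε ^ 2 * Real.log (2 * Fintype.card E) ≤ w e)
    (hsl : ∀ (S : Finset V) (B : Finset E), (∀ f, f ∈ B ↔ f ∈ cutEdges G S) → 3 ≤ B.card →
      ∀ e ∈ B, (w e : ℝ) ≤ (1 - ε) * ∑ f ∈ B.erase e, (w f : ℝ)) : InIntCone G w := by
  by_cases hE : IsEmpty E
  · exact ⟨0, by simp, fun e => (hE.false e).elim⟩
  rw [not_isEmpty_iff] at hE
  obtain ⟨e0⟩ := hE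
  obtain ⟨v, hv⟩ := G.exists_halves
  have hcard : 1 ≤ Fintype.card E := Fintype.card_pos_iff.2 ⟨e0⟩
  have hc1 : (1 : ℝ) ≤ Fintype.card E := by exact_mod_cast hcard
  have hpos : ∀ e, 0 < w e := by
    intro e
    have h1 := hlo e
    have h2 : 0 < 40000 / ε ^ 2 * Real.log (2 * Fintype.card E) :=
      mul_pos (by positivity) (Real.log_pos (by linarith))
    have h3 : (0 : ℝ) < w e := by linarith
    exact_mod_cast h3
  have hmem : ∀ (S : Finset V) (f : E), f ∈ univ.filter (fun f => Lv v S f) ↔ f ∈ cutEdges G S := by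
    intro S f
    rw [mem_cutEdges G v hv]
    simp
  have hadm' : ∀ (S : Finset V) (e : E), Lv v S e →
      2 * w e ≤ ∑ f ∈ univ.filter (fun f => Lv v S f), w f := by
    intro S e he
    exact hadm S _ (hmem S) e (by simp [he])
  exact slack_core ε hε hε1 G w (bridgeless_of_adm G v hv w hpos hadm') v hv
    (tc_of_adm v w hadm') (parity_of_eul G v hv w (fun S => heul S _ (hmem S))) hlo hsl

end Pool.Agent.W831.ECC
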