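import Pool.Agent.W831.ECC.Soc

set_option autoImplicit false
set_option linter.unusedSectionVars false
set_option linter.unusedVariables false

/-!
Even weights on graphs in which every nonempty cut has at least three edges.
-/

namespace Pool.Agent.W831.ECC

open Finset
open Pool.Agent.Helper879.ECD (F2 f2_add_self IsFlow)
open Pool.Agent.H126R2.CDC (MGraph IsFl isFl_iff)
open Pool.Agent.H126R2.NC (InLat InIntCone InCone cone_lat_of_intCone)
open Pool.Agent.W831.ECC.Gad (CutC Lv even_round)

variable {V E : Type} [Fintype V] [DecidableEq V] [Fintype E] [DecidableEq E]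

/-- the edges with exactly one end in `S` -/
def cutEdges (G : MGraph V E) (S : Finset V) : Set E :=
  {e | ∃ a ∈ S, ∃ b ∉ S, G.ends e = s(a, b)}

lemma mem_cutEdges (G : MGraph V E) (v : E × Bool → V)
    (hv : ∀ e, G.ends e = s(v (e, false), v (e, true))) (S : Finset V) (e : E) :
    e ∈ cutEdges G S ↔ Lv v S e := by
  unfold cutEdges Lv
  rw [Set.mem_ofPred_eq, hv e]
  constructor
  · rintro ⟨a, ha, b, hb, h⟩
    rw [Sym2.eq_iff] at h
    rcases h with ⟨h1, h2⟩ | ⟨h1, h2⟩
    · rw [h1, h2]
      exact fun h => hb (h.1 ha)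
    · rw [h1, h2]
      exact fun h => hb (h.2 ha)
  · intro h
    by_cases h1 : v (e, false) ∈ S
    · refine ⟨_, h1, v (e, true), fun h2 => h ⟨fun _ => h2, fun _ => h1⟩, rfl⟩
    · have h2 : v (e, true) ∈ S := by
        by_contra h2
        exact h ⟨fun h3 => absurd h3 h1, fun h3 => absurd h3 h2⟩
      exact ⟨_, h2, v (e, false), h1, Sym2.eq_swap⟩

/-- Graphs in which every nonempty cut has at least three edges: even weights. -/
theorem three_ec (ε : ℝ) (hε : 0 < ε) (hε1 : ε ≤ 1) (G : MGraph V E)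
    (h3 : ∀ S : Finset V, cutEdges G S = ∅ ∨ 3 ≤ (cutEdges G S).ncard) (p : E → ℕ)
    (hev : ∀ e, Even (p e))
    (hlo : ∀ e, 7200 / ε ^ 2 * Real.log (2 * Fintype.card E) ≤ p e)
    (hr : ∀ e f, (p e : ℝ) ≤ (2 - ε) * p f) : InIntCone G p := by
  classical
  by_cases hE : IsEmpty E
  · exact ⟨0, by simp, fun e => (hE.false e).elim⟩
  rw [not_isEmpty_iff] at hE
  obtain ⟨v, hv⟩ := G.exists_halves
  obtain ⟨e0, -, he0⟩ := Finset.exists_max_image (univ : Finset E) p Finset.univ_nonempty
  obtain ⟨e1, -, he1⟩ := Finset.exists_min_image (univ : Finset E) p Finset.univ_nonempty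
  have hcard : 1 ≤ Fintype.card E := Fintype.card_pos_iff.2 ⟨e0⟩
  have hc1 : (1 : ℝ) ≤ Fintype.card E := by exact_mod_cast hcard
  set ℓ := Real.log (2 * Fintype.card E) with hℓ
  have hℓ0 : 0 < ℓ := Real.log_pos (by linarith)
  set μ : ℝ := (p e1 : ℝ) with hμ
  have hμ1 : 7200 / ε ^ 2 * ℓ ≤ μ := hlo e1
  have hμ0 : 0 < μ := lt_of_lt_of_le (by positivity) hμ1
  have hmin : ∀ e, μ ≤ p e := fun e => by
    have := he1 e (Finset.mem_univ e)
    rw [hμ]; exact_mod_cast this
  set L : ℝ := ε * μ with hL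
  have hLμ : L ≤ μ := by rw [hL]; nlinarith
  have hother : ∀ (S : Finset V) (e : E), Lv v S e →
      2 ≤ (univ.filter (fun f => f ≠ e ∧ Lv v S f)).card := by
    intro S e he
    have h4 : e ∈ cutEdges G S := (mem_cutEdges G v hv S e).2 he
    rcases h3 S with h5 | h5
    · rw [h5] at h4; exact absurd h4 (Set.notMem_empty _)
    · have h6 : cutEdges G S = ((univ.filter (fun f => Lv v S f) : Finset E) : Set E) := by
        ext f
        rw [mem_cutEdges G v hv]
        simp
      rw [h6, Set.ncard_coe_finset] at h5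
      have h7 : univ.filter (fun f => f ≠ e ∧ Lv v S f) = (univ.filter (fun f => Lv v S f)).erase e := by
        ext f
        simp [Finset.mem_erase]
      rw [h7, Finset.card_erase_of_mem (by simp [he])]
      omega
  have hbr : G.Bridgeless := by
    have h4 : RCone G (fun _ => (1 : ℝ)) := by
      apply rcone_of_cut G v hv _ (fun _ => zero_le_one)
      intro S e he
      have h5 := hother S e he
      rw [← Finset.sum_filter, Finset.sum_const, nsmul_eq_mul, mul_one]
      have h6 : (2 : ℝ) ≤ (univ.filter (fun f => f ≠ e ∧ Lv v S f)).card := by exact_mod_cast h5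
      linarith
    obtain ⟨w, h0, h1, h2⟩ := h4
    intro e
    by_contra hcon
    push Not at hcon
    have h5 : (1 : ℝ) = 0 := by
      refine (h2 e).trans ?_
      apply Finset.sum_eq_zero
      intro C _
      by_cases hC : G.IsCircuit C
      · rw [if_neg (hcon C hC), mul_zero]
      · rw [h1 C hC, zero_mul]
    exact one_ne_zero h5
  have hpar : G.IsEven (univ.filter fun e => Odd (p e)) := by
    have h4 : (univ.filter fun e => Odd (p e)) = ∅ := by
      ext e
      simp only [Finset.mem_filter, Finset.mem_univ, true_and, Finset.notMem_empty, iff_false]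
      rw [Nat.not_odd_iff_even]
      exact hev e
    rw [h4]
    intro w
    simp [MGraph.deg]
  apply core G p hbr hpar L (p e0) (fun e => he0 e (Finset.mem_univ e))
  · -- depth
    rw [← hℓ]
    have h1 : (p e0 : ℝ) ≤ 2 * μ := by
      have := hr e0 e1
      nlinarith
    have h2 : Real.sqrt ((p e0 : ℝ) * ℓ) ≤ L / 60 := by
      apply Real.sqrt_le_iff.2
      refine ⟨by positivity, ?_⟩
      have h3 : 7200 * ℓ ≤ μ * ε ^ 2 := by
        have h4 : 7200 / ε ^ 2 * ℓ = 7200 * ℓ / ε ^ 2 := by ring
        rw [h4, div_le_iff₀ (by positivity)] at hμ1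
        exact hμ1
      have h5 : (p e0 : ℝ) * ℓ ≤ 2 * μ * ℓ := mul_le_mul_of_nonneg_right h1 hℓ0.le
      have h6 : μ * (7200 * ℓ) ≤ μ * (μ * ε ^ 2) := mul_le_mul_of_nonneg_left h3 hμ0.le
      rw [hL, div_pow, mul_pow]
      nlinarith
    linarith
  · apply rcone_of_cut G v hv
    · intro e
      have := hmin e
      linarith
    · intro S e he
      set D : Finset E := univ.filter (fun f => f ≠ e ∧ Lv v S f) with hD
      have hy : ∀ y : E → ℝ, ∑ f : E, (if f ≠ e ∧ Lv v S f then y f else 0) = ∑ f ∈ D, y f := by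
        intro y
        rw [hD, Finset.sum_filter]
      rw [hy]
      have h2 : ∑ f ∈ D, ((p f : ℝ) - L) = ∑ f ∈ D, (p f : ℝ) - D.card * L := by
        rw [Finset.sum_sub_distrib, Finset.sum_const, nsmul_eq_mul]
      rw [h2]
      have hk := hother S e he
      have h3 : (D.card : ℝ) * μ ≤ ∑ f ∈ D, (p f : ℝ) := by
        rw [← nsmul_eq_mul, ← Finset.sum_const]
        exact Finset.sum_le_sum (fun f _ => hmin f)
      have h4 : (2 : ℝ) ≤ D.card := by exact_mod_cast hk
      have h5 := hr e e1
      have h6 : (D.card : ℝ) * (μ - L) ≥ 2 * (μ - L) :=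
        mul_le_mul_of_nonneg_right h4 (by linarith)
      have h7 : (p e : ℝ) ≤ 2 * μ - L := by
        rw [hL]
        have : (p e : ℝ) ≤ (2 - ε) * μ := h5
        linarith
      nlinarith

end Pool.Agent.W831.ECC
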