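import Pool.Agent.W831.ECC.Batch
import Pool.Agent.W831.ECC.Three

set_option autoImplicit false
set_option linter.unusedSectionVars false
set_option linter.unusedVariables false

/-!
Weightings in the lattice with relative slack in all cut inequalities.
-/

namespace Pool.Agent.W831.ECC

open Finset
open Pool.Agent.Helper879.ECD (F2 f2_add_self IsFlow)
open Pool.Agent.H126R2.CDC (MGraph IsFl isFl_iff)
open Pool.Agent.H126R2.NC (InLat InIntCone InCone TC circuit_tc)
open Pool.Agent.W831.ECC.Gad (CutC Lv even_round)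

variable {V E : Type} [Fintype V] [DecidableEq V] [Fintype E] [DecidableEq E]

lemma tc_of_lat (G : MGraph V E) (v : E × Bool → V)
    (hv : ∀ e, G.ends e = s(v (e, false), v (e, true))) {e f : E}
    (hef : TC (fun e => v (e, false)) (fun e => v (e, true)) e f) (x : E → ℤ)
    (hx : x ∈ AddSubgroup.closure
      {x : E → ℤ | ∃ C, G.IsCircuit C ∧ x = fun e => if e ∈ C then 1 else 0}) : x e = x f := by
  induction hx using AddSubgroup.closure_induction with
  | mem x hx =>
    obtain ⟨C, hC, rfl⟩ := hx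
    have := circuit_tc G v hv hC hef
    by_cases he : e ∈ C
    · simp [he, this.1 he]
    · have hf : f ∉ C := fun h => he (this.2 h)
      simp [he, hf]
  | zero => rfl
  | add x y _ _ hx hy => rw [Pi.add_apply, Pi.add_apply, hx, hy]
  | neg x _ hx => rw [Pi.neg_apply, Pi.neg_apply, hx]

lemma tc_of_two (v : E × Bool → V) (S : Finset V) (e f : E) (hef : f ≠ e)
    (h : ∀ g, Lv v S g ↔ g = e ∨ g = f) :
    TC (fun e => v (e, false)) (fun e => v (e, true)) e f := by
  refine ⟨fun w => if w ∈ S then 1 else 0, fun g => ?_⟩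
  have h1 := h g
  unfold Lv at h1
  dsimp only
  by_cases h2 : v (g, false) ∈ S <;> by_cases h3 : v (g, true) ∈ S
  · have h4 : ¬ (g = e ∨ g = f) := fun h5 => h1.2 h5 ⟨fun _ => h3, fun _ => h2⟩
    push Not at h4
    rw [if_pos h2, if_pos h3, if_neg h4.1, if_neg h4.2, f2_add_self, add_zero]
  · have h4 : g = e ∨ g = f := h1.1 (fun h5 => h3 (h5.1 h2))
    rw [if_pos h2, if_neg h3]
    rcases h4 with h4 | h4
    · rw [if_pos h4, if_neg (fun h => hef (h.symm.trans h4))]
    · rw [if_pos h4, if_neg (fun h => hef (h4.symm.trans h)), add_comm]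
  · have h4 : g = e ∨ g = f := h1.1 (fun h5 => h2 (h5.2 h3))
    rw [if_neg h2, if_pos h3]
    rcases h4 with h4 | h4
    · rw [if_pos h4, if_neg (fun h => hef (h.symm.trans h4)), add_comm]
    · rw [if_pos h4, if_neg (fun h => hef (h4.symm.trans h))]
  · have h4 : ¬ (g = e ∨ g = f) := fun h5 => h1.2 h5 ⟨fun h => absurd h h2, fun h => absurd h h3⟩
    push Not at h4
    rw [if_neg h2, if_neg h3, if_neg h4.1, if_neg h4.2]

lemma slk_of_slack (G : MGraph V E) (hbr : G.Bridgeless) (v : E × Bool → V)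
    (hv : ∀ e, G.ends e = s(v (e, false), v (e, true))) (ε : ℝ) (hε : 0 < ε) (hε1 : ε ≤ 1)
    (μ : ℝ) (hμ : 0 < μ) (p : E → ℝ) (hp : ∀ e, μ ≤ p e)
    (hsl : ∀ (S : Finset V) (e : E), Lv v S e →
      2 ≤ (univ.filter (fun f => f ≠ e ∧ Lv v S f)).card →
      p e ≤ (1 - ε) * ∑ f ∈ univ.filter (fun f => f ≠ e ∧ Lv v S f), p f) :
    Slk G v (ε / 8) (fun e => p e - ε * μ / 4) := by
  intro h htc hb
  have hq : ∀ e, 0 ≤ p e - ε * μ / 4 := by
    intro e
    have h1 := hp e
    have h2 : ε * μ ≤ 1 * μ := mul_le_mul_of_nonneg_right hε1 hμ.le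
    linarith
  have h0 : ∀ e, 0 ≤ h e := by
    intro e
    refine le_trans ?_ (hb e).1
    apply mul_nonneg _ (hq e)
    linarith
  apply rcone_of_cut G v hv h h0
  intro S e he
  set D : Finset E := univ.filter (fun f => f ≠ e ∧ Lv v S f) with hD
  rw [← Finset.sum_filter, ← hD]
  rcases Nat.lt_or_ge D.card 2 with hk | hk
  · obtain ⟨C, hC, heC⟩ := hbr e
    obtain ⟨f, hfC, hfe, hf⟩ := circuit_cut G v hv C hC S e heC he
    have hfD : f ∈ D := Finset.mem_filter.2 ⟨Finset.mem_univ _, hfe, hf⟩
    have hD1 : D.card = 1 := by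
      have : 0 < D.card := Finset.card_pos.2 ⟨f, hfD⟩
      omega
    obtain ⟨g, hg⟩ := Finset.card_eq_one.1 hD1
    have hfg : f = g := by rw [hg] at hfD; exact Finset.mem_singleton.1 hfD
    subst hfg
    have htcef : TC (fun e => v (e, false)) (fun e => v (e, true)) e f := by
      apply tc_of_two v S e f hfe
      intro g
      constructor
      · intro hgL
        by_cases hge : g = e
        · exact Or.inl hge
        · right
          have : g ∈ D := Finset.mem_filter.2 ⟨Finset.mem_univ _, hge, hgL⟩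
          rw [hg] at this
          exact Finset.mem_singleton.1 this
      · rintro (hge | hgf)
        · rw [hge]; exact he
        · rw [hgf]; exact hf
    rw [hg, Finset.sum_singleton, htc e f htcef]
  · have h1 := hsl S e he hk
    rw [← hD] at h1
    set P : ℝ := ∑ f ∈ D, p f with hP
    have h2 : (D.card : ℝ) * μ ≤ P := by
      rw [← nsmul_eq_mul, ← Finset.sum_const]
      exact Finset.sum_le_sum (fun f _ => hp f)
    have h3 : (1 - ε / 4) * (P - D.card * (ε * μ / 4)) ≤ ∑ f ∈ D, h f := by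
      have h4 : (1 - ε / 4) * (P - D.card * (ε * μ / 4)) =
          ∑ f ∈ D, (1 - 2 * (ε / 8)) * (p f - ε * μ / 4) := by
        rw [← Finset.mul_sum, Finset.sum_sub_distrib, Finset.sum_const, nsmul_eq_mul]
        ring
      rw [h4]
      exact Finset.sum_le_sum (fun f _ => (hb f).1)
    have h4 : h e ≤ (1 + ε / 4) * p e := by
      refine (hb e).2.trans ?_
      have h5 : 0 ≤ ε * μ / 4 := by positivity
      have h6 : (1 + 2 * (ε / 8)) * (p e - ε * μ / 4) =
        (1 + ε / 4) * p e - (1 + ε / 4) * (ε * μ / 4) := by ring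
      rw [h6]
      have h7 : 0 ≤ (1 + ε / 4) * (ε * μ / 4) := by positivity
      linarith
    have hP0 : 0 ≤ P := by
      refine le_trans ?_ h2
      positivity
    have h5 : (D.card : ℝ) * (ε * μ / 4) ≤ ε / 4 * P := by
      have := mul_le_mul_of_nonneg_left h2 (show 0 ≤ ε / 4 by positivity)
      linarith
    have h6 : (1 - ε / 4) * ((1 - ε / 4) * P) ≤ ∑ f ∈ D, h f := by
      refine le_trans ?_ h3
      apply mul_le_mul_of_nonneg_left _ (by linarith)
      linarith
    have h7 : h e ≤ (1 + ε / 4) * ((1 - ε) * P) :=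
      h4.trans (mul_le_mul_of_nonneg_left h1 (by linarith))
    refine h7.trans (le_trans ?_ h6)
    have h8 : (1 + ε / 4) * (1 - ε) ≤ (1 - ε / 4) * (1 - ε / 4) := by nlinarith
    nlinarith

theorem slack_core (ε : ℝ) (hε : 0 < ε) (hε1 : ε ≤ 1) (G : MGraph V E) (p : E → ℕ)
    (hbr : G.Bridgeless) (v : E × Bool → V)
    (hv : ∀ e, G.ends e = s(v (e, false), v (e, true))) (hptc : TCc v p)
    (hWeven : G.IsEven (univ.filter fun e => Odd (p e)))
    (hlo : ∀ e, 40000 / ε ^ 2 * Real.log (2 * Fintype.card E) ≤ p e)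
    (hsl : ∀ (S : Finset V) (B : Finset E), (∀ f, f ∈ B ↔ f ∈ cutEdges G S) → 3 ≤ B.card →
      ∀ e ∈ B, (p e : ℝ) ≤ (1 - ε) * ∑ f ∈ B.erase e, (p f : ℝ)) : InIntCone G p := by
  classical
  by_cases hE : IsEmpty E
  · exact ⟨0, by simp, fun e => (hE.false e).elim⟩
  rw [not_isEmpty_iff] at hE
  obtain ⟨e0⟩ := hE
  have hcard : 1 ≤ Fintype.card E := Fintype.card_pos_iff.2 ⟨e0⟩
  set N : ℝ := (Fintype.card E : ℝ) with hN
  have hc1 : (1 : ℝ) ≤ N := by rw [hN]; exact_mod_cast hcard
  set ℓ := Real.log (2 * N) with hℓ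
  have hℓ1 : 0.69 ≤ ℓ := by
    have h1 : Real.log 2 ≤ ℓ := by
      apply Real.log_le_log (by norm_num)
      linarith
    have := Real.log_two_gt_d9
    linarith
  have hexpℓ : Real.exp ℓ = 2 * N := Real.exp_log (by linarith)
  set μ : ℝ := 40000 / ε ^ 2 * ℓ with hμ
  have hμ0 : 0 < μ := by positivity
  have hpos : ∀ e, 0 < p e := by
    intro e
    have h1 := hlo e
    have h2 : (0 : ℝ) < p e := by linarith
    exact_mod_cast h2
  set W : Finset E := univ.filter fun e => Odd (p e) with hW
  set c : ℝ := ε * μ / 4 with hc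
  have hcval : c = 10000 * ℓ / ε := by
    rw [hc, hμ]; field_simp; ring
  set δ : ℝ := ε / 8 with hδ
  set t : ℝ := δ / 8 with ht
  set κ : ℝ := δ ^ 2 / 32 with hκ
  set A : ℝ := 4096 * ℓ / ε ^ 2 with hA
  set T : ℝ := 8 * N * Real.exp (5 * ℓ) with hT
  have hε2 : ε ^ 2 ≤ 1 := by nlinarith
  have hA1 : 1 ≤ A := by
    rw [hA, le_div_iff₀ (by positivity)]
    nlinarith
  have hκA : κ * A = 2 * ℓ := by
    rw [hκ, hA, hδ]; field_simp; ring
  have htA : 5 * t ^ 2 * A = 5 * ℓ := by
    rw [ht, hA, hδ]; field_simp; ring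
  have hexp1 : 1 ≤ Real.exp (5 * ℓ) := by
    rw [← Real.exp_zero]; apply Real.exp_le_exp.2; linarith
  have hT1 : 1 ≤ T := by
    rw [hT]; nlinarith
  have hlogT : Real.log T ≤ 8 * ℓ := by
    have h1 : T ≤ Real.exp (8 * ℓ) := by
      have e1 : Real.exp (8 * ℓ) = Real.exp ℓ * Real.exp ℓ * Real.exp ℓ * Real.exp (5 * ℓ) := by
        rw [← Real.exp_add, ← Real.exp_add, ← Real.exp_add]; ring_nf
      rw [e1, hexpℓ, hT]
      apply mul_le_mul_of_nonneg_right _ (Real.exp_nonneg _)
      have : 1 ≤ N * N := by nlinarith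
      nlinarith
    have := Real.log_le_log (by linarith) h1
    rwa [Real.log_exp] at this
  have hct : 17 * (Real.log T / t) + 8 ≤ c := by
    rw [hcval]
    have h1 : Real.log T / t ≤ 512 * ℓ / ε := by
      rw [ht, hδ, div_div, div_le_div_iff₀ (by positivity) hε]
      nlinarith
    have h2 : 8 ≤ 12 * ℓ / ε := by
      rw [le_div_iff₀ hε]; nlinarith
    have h3 : 17 * (512 * ℓ / ε) + 12 * ℓ / ε ≤ 10000 * ℓ / ε := by
      rw [show 17 * (512 * ℓ / ε) + 12 * ℓ / ε = 8716 * ℓ / ε by ring]
      apply div_le_div_of_nonneg_right _ hε.le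
      linarith
    linarith
  -- the slack
  have hslk : Slk G v δ (fun e => (p e : ℝ) - c) := by
    apply slk_of_slack G hbr v hv ε hε hε1 μ hμ0 (fun e => (p e : ℝ)) hlo
    intro S e he hk
    have h1 := hsl S (univ.filter (fun f => Lv v S f)) (by
      intro f
      rw [mem_cutEdges G v hv]
      simp) (by
      have h7 : univ.filter (fun f => f ≠ e ∧ Lv v S f) =
          (univ.filter (fun f => Lv v S f)).erase e := by
        ext f
        simp [Finset.mem_erase]
      rw [h7, Finset.card_erase_of_mem (by simp [he])] at hk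
      omega) e (by simp [he])
    have h7 : (univ.filter (fun f => Lv v S f)).erase e =
        univ.filter (fun f => f ≠ e ∧ Lv v S f) := by
      ext f
      simp [Finset.mem_erase]
    rw [h7] at h1
    exact h1
  obtain ⟨n, hn⟩ : ∃ n : ℕ, ∀ e, (p e : ℝ) ≤ 2 ^ n := by
    refine ⟨∑ e, p e, fun e => ?_⟩
    have h1 : p e ≤ ∑ e, p e := Finset.single_le_sum (fun _ _ => Nat.zero_le _) (Finset.mem_univ e)
    have h2 : p e ≤ 2 ^ (∑ e, p e) := h1.trans Nat.lt_two_pow_self.le
    exact_mod_cast h2
  have hc0 : 0 ≤ c := by rw [hcval]; positivity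
  have hWle : ∀ e, (if e ∈ W then 1 else 0) ≤ p e := by
    intro e
    have := hpos e
    split_ifs <;> omega
  have hzval : ∀ e, ((p e - (if e ∈ W then 1 else 0) : ℕ) : ℝ) - c - ((p e : ℝ) - c) =
      -(if e ∈ W then 1 else 0) := by
    intro e
    rw [Nat.cast_sub (hWle e)]
    push_cast
    ring
  have hres : InIntCone G (fun e => p e - (if e ∈ W then 1 else 0)) := by
    apply batch G hbr v hv t δ κ A T c (by positivity) (by rw [hδ]; linarith) ht hκ hA1 hT1
      (by
        rw [hκA, show 2 * ℓ = ℓ + ℓ by ring, Real.exp_add, hexpℓ]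
        nlinarith) hct n (fun e => p e - (if e ∈ W then 1 else 0)) (fun e => (p e : ℝ) - c)
    · intro e
      have h1 := hlo e
      have h2 : ε * μ ≤ 1 * μ := mul_le_mul_of_nonneg_right hε1 hμ0.le
      show 0 ≤ (p e : ℝ) - c
      rw [hc]
      linarith
    · intro e
      have := hn e
      show (p e : ℝ) - c ≤ 2 ^ n
      linarith
    · intro e f hef
      show (p e : ℝ) - c = (p f : ℝ) - c
      rw [hptc e f hef]
    · exact hslk
    · intro e
      show Even (p e - (if e ∈ W then 1 else 0))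
      by_cases h3 : e ∈ W
      · have h4 : Odd (p e) := (Finset.mem_filter.1 h3).2
        rw [if_pos h3]
        rw [Nat.odd_iff] at h4
        rw [Nat.even_iff]
        omega
      · have h4 : ¬ Odd (p e) := fun h => h3 (Finset.mem_filter.2 ⟨Finset.mem_univ _, h⟩)
        rw [Nat.not_odd_iff_even] at h4
        rw [if_neg h3]
        simpa using h4
    · intro e f hef
      show p e - (if e ∈ W then 1 else 0) = p f - (if f ∈ W then 1 else 0)
      have h3 : (e ∈ W) = (f ∈ W) := by
        simp only [hW, Finset.mem_filter, Finset.mem_univ, true_and, hptc e f hef]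
      simp only [hptc e f hef, h3]
    · intro e he
      show |((p e - (if e ∈ W then 1 else 0) : ℕ) : ℝ) - c - ((p e : ℝ) - c)| ≤ _
      rw [hzval e]
      have h1 : |(-(if e ∈ W then (1 : ℝ) else 0))| ≤ 1 := by
        split_ifs <;> simp
      refine h1.trans ?_
      have h2 : δ * A ≤ δ * ((p e : ℝ) - c) := mul_le_mul_of_nonneg_left he.le (by positivity)
      refine le_trans ?_ h2
      rw [hδ, hA, show ε / 8 * (4096 * ℓ / ε ^ 2) = 512 * ℓ / ε by field_simp; ring,
        le_div_iff₀ hε]
      nlinarith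
    · have hterm : ∀ e ∈ (univ : Finset E), Fp t κ A T ((p e : ℝ) - c)
          (((p e - (if e ∈ W then 1 else 0) : ℕ) : ℝ) - c - ((p e : ℝ) - c)) ≤
          2 * T * Real.exp (-(κ * A)) + 4 * Real.exp (5 * t ^ 2 * A) := by
        intro e _
        rw [hzval e]
        unfold Fp
        split_ifs with h1 h2
        · have ht64 : t ≤ 1 / 64 := by rw [ht, hδ]; linarith
          have ht0 : 0 < t := by positivity
          have e1 : Real.exp (t * -1) + Real.exp (-(t * -1)) ≤ 4 := by
            have k1 : Real.exp (t * -1) ≤ 1 := by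
              have k4 : Real.exp (t * -1) ≤ Real.exp 0 := Real.exp_le_exp.2 (by linarith)
              rwa [Real.exp_zero] at k4
            have k2 : Real.exp (-(t * -1)) ≤ 3 := by
              have k3 : Real.exp (-(t * -1)) ≤ Real.exp 1 := by
                apply Real.exp_le_exp.2; linarith
              have := Real.exp_one_lt_d9
              linarith
            linarith
          have e2 : Real.exp (2 * t ^ 2 * ((p e : ℝ) - c)) ≤ Real.exp (5 * t ^ 2 * A) := by
            apply Real.exp_le_exp.2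
            have k1 : t ^ 2 * ((p e : ℝ) - c) ≤ t ^ 2 * A := mul_le_mul_of_nonneg_left h1 (sq_nonneg _)
            have k2 : 0 ≤ t ^ 2 * A := by positivity
            linarith
          have e3 : (Real.exp (t * -1) + Real.exp (-(t * -1))) * Real.exp (2 * t ^ 2 * ((p e : ℝ) - c))
              ≤ 4 * Real.exp (5 * t ^ 2 * A) :=
            mul_le_mul e1 e2 (Real.exp_nonneg _) (by norm_num)
          have e4 : 0 ≤ 2 * T * Real.exp (-(κ * A)) := by positivity
          linarith
        · have e1 : Real.exp (t * -0) + Real.exp (-(t * -0)) ≤ 4 := by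
            simp; norm_num
          have e2 : Real.exp (2 * t ^ 2 * ((p e : ℝ) - c)) ≤ Real.exp (5 * t ^ 2 * A) := by
            apply Real.exp_le_exp.2
            have k1 : t ^ 2 * ((p e : ℝ) - c) ≤ t ^ 2 * A := mul_le_mul_of_nonneg_left h1 (sq_nonneg _)
            have k2 : 0 ≤ t ^ 2 * A := by positivity
            linarith
          have e3 : (Real.exp (t * -0) + Real.exp (-(t * -0))) * Real.exp (2 * t ^ 2 * ((p e : ℝ) - c))
              ≤ 4 * Real.exp (5 * t ^ 2 * A) :=
            mul_le_mul e1 e2 (Real.exp_nonneg _) (by norm_num)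
          have e4 : 0 ≤ 2 * T * Real.exp (-(κ * A)) := by positivity
          linarith
        · have e4 : 0 ≤ 2 * T * Real.exp (-(κ * ((p e : ℝ) - c))) := by positivity
          have e5 := Real.exp_nonneg (5 * t ^ 2 * A)
          linarith
      refine (Finset.sum_le_sum hterm).trans ?_
      rw [Finset.sum_const, Finset.card_univ, nsmul_eq_mul, ← hN, htA, hκA]
      have e1 : Real.exp (-(2 * ℓ)) = 1 / (2 * N) * (1 / (2 * N)) := by
        rw [show -(2 * ℓ) = -ℓ + -ℓ by ring, Real.exp_add, Real.exp_neg, hexpℓ]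
        simp
      rw [e1]
      have e2 : N * (2 * T * (1 / (2 * N) * (1 / (2 * N)))) ≤ T / 2 := by
        have : N * (2 * T * (1 / (2 * N) * (1 / (2 * N)))) = T / (2 * N) := by
          field_simp
        rw [this]
        apply div_le_div_of_nonneg_left (by linarith) (by norm_num)
        linarith
      have e3 : N * (4 * Real.exp (5 * ℓ)) = T / 2 := by
        rw [hT]; ring
      rw [mul_add, e3]
      linarith
  have hfin := intCone_add hres (intCone_even G W hWeven)
  convert hfin using 1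
  ext e
  have := hWle e
  omega

theorem slack_cover (ε : ℝ) (hε : 0 < ε) (hε1 : ε ≤ 1) (G : MGraph V E) (p : E → ℕ)
    (hlat : InLat G p)
    (hlo : ∀ e, 40000 / ε ^ 2 * Real.log (2 * Fintype.card E) ≤ p e)
    (hsl : ∀ (S : Finset V) (B : Finset E), (∀ f, f ∈ B ↔ f ∈ cutEdges G S) → 3 ≤ B.card →
      ∀ e ∈ B, (p e : ℝ) ≤ (1 - ε) * ∑ f ∈ B.erase e, (p f : ℝ)) : InIntCone G p := by
  by_cases hE : IsEmpty E
  · exact ⟨0, by simp, fun e => (hE.false e).elim⟩
  rw [not_isEmpty_iff] at hE
  obtain ⟨e0⟩ := hE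
  obtain ⟨v, hv⟩ := G.exists_halves
  have hcard : 1 ≤ Fintype.card E := Fintype.card_pos_iff.2 ⟨e0⟩
  have hc1 : (1 : ℝ) ≤ Fintype.card E := by exact_mod_cast hcard
  have hpos : ∀ e, 0 < p e := by
    intro e
    have h1 := hlo e
    have h2 : 0 < 40000 / ε ^ 2 * Real.log (2 * Fintype.card E) :=
      mul_pos (by positivity) (Real.log_pos (by linarith))
    have h3 : (0 : ℝ) < p e := by linarith
    exact_mod_cast h3
  have hptc : TCc v p := by
    intro e f hef
    have := tc_of_lat G v hv hef _ hlat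
    exact_mod_cast this
  exact slack_core ε hε hε1 G p (bridgeless_of_lat G p hlat hpos) v hv hptc
    (parity_of_lat G p hlat) hlo hsl

end Pool.Agent.W831.ECC
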