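import Pool.Agent.W831.ECC.Gad3

set_option autoImplicit false
set_option linter.unusedSectionVars false
set_option linter.unusedVariables false

/-!
Seymour's theorem on sums of circuits (the cut condition), and the consequence for weights within
a factor smaller than two.
-/

namespace Pool.Agent.W831.ECC

open Finset
open Pool.Agent.Helper879.ECD (F2 f2_add_self IsFlow)
open Pool.Agent.H126R2.CDC (MGraph IsFl isFl_iff)
open Pool.Agent.H126R2.NC (InLat InIntCone InCone cone_lat_of_intCone)
open Pool.Agent.W831.ECC.Gad (CutC Lv even_round)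

variable {V E : Type} [Fintype V] [DecidableEq V] [Fintype E] [DecidableEq E]

lemma RCone.add {G : MGraph V E} {x y : E → ℝ} (hx : RCone G x) (hy : RCone G y) :
    RCone G (x + y) := by
  obtain ⟨w, h0, h1, h2⟩ := hx
  obtain ⟨w', h0', h1', h2'⟩ := hy
  refine ⟨fun C => w C + w' C, fun C => add_nonneg (h0 C) (h0' C), ?_, ?_⟩
  · intro C hC
    show w C + w' C = 0
    rw [h1 C hC, h1' C hC, add_zero]
  · intro e
    rw [Pi.add_apply, h2 e, h2' e, ← Finset.sum_add_distrib]
    apply Finset.sum_congr rfl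
    intro C _
    ring

lemma RCone.smul {G : MGraph V E} {x : E → ℝ} (hx : RCone G x) {t : ℝ} (ht : 0 ≤ t) :
    RCone G (t • x) := by
  obtain ⟨w, h0, h1, h2⟩ := hx
  refine ⟨fun C => t * w C, fun C => mul_nonneg ht (h0 C), ?_, ?_⟩
  · intro C hC
    show t * w C = 0
    rw [h1 C hC, mul_zero]
  · intro e
    rw [Pi.smul_apply, h2 e, smul_eq_mul, Finset.mul_sum]
    apply Finset.sum_congr rfl
    intro C _
    ring

lemma rcone_even (G : MGraph V E) (D : Finset E) (hD : G.IsEven D) :
    RCone G (fun e => if e ∈ D then 1 else 0) := by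
  have h1 := (cone_lat_of_intCone G _ (intCone_even G D hD)).1
  obtain ⟨w, h0, h1, h2⟩ := h1
  refine ⟨w, h0, h1, fun e => ?_⟩
  rw [← h2 e]
  by_cases he : e ∈ D <;> simp [he]

lemma rcone_small (G : MGraph V E) (v : E × Bool → V)
    (hv : ∀ e, G.ends e = s(v (e, false), v (e, true))) (x : E → ℝ) (h0 : ∀ e, 0 ≤ x e)
    (h1 : ∀ e, x e ≤ 1 / 2) (hc : CutC v x) : RCone G x := by
  classical
  set P : Set (E → ℝ) := {y | ∃ D : Finset E, G.IsEven D ∧ y = fun e => if e ∈ D then 1 else 0}
    with hP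
  have hfin : P.Finite := by
    have : P ⊆ Set.range (fun D : Finset E => fun e => if e ∈ D then (1 : ℝ) else 0) := by
      rintro y ⟨D, _, rfl⟩
      exact ⟨D, rfl⟩
    exact (Set.finite_range _).subset this
  have hsub : convexHull ℝ P ⊆ {y | RCone G y} := by
    apply convexHull_min
    · rintro y ⟨D, hD, rfl⟩
      exact rcone_even G D hD
    · intro a ha b hb s t hs ht _
      exact (RCone.smul ha hs).add (RCone.smul hb ht)
  by_contra hx
  have hx' : x ∉ convexHull ℝ P := fun h => hx (hsub h)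
  obtain ⟨f, c, hf1, hf2⟩ := geometric_hahn_banach_point_closed (convex_convexHull ℝ P)
    (hfin.isClosed_convexHull (𝕜 := ℝ)) hx'
  have hrep : ∀ y : E → ℝ, f y = ∑ e, f (fun j => if e = j then 1 else 0) * y e := by
    intro y
    have := LinearMap.pi_apply_eq_sum_univ (f : (E → ℝ) →ₗ[ℝ] ℝ) y
    simp only [smul_eq_mul] at this
    rw [show f y = (f : (E → ℝ) →ₗ[ℝ] ℝ) y from rfl, this]
    apply Finset.sum_congr rfl
    intro e _
    rw [mul_comm]
    rfl
  obtain ⟨D, hD1, hD2⟩ := even_round v x h0 (fun e => (h1 e).trans (by norm_num)) hc (fun e => f (fun j => if e = j then 1 else 0))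
  have hD3 : G.IsEven D := (G.isEven_iff v hv D).2 hD1
  have h2 := hf2 _ (subset_convexHull ℝ P ⟨D, hD3, rfl⟩)
  rw [hrep] at h2 hf1
  have h3 : ∑ e, f (fun j => if e = j then 1 else 0) * (if e ∈ D then (1 : ℝ) else 0) =
      ∑ e ∈ D, f (fun j => if e = j then 1 else 0) := by
    simp only [mul_ite, mul_one, mul_zero]
    rw [Finset.sum_ite_mem, Finset.univ_inter]
  rw [h3] at h2
  linarith

/-- **Sums of circuits theorem** (Seymour). -/
theorem rcone_of_cut (G : MGraph V E) (v : E × Bool → V)
    (hv : ∀ e, G.ends e = s(v (e, false), v (e, true))) (x : E → ℝ) (h0 : ∀ e, 0 ≤ x e)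
    (hc : CutC v x) : RCone G x := by
  set T : ℝ := 2 * (1 + ∑ e, x e) with hT
  have hs : 0 ≤ ∑ e, x e := Finset.sum_nonneg (fun e _ => h0 e)
  have hT0 : 0 < T := by linarith
  have h1 : RCone G (T⁻¹ • x) := by
    apply rcone_small G v hv
    · intro e
      rw [Pi.smul_apply, smul_eq_mul]
      exact mul_nonneg (inv_nonneg.2 hT0.le) (h0 e)
    · intro e
      rw [Pi.smul_apply, smul_eq_mul]
      have h2 : x e ≤ ∑ e, x e := Finset.single_le_sum (fun e _ => h0 e) (Finset.mem_univ e)
      rw [inv_mul_le_iff₀ hT0]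
      linarith
    · intro S e he
      have h2 := hc S e he
      have h3 : ∑ f : E, (if f ≠ e ∧ Lv v S f then (T⁻¹ • x) f else 0) =
          T⁻¹ * ∑ f : E, (if f ≠ e ∧ Lv v S f then x f else 0) := by
        rw [Finset.mul_sum]
        apply Finset.sum_congr rfl
        intro f _
        rw [Pi.smul_apply, smul_eq_mul]
        split_ifs <;> simp
      rw [h3, Pi.smul_apply, smul_eq_mul]
      exact mul_le_mul_of_nonneg_left h2 (inv_nonneg.2 hT0.le)
  have h2 := RCone.smul h1 hT0.le
  rw [smul_smul, mul_inv_cancel₀ hT0.ne', one_smul] at h2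
  exact h2

lemma circuit_cut (G : MGraph V E) (v : E × Bool → V)
    (hv : ∀ e, G.ends e = s(v (e, false), v (e, true))) (C : Finset E) (hC : G.IsCircuit C)
    (S : Finset V) (e : E) (heC : e ∈ C) (he : Lv v S e) : ∃ f ∈ C, f ≠ e ∧ Lv v S f := by
  by_contra hcon
  push Not at hcon
  have h1 := (isFl_iff v _).1 ((G.isEven_iff v hv C).1 hC.isEven) (fun w => if w ∈ S then 1 else 0)
  have h2 : ∀ f ∈ (univ : Finset E), (if f ∈ C then (1 : F2) else 0) *
      ((if v (f, false) ∈ S then (1 : F2) else 0) + (if v (f, true) ∈ S then (1 : F2) else 0)) =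
      if f = e then 1 else 0 := by
    intro f _
    by_cases hfe : f = e
    · subst hfe
      rw [if_pos heC, if_pos rfl, one_mul]
      unfold Lv at he
      by_cases h5 : v (f, false) ∈ S
      · have h6 : v (f, true) ∉ S := fun h6 => he ⟨fun _ => h6, fun _ => h5⟩
        simp [h5, h6]
      · have h6 : v (f, true) ∈ S := by
          by_contra h6; exact he ⟨fun h => absurd h h5, fun h => absurd h h6⟩
        simp [h5, h6]
    · rw [if_neg hfe]
      by_cases hfC : f ∈ C
      · have h4 := hcon f hfC hfe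
        unfold Lv at h4
        rw [not_not] at h4
        by_cases h5 : v (f, false) ∈ S
        · have h6 := h4.1 h5
          rw [if_pos h5, if_pos h6, f2_add_self, mul_zero]
        · have h6 : v (f, true) ∉ S := fun h => h5 (h4.2 h)
          rw [if_neg h5, if_neg h6, add_zero, mul_zero]
      · rw [if_neg hfC, zero_mul]
  rw [Finset.sum_congr rfl h2] at h1
  simp at h1

/-- the easy direction -/
theorem cut_of_rcone (G : MGraph V E) (v : E × Bool → V)
    (hv : ∀ e, G.ends e = s(v (e, false), v (e, true))) (x : E → ℝ) (h : RCone G x) :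
    CutC v x := by
  obtain ⟨w, h0, h1, h2⟩ := h
  intro S e he
  have h3 : ∑ f : E, (if f ≠ e ∧ Lv v S f then x f else 0) =
      ∑ C : Finset E, w C * ∑ f : E, (if f ≠ e ∧ Lv v S f then (if f ∈ C then (1 : ℝ) else 0) else 0) := by
    have h4 : ∀ f ∈ (univ : Finset E), (if f ≠ e ∧ Lv v S f then x f else 0) =
        ∑ C : Finset E, w C * (if f ≠ e ∧ Lv v S f then (if f ∈ C then (1 : ℝ) else 0) else 0) := by
      intro f _
      split_ifs with hf
      · exact h2 f
      · simp
    rw [Finset.sum_congr rfl h4, Finset.sum_comm]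
    apply Finset.sum_congr rfl
    intro C _
    rw [Finset.mul_sum]
  rw [h3, h2 e]
  apply Finset.sum_le_sum
  intro C _
  by_cases hC : G.IsCircuit C
  · apply mul_le_mul_of_nonneg_left _ (h0 C)
    by_cases heC : e ∈ C
    · rw [if_pos heC]
      obtain ⟨f, hfC, hfe, hf⟩ := circuit_cut G v hv C hC S e heC he
      refine le_trans (le_of_eq ?_) (Finset.single_le_sum (f := fun f : E =>
        if f ≠ e ∧ Lv v S f then (if f ∈ C then (1 : ℝ) else 0) else 0) ?_ (Finset.mem_univ f))
      · simp only [hfe, hf, hfC, ne_eq, not_false_eq_true, and_self, if_true]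
      · intro g _
        split_ifs <;> norm_num
    · rw [if_neg heC]
      apply Finset.sum_nonneg
      intro g _
      split_ifs <;> norm_num
  · rw [h1 C hC, zero_mul, zero_mul]

/-- Weights within a factor `2 - ε`, at least `7200 log(2|E|) / ε^2`. -/
theorem ratio_two (ε : ℝ) (hε : 0 < ε) (hε1 : ε ≤ 1) (G : MGraph V E) (p : E → ℕ)
    (hlo : ∀ e, 7200 / ε ^ 2 * Real.log (2 * Fintype.card E) ≤ p e)
    (hr : ∀ e f, (p e : ℝ) ≤ (2 - ε) * p f) (hcone : InCone G p) (hlat : InLat G p) :
    InIntCone G p := by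
  classical
  by_cases hE : IsEmpty E
  · exact ⟨0, by simp, fun e => (hE.false e).elim⟩
  rw [not_isEmpty_iff] at hE
  obtain ⟨v, hv⟩ := G.exists_halves
  obtain ⟨e0, -, he0⟩ := Finset.exists_max_image (univ : Finset E) p Finset.univ_nonempty
  obtain ⟨e1, -, he1⟩ := Finset.exists_min_image (univ : Finset E) p Finset.univ_nonempty
  have hcard : 1 ≤ Fintype.card E := Fintype.card_pos_iff.2 ⟨e0⟩
  have hc1 : (1 : ℝ) ≤ Fintype.card E := by exact_mod_cast hcard
  set ℓ := Real.log (2 * Fintype.card E) with hℓ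
  have hℓ0 : 0 < ℓ := Real.log_pos (by linarith)
  set μ : ℝ := (p e1 : ℝ) with hμ
  have hμ1 : 7200 / ε ^ 2 * ℓ ≤ μ := hlo e1
  have hμ0 : 0 < μ := lt_of_lt_of_le (by positivity) hμ1
  have hmin : ∀ e, μ ≤ p e := fun e => by
    have := he1 e (Finset.mem_univ e)
    rw [hμ]; exact_mod_cast this
  set L : ℝ := ε * μ with hL
  have hLμ : L ≤ μ := by rw [hL]; nlinarith
  apply deep G p hlat L (p e0) (fun e => he0 e (Finset.mem_univ e))
  · -- depth
    rw [← hℓ]
    have h1 : (p e0 : ℝ) ≤ 2 * μ := by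
      have := hr e0 e1
      nlinarith
    have h2 : Real.sqrt ((p e0 : ℝ) * ℓ) ≤ L / 60 := by
      apply Real.sqrt_le_iff.2
      refine ⟨by positivity, ?_⟩
      have h3 : 7200 * ℓ ≤ μ * ε ^ 2 := by
        have h4 : 7200 / ε ^ 2 * ℓ = 7200 * ℓ / ε ^ 2 := by ring
        rw [h4, div_le_iff₀ (by positivity)] at hμ1
        exact hμ1
      have h5 : (p e0 : ℝ) * ℓ ≤ 2 * μ * ℓ := mul_le_mul_of_nonneg_right h1 hℓ0.le
      have h6 : μ * (7200 * ℓ) ≤ μ * (μ * ε ^ 2) := mul_le_mul_of_nonneg_left h3 hμ0.le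
      rw [hL, div_pow, mul_pow]
      nlinarith
    linarith
  · -- cone
    have hRC : RCone G (fun e => (p e : ℝ)) := hcone
    have hcut := cut_of_rcone G v hv _ hRC
    apply rcone_of_cut G v hv
    · intro e
      have := hmin e
      linarith
    · intro S e he
      have h1 := hcut S e he
      -- the other edges of the cut
      set D : Finset E := univ.filter (fun f => f ≠ e ∧ Lv v S f) with hD
      have hy : ∀ y : E → ℝ, ∑ f : E, (if f ≠ e ∧ Lv v S f then y f else 0) = ∑ f ∈ D, y f := by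
        intro y
        rw [hD, Finset.sum_filter]
      rw [hy] at h1 ⊢
      have h2 : ∑ f ∈ D, ((p f : ℝ) - L) = ∑ f ∈ D, (p f : ℝ) - D.card * L := by
        rw [Finset.sum_sub_distrib, Finset.sum_const, nsmul_eq_mul]
      rw [h2]
      rcases Nat.lt_or_ge D.card 2 with hk | hk
      · interval_cases hk' : D.card
        · rw [Finset.card_eq_zero] at hk'
          rw [hk', Finset.sum_empty] at h1
          have := hmin e
          linarith
        · simp only [Nat.cast_one, one_mul]
          linarith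
      · have h3 : (D.card : ℝ) * μ ≤ ∑ f ∈ D, (p f : ℝ) := by
          rw [← nsmul_eq_mul, ← Finset.sum_const]
          exact Finset.sum_le_sum (fun f _ => hmin f)
        have h4 : (2 : ℝ) ≤ D.card := by exact_mod_cast hk
        have h5 := hr e e1
        have h6 : (D.card : ℝ) * (μ - L) ≥ 2 * (μ - L) :=
          mul_le_mul_of_nonneg_right h4 (by linarith)
        have h7 : (p e : ℝ) ≤ 2 * μ - L := by
          rw [hL]
          have : (p e : ℝ) ≤ (2 - ε) * μ := h5
          linarith
        nlinarith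

end Pool.Agent.W831.ECC
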