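import Pool.Agent.W831.ECC.Soc

set_option autoImplicit false
set_option linter.unusedSectionVars false
set_option linter.unusedVariables false

/-!
One rounding step: a real combination of circuits is rounded to an even integer combination, with
control of an exponential potential.
-/

namespace Pool.Agent.W831.ECC

open Finset
open Pool.Agent.H126R2.CDC (MGraph IsFl isFl_iff)
open Pool.Agent.H126R2.NC (InLat InIntCone InCone TC circuit_tc)

variable {V E : Type} [Fintype V] [DecidableEq V] [Fintype E] [DecidableEq E]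

theorem step (G : MGraph V E) (v : E × Bool → V)
    (hv : ∀ e, G.ends e = s(v (e, false), v (e, true))) (h : E → ℝ) (hR : RCone G h)
    (t : ℝ) (ht : |2 * t| ≤ 1) (a b : E → ℝ) (ha : ∀ e, 0 ≤ a e) (hb : ∀ e, 0 ≤ b e) :
    ∃ (S : E → ℕ) (d : E → ℝ), InIntCone G S ∧ (∀ e, Even (S e)) ∧
      (∀ e f, TC (fun e => v (e, false)) (fun e => v (e, true)) e f → S e = S f) ∧
      (∀ e, (S e : ℝ) = h e + d e) ∧
      ∑ e, (a e * Real.exp (t * d e) + b e * Real.exp (-t * d e)) ≤
        ∑ e, (a e + b e) * Real.exp (2 * t ^ 2 * h e) := by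
  classical
  obtain ⟨w, hw0, hw1, hw2⟩ := hR
  set θ : Finset E → ℝ := fun C => Int.fract (w C / 2) with hθ
  set s : Finset (Finset E) := univ.filter fun C => G.IsCircuit C with hs
  have hsum : ∀ e, ∑ C ∈ s, (if e ∈ C then w C / 2 else 0) = h e / 2 := by
    intro e
    rw [hw2 e, Finset.sum_div]
    rw [← Finset.sum_subset (Finset.subset_univ s)]
    · apply Finset.sum_congr rfl
      intro C _
      split_ifs <;> ring
    · intro C _ hC
      have : ¬ G.IsCircuit C := fun h => hC (Finset.mem_filter.2 ⟨Finset.mem_univ _, h⟩)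
      rw [hw1 C this]
      ring
  have hθle : ∀ C, θ C ≤ w C / 2 := by
    intro C
    simp only [hθ]
    have h1 : 0 ≤ w C / 2 := div_nonneg (hw0 C) (by norm_num)
    have h2 : (0 : ℤ) ≤ ⌊w C / 2⌋ := Int.floor_nonneg.2 h1
    have h3 : (0 : ℝ) ≤ (⌊w C / 2⌋ : ℝ) := by exact_mod_cast h2
    have h4 := Int.floor_add_fract (w C / 2)
    linarith
  obtain ⟨ε, hε1, hε2⟩ := derand (κ := E) (fun e C => e ∈ C) θ
    (fun C => Int.fract_nonneg _) (fun C => (Int.fract_lt_one _).le) (2 * t) ht s a b ha hb
  set n : Finset E → ℕ := fun C => ⌊w C / 2⌋₊ + ε C with hn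
  refine ⟨fun e => ∑ C ∈ s, (2 * n C) * (if e ∈ C then 1 else 0),
    fun e => 2 * dev (fun e C => e ∈ C) θ ε s e, ?_, ?_, ?_, ?_, ?_⟩
  · exact intCone_comb G s (fun C hC => (Finset.mem_filter.1 hC).2) (fun C => 2 * n C)
  · intro e
    dsimp only
    rw [show (∑ C ∈ s, (2 * n C) * (if e ∈ C then 1 else 0)) =
      2 * ∑ C ∈ s, n C * (if e ∈ C then 1 else 0) by
        rw [Finset.mul_sum]; apply Finset.sum_congr rfl; intro C _; ring]
    exact even_two_mul _
  · intro e f hef
    dsimp only
    apply Finset.sum_congr rfl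
    intro C hC
    have hCc : G.IsCircuit C := (Finset.mem_filter.1 hC).2
    have h3 := circuit_tc G v hv hCc hef
    by_cases he : e ∈ C
    · rw [if_pos he, if_pos (h3.1 he)]
    · rw [if_neg he, if_neg (fun h => he (h3.2 h))]
  · intro e
    have h2 : h e = 2 * ∑ C ∈ s, (if e ∈ C then w C / 2 else 0) := by
      rw [hsum e]; ring
    rw [h2]
    simp only [dev, Nat.cast_sum, Finset.mul_sum, ← Finset.sum_add_distrib]
    apply Finset.sum_congr rfl
    intro C _
    by_cases he : e ∈ C
    · simp only [he, if_true, hn, hθ]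
      push_cast
      have h3 : ((⌊w C / 2⌋₊ : ℕ) : ℝ) = (⌊w C / 2⌋ : ℝ) :=
        natCast_floor_eq_intCast_floor (div_nonneg (hw0 C) (by norm_num))
      rw [h3]
      have h4 := Int.floor_add_fract (w C / 2)
      linarith
    · simp [he]
  · refine le_trans (le_of_eq ?_) (hε2.trans ?_)
    · apply Finset.sum_congr rfl
      intro e _
      have e1 : t * (2 * dev (fun e C => e ∈ C) θ ε s e) =
        2 * t * dev (fun e C => e ∈ C) θ ε s e := by ring
      have e2 : -t * (2 * dev (fun e C => e ∈ C) θ ε s e) =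
        -(2 * t) * dev (fun e C => e ∈ C) θ ε s e := by ring
      rw [e1, e2]
    · apply Finset.sum_le_sum
      intro e _
      apply mul_le_mul_of_nonneg_left _ (add_nonneg (ha e) (hb e))
      apply Real.exp_le_exp.2
      have h5 : ∑ C ∈ s, (if e ∈ C then θ C else 0) ≤ h e / 2 := by
        rw [← hsum e]
        apply Finset.sum_le_sum
        intro C _
        split_ifs
        · exact hθle C
        · exact le_rfl
      have h6 : 0 ≤ (2 * t) ^ 2 := sq_nonneg _
      calc (2 * t) ^ 2 * ∑ C ∈ s, (if e ∈ C then θ C else 0) ≤ (2 * t) ^ 2 * (h e / 2) :=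
            mul_le_mul_of_nonneg_left h5 h6
        _ = 2 * t ^ 2 * h e := by ring

end Pool.Agent.W831.ECC
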